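import Mathlib
import Pool.Agent.RD.Defs
import Pool.Agent.RD.Targets2

/-!
Definitions for project PKD (MP_28d749_ag): Pink's conclusion for 100 per cent of the multisections
of the fibre powers of an elliptic scheme.
-/

set_option autoImplicit false

namespace PKD

open MvPolynomial RD

/-- standing assumptions on the absolute value and the coefficients of `y^2 = x^3 + a4 x + a6` -/
structure Cx {K : Type} [Field K] (p : ℕ) (v : AbsoluteValue K ℝ) (R : ℝ) (a4 a6 : K) : Prop where
  na : IsNonarchimedean v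
  pp : p.Prime
  p5 : 5 ≤ p
  vp : v (p : K) < 1
  one_le : 1 ≤ R
  h4 : v a4 ≤ R ^ 2
  h6 : v a6 ≤ R ^ 3

/-- `r` is the reduction map of the valuation ring of `v` (extended arbitrarily outside the
valuation ring). -/
structure Red {Ω k : Type} [Field Ω] [Field k] (v : AbsoluteValue Ω ℝ) (r : Ω → k) : Prop where
  na : IsNonarchimedean v
  one : r 1 = 1
  add : ∀ x y, v x ≤ 1 → v y ≤ 1 → r (x + y) = r x + r y
  mul : ∀ x y, v x ≤ 1 → v y ≤ 1 → r (x * y) = r x * r y
  ker : ∀ x, v x ≤ 1 → (r x = 0 ↔ v x < 1)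

/-- reduction of the coefficients of a polynomial -/
noncomputable def rdP {Ω k σ : Type} [Field Ω] [Field k] (r : Ω → k) (q : MvPolynomial σ Ω) :
    MvPolynomial σ k := ∑ t ∈ q.support, monomial t (r (q.coeff t))

/-- reduction of the coefficients of the part of degree `e` -/
noncomputable def rdT {Ω k σ : Type} [Field Ω] [Field k] (r : Ω → k) (e : ℕ)
    (q : MvPolynomial σ Ω) : MvPolynomial σ k :=
  ∑ t ∈ q.support.filter (fun t => t.degree = e), monomial t (r (q.coeff t))

/-- exponents of the monomials of degree at most `D` in the coordinates `(p, s)` of the base -/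
abbrev MonS (d n D : ℕ) : Type := {α : Fin d ⊕ Fin n → Fin (D + 1) // ∑ j, (α j : ℕ) ≤ D}

/-- the monomial as a polynomial -/
noncomputable def um {d n D : ℕ} (R : Type) [CommRing R] (α : MonS d n D) :
    MvPolynomial (Fin d ⊕ Fin n) R := ∏ j, X j ^ (α.1 j : ℕ)

/-- The value at `(p, s)` of the `i`-th function with coefficients `c`. -/
noncomputable def fval {R : Type} [CommRing R] {d n g : ℕ} (D : ℕ) (c : Fin g × MonS d n D → R)
    (p : Fin d → R) (s : Fin n → R) (i : Fin g) : R :=
  ∑ α : MonS d n D, c (i, α) * ∏ j, Sum.elim p s j ^ (α.1 j : ℕ)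

/-- The multisection with coefficients `c` is bad: over some point `(p, s)` of the base the points
`P_i` with abscissas `f_i(p, s)` satisfy `d + 1` independent relations over the endomorphism ring
of the fibre, modulo torsion. -/
def BadAt {Ω : Type} [Field Ω] [DecidableEq Ω] {d n g : ℕ} (D : ℕ) (ρ : Fin n → ℕ)
    (b : Fin n → ℕ → MvPolynomial (Fin d) Ω) (A B : MvPolynomial (Fin d ⊕ Fin n) Ω)
    (c : Fin g × MonS d n D → Ω) : Prop :=
  ∃ (p : Fin d → Ω) (s : Fin n → Ω), OnBase ρ b p s ∧
    ∃ P : Fin g → (curve 0 (eval (Sum.elim p s) A) (eval (Sum.elim p s) B)).Point,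
      (∀ i, ∃ y h, P i = WeierstrassCurve.Affine.Point.some (fval D c p s i) y h) ∧
      (IntRel _ (d + 1) P ∨ CMRel _ (d + 1) P)

/-- the base over the residue field: `none` for integral points, `some m` for points whose largest
coordinate is `p_m` (then the equations of highest degree are used) -/
noncomputable def bty {Ω k : Type} [Field Ω] [Field k] {d n : ℕ} (r : Ω → k) (ρ : Fin n → ℕ)
    (b : Fin n → ℕ → MvPolynomial (Fin d) Ω) : Option (Fin d) → Fin n → ℕ → MvPolynomial (Fin d) k
  | none => fun j l => rdP r (b j l)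
  | some _ => fun j l => rdT r (ρ j - l) (b j l)

/-- the functions over the residue field -/
noncomputable def uty {d n D : ℕ} (k : Type) [Field k] : Option (Fin d) → MonS d n D →
    MvPolynomial (Fin d ⊕ Fin n) k
  | none => fun α => um k α
  | some _ => fun α => if ∑ j, (α.1 j : ℕ) = D then um k α else 0

/-- the exponent of the pivot monomial: `1` or `p_m ^ D` -/
def al0 {d n : ℕ} (D : ℕ) : Option (Fin d) → MonS d n D
  | none => ⟨fun _ => 0, by simp⟩
  | some m => ⟨fun j => if j = Sum.inl m then ⟨D, Nat.lt_succ_self D⟩ else 0, by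
      rw [Finset.sum_eq_single (Sum.inl m)]
      · simp
      · intro b _ hb; simp [hb]
      · intro h; exact absurd (Finset.mem_univ _) h⟩

/-- the system over the residue field -/
def Sys {k : Type} [Field k] {d n g : ℕ} {ι : Type} [Fintype ι] (ρ : Fin n → ℕ)
    (b : Fin n → ℕ → MvPolynomial (Fin d) k) (u : ι → MvPolynomial (Fin d ⊕ Fin n) k) (α0 : ι)
    (S J W : Finset (Fin g)) (τ : Fin g → Fin g → k) (c : Fin g × ι → k)
    (p : Fin d → k) (s : Fin n → k) (h : Fin g → k) : Prop :=
  OnBase ρ b p s ∧ eval (Sum.elim p s) (u α0) ≠ 0 ∧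
  (∀ i ∈ S, ∑ α, c (i, α) * eval (Sum.elim p s) (u α) = 0) ∧
  (∀ i ∈ W, h i ^ 2 * ∑ α, c (i, α) * eval (Sum.elim p s) (u α) = 1) ∧
  (∀ j ∈ J, h j = ∑ i ∈ W \ J, τ j i * h i)

end PKD
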