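import Mathlib
import Pool.Agent.PKD.Defs

/-!
Basic lemmas on nonarchimedean absolute values and on the reduction map `Red v r`.
-/

set_option autoImplicit false

namespace PKD

open MvPolynomial RD

section na
variable {Ω : Type} [Field Ω] {v : AbsoluteValue Ω ℝ}

theorem na_sum {ι : Type*} (na : IsNonarchimedean v) (s : Finset ι) (f : ι → Ω) (B : ℝ)
    (hB : 0 ≤ B) (h : ∀ i ∈ s, v (f i) ≤ B) : v (∑ i ∈ s, f i) ≤ B := by
  classical
  induction s using Finset.induction_on with
  | empty => simpa using hB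
  | insert a s ha ih =>
    rw [Finset.sum_insert ha]
    exact (na _ _).trans (max_le (h a (Finset.mem_insert_self _ _))
      (ih fun i hi => h i (Finset.mem_insert_of_mem hi)))

theorem na_sum_lt {ι : Type*} (na : IsNonarchimedean v) (s : Finset ι) (f : ι → Ω) (B : ℝ)
    (hB : 0 < B) (h : ∀ i ∈ s, v (f i) < B) : v (∑ i ∈ s, f i) < B := by
  classical
  induction s using Finset.induction_on with
  | empty => simpa using hB
  | insert a s ha ih =>
    rw [Finset.sum_insert ha]
    exact (na _ _).trans_lt (max_lt (h a (Finset.mem_insert_self _ _))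
      (ih fun i hi => h i (Finset.mem_insert_of_mem hi)))

theorem na_sub (na : IsNonarchimedean v) (x y : Ω) : v (x - y) ≤ max (v x) (v y) := by
  rw [sub_eq_add_neg]
  have := na x (-y)
  rwa [v.map_neg] at this

/-- the dominant term -/
theorem na_eq (na : IsNonarchimedean v) {x y : Ω} (h : v y < v x) : v (x + y) = v x := by
  refine le_antisymm ((na _ _).trans (max_le le_rfl h.le)) ?_
  by_contra hc
  push Not at hc
  have h1 := na_sub na (x + y) y
  rw [add_sub_cancel_right] at h1
  exact absurd h1 (not_le.2 (max_lt hc h))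

theorem na_eq_of_sub (na : IsNonarchimedean v) {x y : Ω} (h : v (x - y) < v x) : v y = v x := by
  have h1 : v (-(x - y)) < v x := by rwa [v.map_neg]
  have h2 := na_eq na h1
  have h3 : x + -(x - y) = y := by ring
  rwa [h3] at h2

theorem na_nat (na : IsNonarchimedean v) (n : ℕ) : v (n : Ω) ≤ 1 := by
  induction n with
  | zero => simp
  | succ n ih =>
    push_cast
    exact (na _ _).trans (max_le ih (by rw [v.map_one]))

theorem na_int (na : IsNonarchimedean v) (n : ℤ) : v (n : Ω) ≤ 1 := by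
  obtain ⟨m, rfl | rfl⟩ := n.eq_nat_or_neg
  · simpa using na_nat na m
  · simpa using na_nat na m

/-- integers prime to `p` are units -/
theorem na_coprime (na : IsNonarchimedean v) {p : ℕ} (hp : v (p : Ω) < 1) {n : ℤ}
    (h : IsCoprime n (p : ℤ)) : v (n : Ω) = 1 := by
  obtain ⟨a, b, hab⟩ := h
  refine le_antisymm (na_int na n) ?_
  by_contra hc
  push Not at hc
  have h1 : (1 : Ω) = (a : Ω) * (n : Ω) + (b : Ω) * (p : Ω) := by
    have := congrArg (Int.cast : ℤ → Ω) hab
    push_cast at this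
    exact this.symm
  have h2 : v (1 : Ω) < 1 := by
    rw [h1]
    refine (na _ _).trans_lt (max_lt ?_ ?_)
    · rw [v.map_mul]
      calc v (a : Ω) * v (n : Ω) ≤ 1 * v (n : Ω) :=
            mul_le_mul_of_nonneg_right (na_int na a) (v.nonneg _)
        _ < 1 := by rw [one_mul]; exact hc
    · rw [v.map_mul]
      calc v (b : Ω) * v (p : Ω) ≤ 1 * v (p : Ω) :=
            mul_le_mul_of_nonneg_right (na_int na b) (v.nonneg _)
        _ < 1 := by rw [one_mul]; exact hp
  rw [v.map_one] at h2
  exact lt_irrefl _ h2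

theorem na_prod_le {ι : Type*} (s : Finset ι) (f : ι → Ω) (h : ∀ i ∈ s, v (f i) ≤ 1) :
    v (∏ i ∈ s, f i) ≤ 1 := by
  rw [map_prod]
  exact Finset.prod_le_one (fun i _ => v.nonneg _) h

end na

section red
variable {Ω k : Type} [Field Ω] [Field k] {v : AbsoluteValue Ω ℝ} {r : Ω → k}

theorem Red.zero (hr : Red v r) : r 0 = 0 := (hr.ker 0 (by simp)).2 (by simp)

theorem Red.neg (hr : Red v r) {x : Ω} (hx : v x ≤ 1) : r (-x) = - r x := by
  have h1 := hr.add x (-x) hx (by rwa [v.map_neg])
  rw [add_neg_cancel, hr.zero] at h1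
  exact (neg_eq_of_add_eq_zero_right h1.symm).symm

theorem Red.sub (hr : Red v r) {x y : Ω} (hx : v x ≤ 1) (hy : v y ≤ 1) : r (x - y) = r x - r y := by
  rw [sub_eq_add_neg, hr.add x (-y) hx (by rwa [v.map_neg]), hr.neg hy, sub_eq_add_neg]

theorem Red.pow (hr : Red v r) {x : Ω} (hx : v x ≤ 1) (n : ℕ) : r (x ^ n) = r x ^ n := by
  induction n with
  | zero => simp [hr.one]
  | succ n ih =>
    rw [pow_succ, pow_succ, hr.mul _ _ (by rw [v.map_pow]; exact pow_le_one₀ (v.nonneg _) hx) hx, ih]

theorem Red.sum (hr : Red v r) {ι : Type*} (s : Finset ι) (f : ι → Ω) (h : ∀ i ∈ s, v (f i) ≤ 1) :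
    r (∑ i ∈ s, f i) = ∑ i ∈ s, r (f i) := by
  classical
  induction s using Finset.induction_on with
  | empty => simp [hr.zero]
  | insert a s ha ih =>
    have h' : ∀ i ∈ s, v (f i) ≤ 1 := fun i hi => h i (Finset.mem_insert_of_mem hi)
    rw [Finset.sum_insert ha, Finset.sum_insert ha, hr.add _ _ (h a (Finset.mem_insert_self _ _))
      (na_sum hr.na _ _ _ zero_le_one h'), ih h']

theorem Red.prod (hr : Red v r) {ι : Type*} (s : Finset ι) (f : ι → Ω)
    (h : ∀ i ∈ s, v (f i) ≤ 1) : r (∏ i ∈ s, f i) = ∏ i ∈ s, r (f i) := by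
  classical
  induction s using Finset.induction_on with
  | empty => simp [hr.one]
  | insert a s ha ih =>
    have h' : ∀ i ∈ s, v (f i) ≤ 1 := fun i hi => h i (Finset.mem_insert_of_mem hi)
    rw [Finset.prod_insert ha, Finset.prod_insert ha, hr.mul _ _ (h a (Finset.mem_insert_self _ _))
      (na_prod_le _ _ h'), ih h']

theorem Red.nat (hr : Red v r) (n : ℕ) : r (n : Ω) = (n : k) := by
  induction n with
  | zero => simp [hr.zero]
  | succ n ih =>
    push_cast
    rw [hr.add _ _ (na_nat hr.na n) (by rw [v.map_one]), ih, hr.one]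

theorem Red.int (hr : Red v r) (n : ℤ) : r (n : Ω) = (n : k) := by
  obtain ⟨m, rfl | rfl⟩ := n.eq_nat_or_neg
  · simpa using hr.nat m
  · have := hr.neg (x := (m : Ω)) (na_nat hr.na m)
    push_cast
    rw [this, hr.nat]

theorem Red.eq_iff (hr : Red v r) {x y : Ω} (hx : v x ≤ 1) (hy : v y ≤ 1) :
    r x = r y ↔ v (x - y) < 1 := by
  rw [← hr.ker (x - y) ((na_sub hr.na x y).trans (max_le hx hy)), hr.sub hx hy, sub_eq_zero]

theorem Red.charP (hr : Red v r) {p : ℕ} (hp : p.Prime) (hvp : v (p : Ω) < 1) : CharP k p := by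
  have h0 : (p : k) = 0 := by
    rw [← hr.nat]
    exact (hr.ker _ (na_nat hr.na p)).2 hvp
  exact (CharP.charP_iff_prime_eq_zero hp).2 h0

/-- composition with a ring homomorphism -/
theorem Red.comp {Ω' : Type} [Field Ω'] (hr : Red v r) (σ : Ω' →+* Ω) :
    Red (v.comp σ.injective) (fun x => r (σ x)) where
  na := fun x y => by
    have := hr.na (σ x) (σ y)
    rw [← map_add] at this
    exact this
  one := by rw [map_one]; exact hr.one
  add := fun x y hx hy => by rw [map_add]; exact hr.add _ _ hx hy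
  mul := fun x y hx hy => by rw [map_mul]; exact hr.mul _ _ hx hy
  ker := fun x hx => hr.ker _ hx

variable {σ : Type}

theorem rdP_coeff (hr : Red v r) (q : MvPolynomial σ Ω) (t : σ →₀ ℕ) :
    (rdP r q).coeff t = r (q.coeff t) := by
  classical
  unfold rdP
  rw [coeff_sum]
  simp only [coeff_monomial]
  rw [Finset.sum_ite_eq' q.support t (fun t => r (q.coeff t))]
  split_ifs with h
  · rfl
  · rw [notMem_support_iff.1 h, hr.zero]

theorem rdT_coeff (hr : Red v r) (e : ℕ) (q : MvPolynomial σ Ω) (t : σ →₀ ℕ) :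
    (rdT r e q).coeff t = if t.degree = e then r (q.coeff t) else 0 := by
  classical
  unfold rdT
  rw [coeff_sum]
  simp only [coeff_monomial]
  rw [Finset.sum_ite_eq' (q.support.filter _) t (fun t => r (q.coeff t))]
  by_cases h : t.degree = e
  · rw [if_pos h]
    split_ifs with h'
    · rfl
    · rw [Finset.mem_filter, not_and_or] at h'
      rcases h' with h' | h'
      · rw [notMem_support_iff.1 h', hr.zero]
      · exact absurd h h'
  · rw [if_neg h]
    have h2 : t ∉ q.support.filter (fun t => t.degree = e) := fun h' =>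
      h (Finset.mem_filter.1 h').2
    exact if_neg h2

theorem rdP_deg (r : Ω → k) (q : MvPolynomial σ Ω) : (rdP r q).totalDegree ≤ q.totalDegree := by
  classical
  unfold rdP
  refine (totalDegree_finset_sum _ _).trans (Finset.sup_le fun t ht => ?_)
  refine (totalDegree_monomial_le _ _).trans ?_
  exact le_totalDegree ht

theorem rdT_deg (r : Ω → k) (e : ℕ) (q : MvPolynomial σ Ω) : (rdT r e q).totalDegree ≤ e := by
  classical
  unfold rdT
  refine (totalDegree_finset_sum _ _).trans (Finset.sup_le fun t ht => ?_)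
  refine (totalDegree_monomial_le _ _).trans ?_
  exact (Finset.mem_filter.1 ht).2.le

/-- reduction of the value of an integral polynomial at an integral point -/
theorem rdP_eval (hr : Red v r) (q : MvPolynomial σ Ω) (hq : ∀ t, v (q.coeff t) ≤ 1) (x : σ → Ω)
    (hx : ∀ i, v (x i) ≤ 1) : v (eval x q) ≤ 1 ∧ r (eval x q) = eval (fun i => r (x i)) (rdP r q) := by
  classical
  have hm : ∀ t : σ →₀ ℕ, v (t.prod fun i e => x i ^ e) ≤ 1 := by
    intro t
    refine na_prod_le _ _ fun i _ => ?_
    rw [v.map_pow]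
    exact pow_le_one₀ (v.nonneg _) (hx i)
  have hterm : ∀ t, v (q.coeff t * t.prod fun i e => x i ^ e) ≤ 1 := fun t => by
    rw [v.map_mul]
    exact mul_le_one₀ (hq t) (v.nonneg _) (hm t)
  have he : eval x q = ∑ t ∈ q.support, q.coeff t * t.prod fun i e => x i ^ e := by
    rw [eval_eq]
    rfl
  refine ⟨?_, ?_⟩
  · rw [he]
    exact na_sum hr.na _ _ _ zero_le_one fun t _ => hterm t
  · rw [he, hr.sum _ _ fun t _ => hterm t]
    unfold rdP
    rw [map_sum]
    refine Finset.sum_congr rfl fun t _ => ?_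
    rw [hr.mul _ _ (hq t) (hm t), eval_monomial]
    congr 1
    unfold Finsupp.prod
    rw [hr.prod _ _ fun i _ => by
      rw [v.map_pow]
      exact pow_le_one₀ (v.nonneg _) (hx i)]
    exact Finset.prod_congr rfl fun i _ => hr.pow (hx i) _

/-- homogeneous rescaling: `s0^(-e) q(s0 x)` for a polynomial of degree at most `e` and `v s0 > 1` -/
theorem rdT_eval (hr : Red v r) (q : MvPolynomial σ Ω) (hq : ∀ t, v (q.coeff t) ≤ 1) (e : ℕ)
    (he : q.totalDegree ≤ e) (s0 : Ω) (hs0 : 1 < v s0) (x : σ → Ω) (hx : ∀ i, v (x i) ≤ 1) :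
    v ((s0 ^ e)⁻¹ * eval (fun i => s0 * x i) q) ≤ 1 ∧
      r ((s0 ^ e)⁻¹ * eval (fun i => s0 * x i) q) = eval (fun i => r (x i)) (rdT r e q) := by
  classical
  have hs00 : s0 ≠ 0 := by
    rintro rfl
    rw [v.map_zero] at hs0
    linarith
  have hm : ∀ t : σ →₀ ℕ, v (t.prod fun i e => x i ^ e) ≤ 1 := by
    intro t
    refine na_prod_le _ _ fun i _ => ?_
    rw [v.map_pow]
    exact pow_le_one₀ (v.nonneg _) (hx i)
  have hterm1 : ∀ t ∈ q.support, (s0 ^ e)⁻¹ * (q.coeff t * t.prod fun i e => (s0 * x i) ^ e) =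
      (s0 ^ (e - t.degree))⁻¹ * (q.coeff t * t.prod fun i e => x i ^ e) := by
    intro t ht
    have hd : t.degree ≤ e := (le_totalDegree ht).trans he
    have h1 : (t.prod fun i e => (s0 * x i) ^ e) = s0 ^ t.degree * t.prod fun i e => x i ^ e := by
      unfold Finsupp.prod Finsupp.degree
      simp only [mul_pow, Finset.prod_mul_distrib]
      congr 1
      exact Finset.prod_pow_eq_pow_sum _ _ _
    have h2 : s0 ^ e = s0 ^ (e - t.degree) * s0 ^ t.degree := by
      rw [← pow_add]; congr 1; omega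
    rw [h1, h2]
    field_simp
  have hinv : ∀ j : ℕ, v ((s0 ^ j)⁻¹) ≤ 1 := by
    intro j
    rw [map_inv₀, v.map_pow]
    exact inv_le_one_of_one_le₀ (one_le_pow₀ hs0.le)
  have hcm : ∀ t, v (q.coeff t * t.prod fun i e => x i ^ e) ≤ 1 := fun t => by
    rw [v.map_mul]
    exact mul_le_one₀ (hq t) (v.nonneg _) (hm t)
  have hterm : ∀ t, v ((s0 ^ (e - t.degree))⁻¹ * (q.coeff t * t.prod fun i e => x i ^ e)) ≤ 1 :=
    fun t => by
      rw [v.map_mul]
      exact mul_le_one₀ (hinv _) (v.nonneg _) (hcm t)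
  have hE : (s0 ^ e)⁻¹ * eval (fun i => s0 * x i) q =
      ∑ t ∈ q.support, (s0 ^ (e - t.degree))⁻¹ * (q.coeff t * t.prod fun i e => x i ^ e) := by
    rw [eval_eq, Finset.mul_sum]
    exact Finset.sum_congr rfl fun t ht => hterm1 t ht
  refine ⟨?_, ?_⟩
  · rw [hE]
    exact na_sum hr.na _ _ _ zero_le_one fun t _ => hterm t
  · rw [hE, hr.sum _ _ fun t _ => hterm t]
    unfold rdT
    rw [map_sum, Finset.sum_filter]
    refine Finset.sum_congr rfl fun t ht => ?_
    have hd : t.degree ≤ e := (le_totalDegree ht).trans he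
    split_ifs with h
    · rw [h, Nat.sub_self, pow_zero, inv_one, one_mul, hr.mul _ _ (hq t) (hm t), eval_monomial]
      congr 1
      unfold Finsupp.prod
      rw [hr.prod _ _ fun i _ => by
        rw [v.map_pow]
        exact pow_le_one₀ (v.nonneg _) (hx i)]
      exact Finset.prod_congr rfl fun i _ => hr.pow (hx i) _
    · rw [hr.mul _ _ (hinv _) (hcm t)]
      have : r ((s0 ^ (e - t.degree))⁻¹) = 0 := by
        rw [hr.ker _ (hinv _), map_inv₀, v.map_pow]
        exact inv_lt_one_of_one_lt₀ (one_lt_pow₀ hs0 (by omega))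
      rw [this, zero_mul]

end red

end PKD
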