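import Pool.Agent.PKD.Targets
import Pool.Agent.PKD.RedLem
import Pool.Agent.RD.SYM

/-!
# Additivity of the local parameter, error of degree 5
-/

set_option autoImplicit false

namespace PKD

open RD

namespace ADD_

theorem eqn {K : Type} [Field K] {a2 a4 a6 x y : K} (h : (curve a2 a4 a6).Nonsingular x y) :
    y ^ 2 = ff a2 a4 a6 x := by
  have h1 := (WeierstrassCurve.Affine.equation_iff x y).1 h.1
  simp only [zero_mul, add_zero] at h1
  rw [h1]
  rfl

theorem bound {K : Type} [Field K] {v : AbsoluteValue K ℝ} {R : ℝ} (a b : K) :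
    0 ≤ R ^ 2 * (max (v a) (v b)) ^ 5 := by
  have h1 : 0 ≤ max (v a) (v b) := le_trans (v.nonneg a) (le_max_left _ _)
  exact mul_nonneg (sq_nonneg R) (pow_nonneg h1 5)

end ADD_

open ADD_ in
theorem p_ADD (h2 : T_EST) : T_ADD := by
  intro K _ _ p v R a4 a6 hctx P Q hP hQ
  have z0 : zz (0 : (curve 0 a4 a6).Point) = 0 := rfl
  rcases P with _ | ⟨x1, y1, n1⟩
  · change InE v R (0 + Q) ∧ v (zz (0 + Q) - zz (0 : (curve 0 a4 a6).Point) - zz Q) ≤
      R ^ 2 * (max (v (zz (0 : (curve 0 a4 a6).Point))) (v (zz Q))) ^ 5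
    rw [zero_add]
    refine ⟨hQ, ?_⟩
    rw [z0]
    have e : zz Q - 0 - zz Q = 0 := by ring
    rw [e, map_zero]
    have := bound (v := v) (R := R) (0 : K) (zz Q)
    rwa [map_zero] at this
  rcases Q with _ | ⟨x2, y2, n2⟩
  · change InE v R (WeierstrassCurve.Affine.Point.some x1 y1 n1 + 0) ∧
      v (zz (WeierstrassCurve.Affine.Point.some x1 y1 n1 + 0) -
        zz (WeierstrassCurve.Affine.Point.some x1 y1 n1) - zz (0 : (curve 0 a4 a6).Point)) ≤
      R ^ 2 * (max (v (zz (WeierstrassCurve.Affine.Point.some x1 y1 n1)))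
        (v (zz (0 : (curve 0 a4 a6).Point)))) ^ 5
    rw [add_zero]
    refine ⟨hP, ?_⟩
    have e : zz (WeierstrassCurve.Affine.Point.some x1 y1 n1) -
      zz (WeierstrassCurve.Affine.Point.some x1 y1 n1) - zz (0 : (curve 0 a4 a6).Point) = 0 := by
      rw [z0]; ring
    rw [e, map_zero]
    exact bound _ _
  by_cases hneg : x1 = x2 ∧ y1 = -y2
  · have hs : WeierstrassCurve.Affine.Point.some x1 y1 n1 +
        WeierstrassCurve.Affine.Point.some x2 y2 n2 = 0 := by
      refine WeierstrassCurve.Affine.Point.add_of_Y_eq hneg.1 ?_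
      rw [hneg.2]
      simp [WeierstrassCurve.Affine.negY]
    rw [hs]
    refine ⟨trivial, ?_⟩
    have e : zz (0 : (curve 0 a4 a6).Point) - zz (WeierstrassCurve.Affine.Point.some x1 y1 n1) -
        zz (WeierstrassCurve.Affine.Point.some x2 y2 n2) = 0 := by
      rw [z0]
      show 0 - x1 / y1 - x2 / y2 = 0
      rw [hneg.1, hneg.2, div_neg]
      ring
    rw [e, map_zero]
    exact bound _ _
  · obtain ⟨l, n, x3, y3, n3, hs, e1, e2, e3, s1, s2, s3⟩ :=
      (RD.p_SYM : RD.T_SYM.{0}) K 0 a4 a6 x1 y1 x2 y2 n1 n2 hneg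
    rw [hs]
    rw [sub_zero] at s1
    exact h2 K p v R a4 a6 hctx l n x1 x2 x3 y1 y2 y3 hP hQ e1 e2 e3 s1 s2 s3
      (eqn n1) (eqn n2) (eqn n3)

end PKD
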