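import Pool.Agent.PKD.Targets
import Pool.Agent.PKD.RedLem

set_option autoImplicit false

/-!
ALM: an algebraic number is integral at almost all places
-/

namespace PKD

theorem p_ALM : T_ALM := by
  intro Ω _ _ _ z
  have hz : IsAlgebraic ℤ z :=
    (IsFractionRing.isAlgebraic_iff ℤ ℚ Ω).mpr (Algebra.IsAlgebraic.isAlgebraic z)
  obtain ⟨P, hP0, hP⟩ := hz
  have hlc : P.leadingCoeff ≠ 0 := Polynomial.leadingCoeff_ne_zero.mpr hP0
  refine ⟨P.leadingCoeff.natAbs + 1, ?_⟩
  intro p hp0 hp v na hvp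
  have hcop : IsCoprime P.leadingCoeff (p : ℤ) := by
    rw [Int.isCoprime_iff_gcd_eq_one, Int.gcd_comm]
    have h1 : ¬ p ∣ P.leadingCoeff.natAbs := by
      intro hd
      have := Nat.le_of_dvd (Int.natAbs_pos.mpr hlc) hd
      omega
    have h2 : Nat.Coprime p P.leadingCoeff.natAbs := (Nat.Prime.coprime_iff_not_dvd hp).mpr h1
    unfold Int.gcd
    rw [Int.natAbs_natCast]
    exact h2
  have hv1 : v (P.leadingCoeff : Ω) = 1 := na_coprime na hvp hcop
  by_contra hc
  push Not at hc
  rw [Polynomial.aeval_eq_sum_range, Finset.sum_range_succ] at hP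
  have hterm : ∀ i ∈ Finset.range P.natDegree,
      v (P.coeff i • z ^ i) < v z ^ P.natDegree := by
    intro i hi
    rw [zsmul_eq_mul, v.map_mul, v.map_pow]
    calc v (P.coeff i : Ω) * v z ^ i ≤ 1 * v z ^ i :=
          mul_le_mul_of_nonneg_right (na_int na _) (pow_nonneg (v.nonneg _) _)
      _ = v z ^ i := one_mul _
      _ < v z ^ P.natDegree := pow_lt_pow_right₀ hc (Finset.mem_range.mp hi)
  have hs := na_sum_lt na (Finset.range P.natDegree) (fun i => P.coeff i • z ^ i)
    (v z ^ P.natDegree) (pow_pos (by linarith) _) hterm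
  have htop : v (P.coeff P.natDegree • z ^ P.natDegree) = v z ^ P.natDegree := by
    rw [zsmul_eq_mul, v.map_mul, v.map_pow, Polynomial.coeff_natDegree, hv1, one_mul]
  have h3 : P.coeff P.natDegree • z ^ P.natDegree =
      - ∑ i ∈ Finset.range P.natDegree, P.coeff i • z ^ i := by
    linear_combination hP
  rw [h3, v.map_neg] at htop
  exact absurd htop (ne_of_lt hs)

end PKD
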