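import Mathlib
import Pool.Agent.PKD.Defs

/-!
Targets of project PKD. Each job proves one of them in its own file `Pool/Agent/PKD/<NAME>.lean` as
`theorem p_<NAME> (hypotheses...) : T_<NAME>`. Proofs: `Pool/Agent/PKD/Blueprint.lean.txt`.
-/

set_option autoImplicit false

namespace PKD

open MvPolynomial RD WeierstrassCurve.Affine Filter

/-! ### Block 1: local theory in residue characteristic at least 5 -/

/-- EST: the key estimate, pure field arithmetic -/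
def T_EST : Prop := ∀ (K : Type) [Field K] (p : ℕ) (v : AbsoluteValue K ℝ) (R : ℝ) (a4 a6 : K),
  Cx p v R a4 a6 → ∀ (l n x1 x2 x3 y1 y2 y3 : K), R < v x1 → R < v x2 →
    y1 = l * x1 + n → y2 = l * x2 + n → y3 = - (l * x3 + n) →
    x1 + x2 + x3 = l ^ 2 → x1 * x2 + x1 * x3 + x2 * x3 = a4 - 2 * l * n →
    x1 * x2 * x3 = n ^ 2 - a6 →
    y1 ^ 2 = ff 0 a4 a6 x1 → y2 ^ 2 = ff 0 a4 a6 x2 → y3 ^ 2 = ff 0 a4 a6 x3 →
    R < v x3 ∧ v (x3 / y3 - x1 / y1 - x2 / y2) ≤ R ^ 2 * (max (v (x1 / y1)) (v (x2 / y2))) ^ 5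

/-- ADD (from RD.T_SYM, T_EST): additivity of the local parameter with error of degree 5 -/
def T_ADD : Prop := ∀ (K : Type) [Field K] [DecidableEq K] (p : ℕ) (v : AbsoluteValue K ℝ) (R : ℝ)
  (a4 a6 : K), Cx p v R a4 a6 → ∀ (P Q : (curve 0 a4 a6).Point), InE v R P → InE v R Q →
    InE v R (P + Q) ∧
      v (zz (P + Q) - zz P - zz Q) ≤ R ^ 2 * (max (v (zz P)) (v (zz Q))) ^ 5

/-- NSM (from T_ADD): multiplication by integers; the third part needs the point to be close to 0 -/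
def T_NSM : Prop := ∀ (K : Type) [Field K] [CharZero K] [DecidableEq K] (p : ℕ)
  (v : AbsoluteValue K ℝ) (R : ℝ) (a4 a6 : K), Cx p v R a4 a6 → ∀ (P : (curve 0 a4 a6).Point),
    InE v R P →
    (∀ n : ℕ, InE v R (n • P)) ∧
    (∀ n : ℤ, InE v R (n • P) ∧ v (zz (n • P) - (n : K) * zz P) ≤ R ^ 2 * v (zz P) ^ 5) ∧
    (R ^ 2 * v (zz P) ^ 4 < v (p : K) → ∀ n : ℕ, n ≠ 0 → P ≠ 0 →
      v (zz (n • P) - (n : K) * zz P) < v (n : K) * v (zz P))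

/-- SUM (from T_ADD): finite sums -/
def T_SUM : Prop := ∀ (K : Type) [Field K] [DecidableEq K] (p : ℕ) (v : AbsoluteValue K ℝ) (R : ℝ)
  (a4 a6 : K), Cx p v R a4 a6 → ∀ (ι : Type) (S : Finset ι)
    (Q : ι → (curve 0 a4 a6).Point) (μ : ℝ), 0 ≤ μ →
    (∀ i ∈ S, InE v R (Q i) ∧ v (zz (Q i)) ≤ μ) →
    R * μ ^ 2 ≤ 1 →
    InE v R (∑ i ∈ S, Q i) ∧ v (zz (∑ i ∈ S, Q i)) ≤ μ ∧
      v (zz (∑ i ∈ S, Q i) - ∑ i ∈ S, zz (Q i)) ≤ R ^ 2 * μ ^ 5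

/-- END (from T_NSM): the multiplier of an algebraic endomorphism does not depend on `v` -/
def T_END : Prop := ∀ (K : Type) [Field K] [CharZero K] [DecidableEq K] (a4 a6 : K)
  (ω : (curve 0 a4 a6).Point →+ (curve 0 a4 a6).Point), IsAlgEndo (curve 0 a4 a6) ω →
  ∃ a : K, ∀ (p : ℕ) (v : AbsoluteValue K ℝ) (R : ℝ), Cx p v R a4 a6 →
    (∃ P : (curve 0 a4 a6).Point, P ≠ 0 ∧ InE v R P ∧ R ^ 2 * v (zz P) ^ 4 < v (p : K)) →
    a ≠ 0 ∧ ∃ (B C : ℝ), R ≤ B ∧ 0 ≤ C ∧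
      ∀ P : (curve 0 a4 a6).Point, P ≠ 0 → InE v B P →
        InE v R (ω P) ∧ ω P ≠ 0 ∧ v (zz (ω P) - a * zz P) ≤ C * v (zz P) ^ 3

/-- QUA (from T_NSM, T_ADD): the multiplier satisfies the quadratic equation -/
def T_QUA : Prop := ∀ (K : Type) [Field K] [CharZero K] [DecidableEq K] (p : ℕ)
  (v : AbsoluteValue K ℝ) (R : ℝ) (a4 a6 : K), Cx p v R a4 a6 →
  ∀ (ω : (curve 0 a4 a6).Point →+ (curve 0 a4 a6).Point) (t n : ℤ),
    (∀ Q, ω (ω Q) = t • ω Q - n • Q) →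
    (∃ P : (curve 0 a4 a6).Point, P ≠ 0 ∧ InE v R P ∧ R ^ 2 * v (zz P) ^ 4 < v (p : K)) →
    ∀ (a : K) (B C : ℝ), a ≠ 0 → R ≤ B → 0 ≤ C →
      (∀ P : (curve 0 a4 a6).Point, P ≠ 0 → InE v B P →
        InE v R (ω P) ∧ ω P ≠ 0 ∧ v (zz (ω P) - a * zz P) ≤ C * v (zz P) ^ 3) →
      a ^ 2 = t * a - n

/-- LEM (from T_NSM, T_SUM): a relation over ℤ[ω] gives an inequality between the parameters -/
def T_LEM : Prop := ∀ (K : Type) [Field K] [CharZero K] [DecidableEq K] (p : ℕ)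
  (v : AbsoluteValue K ℝ) (R : ℝ) (a4 a6 : K), Cx p v R a4 a6 →
  ∀ (ω : (curve 0 a4 a6).Point →+ (curve 0 a4 a6).Point) (a : K) (B C : ℝ), R ≤ B → 0 ≤ C →
    (∀ P : (curve 0 a4 a6).Point, P ≠ 0 → InE v B P →
        InE v R (ω P) ∧ v (zz (ω P) - a * zz P) ≤ C * v (zz P) ^ 3) →
  ∀ (g : ℕ) (P : Fin g → (curve 0 a4 a6).Point) (S : Finset (Fin g)) (M N : Fin g → ℤ)
    (μ Θ : ℝ), 0 < μ → 0 < Θ → R ^ 2 * μ ^ 4 < v (p : K) →
    (∀ i ∈ S, InE v R (P i) ∧ v (zz (P i)) ≤ μ) →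
    (∀ i ∈ S, v ((M i : K) + (N i : K) * a) ≤ Θ) →
    IsOfFinAddOrder (∑ i ∈ S, (M i • P i + N i • ω (P i))) →
    v (∑ i ∈ S, ((M i : K) + (N i : K) * a) * zz (P i)) < Θ * μ

/-- REL (from T_LEM, T_END, T_QUA, RD.T_CNJ, RD.T_ZLI, RD.T_QFD): the relations as a subspace `U`
of `F ^ g`, `F` the field generated by the multiplier `a`, the same for all absolute values. -/
def T_REL : Prop := ∀ (K : Type) [Field K] [CharZero K] [DecidableEq K] (a4 a6 : K) (g e : ℕ)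
  (P : Fin g → (curve 0 a4 a6).Point),
  (IntRel (curve 0 a4 a6) e P ∨ CMRel (curve 0 a4 a6) e P) →
  ∃ (a : K) (t n : ℤ), a ^ 2 = t * a - n ∧
  ∃ U : Submodule (IntermediateField.adjoin ℚ {a}) (Fin g → IntermediateField.adjoin ℚ {a}),
    Module.finrank (IntermediateField.adjoin ℚ {a}) U = e ∧
    ∀ (p : ℕ) (v : AbsoluteValue K ℝ) (R : ℝ), Cx p v R a4 a6 →
    ∀ (D : Finset (Fin g)) (μ : ℝ), 0 < μ → R ^ 2 * μ ^ 4 < v (p : K) →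
      (∀ i, i ∉ D → InE v R (P i) ∧ v (zz (P i)) ≤ μ) →
      ∀ τ ∈ U, (∀ i ∈ D, τ i = 0) → (∀ i, v (τ i : K) ≤ 1) →
        v (∑ i ∈ Dᶜ, (τ i : K) * zz (P i)) < μ

/-! ### Block 2: residues -/

/-- RES: integral elements of a quadratic field have residues in the field with p^2 elements -/
def T_RES : Prop := ∀ (Ω k : Type) [Field Ω] [CharZero Ω] [Field k] (p : ℕ)
  (v : AbsoluteValue Ω ℝ) (r : Ω → k), Red v r → p.Prime → v (p : Ω) < 1 →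
  ∀ (a w : Ω) (t n q r' s : ℤ), a ^ 2 = t * a - n → q ≠ 0 →
    (q : Ω) * w = r' + s * a → v w ≤ 1 → (r w) ^ (p ^ 2) = r w

/-- GRP (from RD.T_PIV, RD.T_DIM, RD.T_QFD, T_RES): pigeonhole over the embeddings, and a pivot
basis whose residues are the same for all the embeddings of the group -/
def T_GRP : Prop := ∀ (Ω k : Type) [Field Ω] [CharZero Ω] [Field k] (p : ℕ)
  (v : AbsoluteValue Ω ℝ) (r : Ω → k), Red v r → p.Prime → v (p : Ω) < 1 →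
  ∀ (N g e q : ℕ) (σ : Fin N → Ω →+* Ω), 2 ^ (g + 1) * q < N →
  ∀ (a : Ω) (t n : ℤ), a ^ 2 = t * a - n →
  ∀ U : Submodule (IntermediateField.adjoin ℚ {a}) (Fin g → IntermediateField.adjoin ℚ {a}),
    Module.finrank (IntermediateField.adjoin ℚ {a}) U = e →
  ∀ S : Fin N → Finset (Fin g),
    ∃ (G : Finset (Fin N)) (S0 J : Finset (Fin g))
      (τ : Fin g → Fin g → IntermediateField.adjoin ℚ {a}) (τ' : Fin g → Fin g → k),
      G.card = q + 1 ∧ (∀ j ∈ G, S j = S0) ∧ Disjoint J S0 ∧ e ≤ J.card + S0.card ∧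
      (∀ i i', τ' i i' ^ (p ^ 2) = τ' i i') ∧
      ∀ i ∈ J, τ i ∈ U ∧ τ i i = 1 ∧ (∀ i' ∈ J, i' ≠ i → τ i i' = 0) ∧
        (∀ i' ∈ S0, τ i i' = 0) ∧
        ∀ j ∈ G, ∀ i', v (σ j (τ i i' : Ω)) ≤ 1 ∧ r (σ j (τ i i' : Ω)) = τ' i i'

/-- PLC: everything at one place: from a point of the base over `Ω` to the residue field -/
def T_PLC : Prop := ∀ (Ω k : Type) [Field Ω] [CharZero Ω] [IsAlgClosed Ω] [DecidableEq Ω] [Field k]
  (p : ℕ) (v : AbsoluteValue Ω ℝ) (r : Ω → k), Red v r → p.Prime → 5 ≤ p → v (p : Ω) < 1 →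
  ∀ (d n m D g : ℕ), m ≤ D → ∀ (ρ : Fin n → ℕ) (b : Fin n → ℕ → MvPolynomial (Fin d) Ω),
    (∀ j l, l < ρ j → (b j l).totalDegree ≤ ρ j - l ∧ ∀ t, v ((b j l).coeff t) ≤ 1) →
  ∀ (A B : MvPolynomial (Fin d ⊕ Fin n) Ω),
    (∀ t, v (A.coeff t) ≤ 1 ∧ v (B.coeff t) ≤ 1) →
    A.totalDegree ≤ 2 * m → B.totalDegree ≤ 3 * m →
  ∀ (β : Ω) (c : Fin g × MonS d n D → Ω), v β = v (p : Ω) → (∀ u, v (β * c u) ≤ 1) →
  ∀ (x : Fin d → Ω) (s : Fin n → Ω), OnBase ρ b x s →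
  ∀ P : Fin g → (curve 0 (eval (Sum.elim x s) A) (eval (Sum.elim x s) B)).Point,
    (∀ i, ∃ y h, P i = WeierstrassCurve.Affine.Point.some (fval D c x s i) y h) →
  ∃ (R μ : ℝ) (S : Finset (Fin g)) (ty : Option (Fin d)) (x' : Fin d → k) (s' : Fin n → k)
    (h : Fin g → k),
    Cx p v R (eval (Sum.elim x s) A) (eval (Sum.elim x s) B) ∧ 0 < μ ∧
    R ^ 2 * μ ^ 4 < v (p : Ω) ∧ (∀ i, i ∉ S → InE v R (P i) ∧ v (zz (P i)) ≤ μ) ∧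
    OnBase ρ (bty r ρ b ty) x' s' ∧ eval (Sum.elim x' s') (uty k ty (al0 D ty)) ≠ 0 ∧
    (∀ i ∈ S, ∑ α : MonS d n D, r (β * c (i, α)) * eval (Sum.elim x' s') (uty k ty α) = 0) ∧
    (∀ i, i ∉ S →
      h i ^ 2 * ∑ α : MonS d n D, r (β * c (i, α)) * eval (Sum.elim x' s') (uty k ty α) = 1) ∧
    ∀ τ : Fin g → Ω, (∀ i, v (τ i) ≤ 1) → v (∑ i ∈ Sᶜ, τ i * zz (P i)) < μ →
      ∑ i ∈ Sᶜ, r (τ i) * h i = 0

/-- PLCM: the case of integral points of T_PLC (type `none`) -/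
def T_PLCM : Prop := ∀ (Ω k : Type) [Field Ω] [CharZero Ω] [IsAlgClosed Ω] [DecidableEq Ω]
  [Field k] (p : ℕ) (v : AbsoluteValue Ω ℝ) (r : Ω → k), Red v r → p.Prime → 5 ≤ p →
  v (p : Ω) < 1 →
  ∀ (d n D g : ℕ) (ρ : Fin n → ℕ) (b : Fin n → ℕ → MvPolynomial (Fin d) Ω),
    (∀ j l, l < ρ j → ∀ t, v ((b j l).coeff t) ≤ 1) →
  ∀ (A B : MvPolynomial (Fin d ⊕ Fin n) Ω),
    (∀ t, v (A.coeff t) ≤ 1 ∧ v (B.coeff t) ≤ 1) →
  ∀ (β : Ω) (c : Fin g × MonS d n D → Ω), v β = v (p : Ω) → (∀ u, v (β * c u) ≤ 1) →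
  ∀ (x : Fin d → Ω) (s : Fin n → Ω), OnBase ρ b x s → (∀ j, v (x j) ≤ 1) →
  ∀ P : Fin g → (curve 0 (eval (Sum.elim x s) A) (eval (Sum.elim x s) B)).Point,
    (∀ i, ∃ y h, P i = WeierstrassCurve.Affine.Point.some (fval D c x s i) y h) →
  ∃ (μ : ℝ) (S : Finset (Fin g)) (x' : Fin d → k) (s' : Fin n → k) (h : Fin g → k),
    Cx p v 1 (eval (Sum.elim x s) A) (eval (Sum.elim x s) B) ∧ 0 < μ ∧
    μ ^ 4 < v (p : Ω) ∧ (∀ i, i ∉ S → InE v 1 (P i) ∧ v (zz (P i)) ≤ μ) ∧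
    OnBase ρ (fun j l => rdP r (b j l)) x' s' ∧
    (∀ i ∈ S, ∑ α : MonS d n D, r (β * c (i, α)) * eval (Sum.elim x' s') (um k α) = 0) ∧
    (∀ i, i ∉ S →
      h i ^ 2 * ∑ α : MonS d n D, r (β * c (i, α)) * eval (Sum.elim x' s') (um k α) = 1) ∧
    ∀ τ : Fin g → Ω, (∀ i, v (τ i) ≤ 1) → v (∑ i ∈ Sᶜ, τ i * zz (P i)) < μ →
      ∑ i ∈ Sᶜ, r (τ i) * h i = 0

/-- PLCI: the case of T_PLC of the points which are not integral; `x m0` is a coordinate of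
maximal absolute value (type `some m0`) -/
def T_PLCI : Prop := ∀ (Ω k : Type) [Field Ω] [CharZero Ω] [IsAlgClosed Ω] [DecidableEq Ω]
  [Field k] (p : ℕ) (v : AbsoluteValue Ω ℝ) (r : Ω → k), Red v r → p.Prime → 5 ≤ p →
  v (p : Ω) < 1 →
  ∀ (d n m D g : ℕ), m ≤ D → ∀ (ρ : Fin n → ℕ) (b : Fin n → ℕ → MvPolynomial (Fin d) Ω),
    (∀ j l, l < ρ j → (b j l).totalDegree ≤ ρ j - l ∧ ∀ t, v ((b j l).coeff t) ≤ 1) →
  ∀ (A B : MvPolynomial (Fin d ⊕ Fin n) Ω),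
    (∀ t, v (A.coeff t) ≤ 1 ∧ v (B.coeff t) ≤ 1) →
    A.totalDegree ≤ 2 * m → B.totalDegree ≤ 3 * m →
  ∀ (β : Ω) (c : Fin g × MonS d n D → Ω), v β = v (p : Ω) → (∀ u, v (β * c u) ≤ 1) →
  ∀ (x : Fin d → Ω) (s : Fin n → Ω), OnBase ρ b x s →
  ∀ m0 : Fin d, 1 < v (x m0) → (∀ j, v (x j) ≤ v (x m0)) →
  ∀ P : Fin g → (curve 0 (eval (Sum.elim x s) A) (eval (Sum.elim x s) B)).Point,
    (∀ i, ∃ y h, P i = WeierstrassCurve.Affine.Point.some (fval D c x s i) y h) →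
  ∃ (R μ : ℝ) (S : Finset (Fin g)) (x' : Fin d → k) (s' : Fin n → k) (h : Fin g → k),
    x' m0 = 1 ∧
    Cx p v R (eval (Sum.elim x s) A) (eval (Sum.elim x s) B) ∧ 0 < μ ∧
    R ^ 2 * μ ^ 4 < v (p : Ω) ∧ (∀ i, i ∉ S → InE v R (P i) ∧ v (zz (P i)) ≤ μ) ∧
    OnBase ρ (fun j l => rdT r (ρ j - l) (b j l)) x' s' ∧
    (∀ i ∈ S, ∑ α : MonS d n D, r (β * c (i, α)) *
      eval (Sum.elim x' s') (if ∑ j, (α.1 j : ℕ) = D then um k α else 0) = 0) ∧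
    (∀ i, i ∉ S → h i ^ 2 * ∑ α : MonS d n D, r (β * c (i, α)) *
      eval (Sum.elim x' s') (if ∑ j, (α.1 j : ℕ) = D then um k α else 0) = 1) ∧
    ∀ τ : Fin g → Ω, (∀ i, v (τ i) ≤ 1) → v (∑ i ∈ Sᶜ, τ i * zz (P i)) < μ →
      ∑ i ∈ Sᶜ, r (τ i) * h i = 0

/-! ### Block 3: elimination with uniform degree and counting -/

/-- NFB: polynomial functions in free coordinates `x` and integral coordinates `s` -/
def T_NFB : Prop := ∀ (k Y A : Type) [Field k] [Fintype A] (n : ℕ) (ρ : Fin n → ℕ)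
  (x : Y → A → k) (s : Y → Fin n → k) (b : Fin n → ℕ → MvPolynomial A k),
  (∀ j l, l < ρ j → (b j l).totalDegree ≤ ρ j - l) →
  (∀ y j, s y j ^ ρ j + ∑ l ∈ Finset.range (ρ j), eval (x y) (b j l) * s y j ^ l = 0) →
  ∀ M : ℕ, ∃ W : Submodule k (Y → k), FiniteDimensional k W ∧
    Module.finrank k W ≤ (∏ j, ρ j) * (M + 1) ^ Fintype.card A ∧
    ∀ q : MvPolynomial (A ⊕ Fin n) k, q.totalDegree ≤ M →
      (fun y => eval (Sum.elim (x y) (s y)) q) ∈ W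

/-- ELI (from T_NFB): elimination, the degree does not depend on the field -/
def T_ELI : Prop := ∀ (d n D g : ℕ) (ρ : Fin n → ℕ) (ι : Type) [Fintype ι] [DecidableEq ι],
  ∃ L : ℕ, ∀ (k : Type) [Field k] (b : Fin n → ℕ → MvPolynomial (Fin d) k)
    (u : ι → MvPolynomial (Fin d ⊕ Fin n) k) (α0 : ι) (S J W : Finset (Fin g))
    (τ : Fin g → Fin g → k),
    (∀ j l, l < ρ j → (b j l).totalDegree ≤ ρ j - l) → (∀ α, (u α).totalDegree ≤ D) →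
    Disjoint S W → J ⊆ W → S.card + J.card = d + 1 →
    ∃ Φ : MvPolynomial (Fin g × ι) k, Φ ≠ 0 ∧ Φ.totalDegree ≤ L ∧
      ∀ c p s h, Sys ρ b u α0 S J W τ c p s h → eval c Φ = 0

/-- CNT: counting the common zeros of several conjugate hypersurfaces over the prime field -/
def T_CNT : Prop := ∀ (k : Type) [Field k] (p : ℕ) [Fact p.Prime] [CharP k p] (n : ℕ)
  (Θ : Matrix (Fin n) (Fin n) k), Θ.det ≠ 0 → ∀ (ι : Type) [Fintype ι] [DecidableEq ι]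
  (G : Finset (Fin n)) (Φ : Fin n → MvPolynomial ι k) (M : ℕ),
  (∀ j ∈ G, Φ j ≠ 0 ∧ (Φ j).totalDegree ≤ M) → G.card * M < p →
  Nat.card {a : ι → Fin n → ZMod p //
    ∀ j ∈ G, eval (fun u => ∑ l, Θ j l * ZMod.castHom (dvd_refl p) k (a u l)) (Φ j) = 0} *
      p ^ G.card ≤ M ^ G.card * p ^ (n * Fintype.card ι)

/-! ### Block 4: places of the algebraic numbers -/

/-- EXP: places above every prime -/
def T_EXP : Prop := ∀ (Ω : Type) [Field Ω] [CharZero Ω] [Algebra.IsAlgebraic ℚ Ω] (p : ℕ),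
  p.Prime → ∃ (v : AbsoluteValue Ω ℝ) (k : Type) (_ : Field k) (_ : CharP k p) (r : Ω → k),
    Red v r ∧ v (p : Ω) < 1

/-- ALM: an algebraic number is integral at almost all places -/
def T_ALM : Prop := ∀ (Ω : Type) [Field Ω] [CharZero Ω] [Algebra.IsAlgebraic ℚ Ω] (z : Ω),
  ∃ p0 : ℕ, ∀ p : ℕ, p0 ≤ p → p.Prime → ∀ v : AbsoluteValue Ω ℝ, IsNonarchimedean v →
    v (p : Ω) < 1 → v z ≤ 1

/-- EMB: the embeddings of a number field, extended to the algebraic closure -/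
def T_EMB : Prop := ∀ (K Ω : Type) [Field K] [NumberField K] [Field Ω] [IsAlgClosed Ω] [Algebra K Ω]
  [Algebra.IsAlgebraic K Ω], ∃ σ : Fin (Module.finrank ℚ K) → Ω →+* Ω,
  ∀ w : Module.Basis (Fin (Module.finrank ℚ K)) ℚ K,
    (Matrix.of fun (j l : Fin (Module.finrank ℚ K)) => σ j (algebraMap K Ω (w l))).det ≠ 0

/-! ### Block 5: assembly -/

/-- COR (from everything above): the arithmetic core -/
def T_COR : Prop := ∀ (K Ω : Type) [Field K] [NumberField K] [Field Ω] [CharZero Ω]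
  [IsAlgClosed Ω] [DecidableEq Ω] [Algebra K Ω] [Algebra.IsAlgebraic K Ω]
  (g d n m D : ℕ), m ≤ D → 2 ^ (g + 2) * g ^ 2 < Module.finrank ℚ K →
  ∀ (w : Module.Basis (Fin (Module.finrank ℚ K)) ℚ K) (ρ : Fin n → ℕ)
    (b : Fin n → ℕ → MvPolynomial (Fin d) Ω) (A B : MvPolynomial (Fin d ⊕ Fin n) Ω),
    (∀ j l, l < ρ j → (b j l).totalDegree ≤ ρ j - l) →
    A.totalDegree ≤ 2 * m → B.totalDegree ≤ 3 * m →
  ∃ C p0 : ℕ, ∀ p : ℕ, p0 ≤ p → p.Prime →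
    ∃ Bp : Finset ((Fin g × MonS d n D) → Fin (Module.finrank ℚ K) → ZMod p),
      Bp.card * p ≤ C * p ^ (Module.finrank ℚ K * Fintype.card (Fin g × MonS d n D)) ∧
      ∀ (β : ℕ) (a : (Fin g × MonS d n D) → Fin (Module.finrank ℚ K) → ℤ), p ∣ β → ¬ p ^ 2 ∣ β →
        BadAt D ρ b A B (fun u => algebraMap K Ω (∑ l, (a u l : ℚ) • w l) / (β : Ω)) →
        (fun u l => (a u l : ZMod p)) ∈ Bp

/-- SIV: the sieve -/
def T_SIV : Prop := ∀ (κ : Type) [Fintype κ] [DecidableEq κ] (C p0 : ℕ)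
  (Bp : (p : ℕ) → Finset (κ → ZMod p)) (Bad : ℕ → (κ → ℤ) → Prop),
  (∀ p : ℕ, p0 ≤ p → p.Prime → (Bp p).card * p ≤ C * p ^ Fintype.card κ) →
  (∀ p : ℕ, p0 ≤ p → p.Prime → ∀ (β : ℕ) (a : κ → ℤ), p ∣ β → ¬ p ^ 2 ∣ β → Bad β a →
    (fun i => (a i : ZMod p)) ∈ Bp p) →
  Tendsto (fun H : ℕ => (Nat.card {x : ℕ × (κ → ℤ) // 1 ≤ x.1 ∧ x.1 ≤ H ∧
    (∀ i, |x.2 i| ≤ (H : ℤ)) ∧ Bad x.1 x.2} : ℝ) / ((H : ℝ) * (2 * H + 1) ^ Fintype.card κ))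
    atTop (nhds 0)

/-- FIN (from T_COR, T_SIV): the theorem -/
def T_FIN : Prop := ∀ (K : Type) [Field K] [NumberField K] [DecidableEq (AlgebraicClosure K)]
  (g d n m D : ℕ), m ≤ D → 2 ^ (g + 2) * g ^ 2 < Module.finrank ℚ K →
  ∀ (w : Module.Basis (Fin (Module.finrank ℚ K)) ℚ K) (ρ : Fin n → ℕ)
    (b : Fin n → ℕ → MvPolynomial (Fin d) (AlgebraicClosure K))
    (A B : MvPolynomial (Fin d ⊕ Fin n) (AlgebraicClosure K)),
    (∀ j l, l < ρ j → (b j l).totalDegree ≤ ρ j - l) →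
    A.totalDegree ≤ 2 * m → B.totalDegree ≤ 3 * m →
  Tendsto (fun H : ℕ => (Nat.card {x : ℕ × ((Fin g × MonS d n D) → Fin (Module.finrank ℚ K) → ℤ) //
    1 ≤ x.1 ∧ x.1 ≤ H ∧ (∀ u l, |x.2 u l| ≤ (H : ℤ)) ∧
    BadAt D ρ b A B (fun u => algebraMap K (AlgebraicClosure K) (∑ l, (x.2 u l : ℚ) • w l) /
      (x.1 : AlgebraicClosure K))} : ℝ) /
      ((H : ℝ) * (2 * H + 1) ^ (Module.finrank ℚ K * Fintype.card (Fin g × MonS d n D))))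
    atTop (nhds 0)

end PKD
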