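import Mathlib
import Pool.Agent.PKD.Targets

/-!
# PKD, target CNT: common zeros of several conjugate hypersurfaces over the prime field
-/

set_option autoImplicit false
set_option maxHeartbeats 4000000

namespace PKD

open MvPolynomial RD

namespace CNT_

/-- a product of powers of linear polynomials -/
theorem lin_prod {k ι : Type} [Field k] (s : Finset ι) (x e : ι → k) (t : ι → ℕ) :
    (∏ u ∈ s, (Polynomial.C (x u) + Polynomial.X * Polynomial.C (e u)) ^ t u).natDegree ≤
      ∑ u ∈ s, t u ∧
    (∏ u ∈ s, (Polynomial.C (x u) + Polynomial.X * Polynomial.C (e u)) ^ t u).coeff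
      (∑ u ∈ s, t u) = ∏ u ∈ s, e u ^ t u := by
  classical
  induction s using Finset.induction_on with
  | empty => simp
  | insert a s ha ih =>
    have h1 : (Polynomial.C (x a) + Polynomial.X * Polynomial.C (e a)).natDegree ≤ 1 := by
      refine (Polynomial.natDegree_add_le _ _).trans (max_le ?_ ?_)
      · rw [Polynomial.natDegree_C]
        exact Nat.zero_le 1
      · refine (Polynomial.natDegree_mul_le).trans ?_
        rw [Polynomial.natDegree_C, add_zero]
        exact Polynomial.natDegree_X_le
    have h2 : ((Polynomial.C (x a) + Polynomial.X * Polynomial.C (e a)) ^ t a).natDegree ≤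
        t a := by
      refine (Polynomial.natDegree_pow_le).trans ?_
      calc t a * (Polynomial.C (x a) + Polynomial.X * Polynomial.C (e a)).natDegree
          ≤ t a * 1 := Nat.mul_le_mul_left _ h1
        _ = t a := mul_one _
    have h3 : ((Polynomial.C (x a) + Polynomial.X * Polynomial.C (e a)) ^ t a).coeff (t a) =
        e a ^ t a := by
      have h4 := Polynomial.coeff_pow_of_natDegree_le (m := t a) h1
      rw [mul_one] at h4
      rw [h4]
      congr 1
      simp
    rw [Finset.prod_insert ha, Finset.sum_insert ha, Finset.prod_insert ha]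
    refine ⟨(Polynomial.natDegree_mul_le).trans (Nat.add_le_add h2 ih.1), ?_⟩
    rw [Polynomial.coeff_mul_add_eq_of_natDegree_le h2 ih.1, h3, ih.2]

/-- restriction of a polynomial to a line -/
noncomputable def line {k ι : Type} [Field k] (Φ : MvPolynomial ι k) (x e : ι → k) :
    Polynomial k :=
  aeval (fun u => Polynomial.C (x u) + Polynomial.X * Polynomial.C (e u)) Φ

theorem line_eq {k ι : Type} [Field k] [Fintype ι] (Φ : MvPolynomial ι k) (x e : ι → k) :
    line Φ x e = ∑ t ∈ Φ.support, Polynomial.C (Φ.coeff t) *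
      ∏ u, (Polynomial.C (x u) + Polynomial.X * Polynomial.C (e u)) ^ t u := by
  unfold line
  rw [aeval_def, eval₂_eq']
  rfl

theorem line_eval {k ι : Type} [Field k] (Φ : MvPolynomial ι k) (x e : ι → k) (T : k) :
    (line Φ x e).eval T = eval (fun u => x u + e u * T) Φ := by
  unfold line
  induction Φ using MvPolynomial.induction_on with
  | C a => simp
  | add p q hp hq => rw [map_add, Polynomial.eval_add, map_add, hp, hq]
  | mul_X p i hp =>
    rw [map_mul, Polynomial.eval_mul, map_mul, hp, aeval_X, eval_X, Polynomial.eval_add,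
      Polynomial.eval_mul, Polynomial.eval_C, Polynomial.eval_X, Polynomial.eval_C,
      mul_comm T (e i)]

theorem deg_mem {k ι : Type} [Field k] [Fintype ι] (Φ : MvPolynomial ι k) (t : ι →₀ ℕ)
    (ht : t ∈ Φ.support) : ∑ u, t u ≤ Φ.totalDegree := by
  have h := le_totalDegree ht
  rw [Finsupp.sum_fintype _ _ (fun _ => rfl)] at h
  exact h

theorem line_natDegree {k ι : Type} [Field k] [Fintype ι] (Φ : MvPolynomial ι k)
    (x e : ι → k) : (line Φ x e).natDegree ≤ Φ.totalDegree := by
  rw [line_eq]
  refine Polynomial.natDegree_sum_le_of_forall_le _ _ fun t ht => ?_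
  refine (Polynomial.natDegree_C_mul_le _ _).trans ?_
  exact ((lin_prod Finset.univ x e t).1).trans (deg_mem Φ t ht)

theorem line_coeff {k ι : Type} [Field k] [Fintype ι] (Φ : MvPolynomial ι k)
    (x e : ι → k) : (line Φ x e).coeff Φ.totalDegree =
      eval e (homogeneousComponent Φ.totalDegree Φ) := by
  rw [line_eq, Polynomial.finsetSum_coeff, homogeneousComponent_apply, map_sum,
    Finset.sum_filter]
  refine Finset.sum_congr rfl fun t ht => ?_
  rw [Polynomial.coeff_C_mul]
  have h1 := lin_prod Finset.univ x e t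
  have h2 : t.degree = ∑ u, t u := Finsupp.degree_eq_sum t
  split_ifs with h
  · rw [eval_monomial, Finsupp.prod_fintype _ _ (fun _ => pow_zero _), ← h, h2, h1.2]
  · rw [Polynomial.coeff_eq_zero_of_natDegree_lt, mul_zero]
    refine lt_of_le_of_lt h1.1 (lt_of_le_of_ne (deg_mem Φ t ht) ?_)
    rw [← h2]
    exact h

theorem top_ne {k ι : Type} [Field k] [Fintype ι] (Φ : MvPolynomial ι k) (h : Φ ≠ 0) :
    homogeneousComponent Φ.totalDegree Φ ≠ 0 := by
  have h1 : Φ.support.Nonempty := support_nonempty.mpr h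
  obtain ⟨t, ht, ht2⟩ := Finset.exists_mem_eq_sup Φ.support h1
    (fun s => s.sum fun _ e => e)
  intro h2
  have h3 := congrArg (coeff t) h2
  rw [coeff_homogeneousComponent, coeff_zero] at h3
  have h4 : t.degree = Φ.totalDegree := by
    unfold totalDegree
    rw [ht2, Finsupp.degree_eq_sum, Finsupp.sum_fintype _ _ (fun _ => rfl)]
  rw [if_pos h4] at h3
  exact (mem_support_iff.mp ht) h3

/-- a good direction -/
theorem exists_dir {k ι : Type} [Field k] [Fintype ι] (p : ℕ) [Fact p.Prime] [CharP k p]
    {J : Type} (G : Finset J) (Φ : J → MvPolynomial ι k) (M : ℕ)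
    (h : ∀ j ∈ G, Φ j ≠ 0 ∧ (Φ j).totalDegree ≤ M) (hM : G.card * M < p) :
    ∃ e : ι → ZMod p, ∀ j ∈ G,
      eval (fun u => ZMod.castHom (dvd_refl p) k (e u))
        (homogeneousComponent (Φ j).totalDegree (Φ j)) ≠ 0 := by
  classical
  have hinj : Function.Injective (ZMod.castHom (dvd_refl p) k) := RingHom.injective _
  obtain ⟨P, hP⟩ : ∃ P : MvPolynomial ι k,
    P = ∏ j ∈ G, homogeneousComponent (Φ j).totalDegree (Φ j) := ⟨_, rfl⟩
  have hP0 : P ≠ 0 := by
    rw [hP]
    exact Finset.prod_ne_zero_iff.mpr fun j hj => top_ne _ (h j hj).1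
  have hPd : P.totalDegree ≤ G.card * M := by
    rw [hP]
    refine (totalDegree_finsetProd _ _).trans ?_
    rw [← smul_eq_mul]
    refine Finset.sum_le_card_nsmul _ _ _ fun j hj => ?_
    exact ((homogeneousComponent_isHomogeneous _ _).totalDegree_le).trans (h j hj).2
  by_contra hcon
  push Not at hcon
  apply hP0
  refine eq_zero_of_eval_zero_at_prod_finset P
    (fun _ => Finset.univ.image (ZMod.castHom (dvd_refl p) k)) (fun i => ?_) (fun x hx => ?_)
  · rw [Finset.card_image_of_injective _ hinj, Finset.card_univ, ZMod.card]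
    exact lt_of_le_of_lt ((degreeOf_le_totalDegree _ _).trans hPd) hM
  · choose e he1 he using fun i => Finset.mem_image.mp (hx i)
    obtain ⟨j, hj, hj0⟩ := hcon e
    rw [hP, map_prod]
    refine Finset.prod_eq_zero hj ?_
    have h5 : x = fun u => ZMod.castHom (dvd_refl p) k (e u) := by
      funext u
      exact (he u).symm
    rw [h5]
    exact hj0

/-- a good set of columns -/
theorem exists_cols {k : Type} [Field k] (n : ℕ) (Θ : Matrix (Fin n) (Fin n) k)
    (hΘ : Θ.det ≠ 0) (G : Finset (Fin n)) : ∃ (κ : Type) (_ : Fintype κ) (a : κ → Fin n),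
    Fintype.card κ = G.card ∧
      LinearIndependent k (fun x : κ => (fun j : G => Θ j (a x) : G → k)) := by
  classical
  obtain ⟨κ, a, ha, hspan, hli⟩ := exists_linearIndependent'  k
    (fun l : Fin n => (fun j : G => Θ j l : G → k))
  have hfin : Finite κ := Finite.of_injective a ha
  have hft : Fintype κ := Fintype.ofFinite κ
  refine ⟨κ, hft, a, ?_, hli⟩
  have htop : Submodule.span k (Set.range (fun l : Fin n => (fun j : G => Θ j l : G → k))) =
      ⊤ := by
    rw [eq_top_iff]
    intro z _
    obtain ⟨z', hz'⟩ : ∃ z' : Fin n → k, ∀ j : G, z' j = z j :=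
      ⟨fun i => if h : i ∈ G then z ⟨i, h⟩ else 0, fun j => by
        show (if h : (j : Fin n) ∈ G then z ⟨j, h⟩ else 0) = z j
        rw [dif_pos j.2]⟩
    have hu : IsUnit Θ.det := isUnit_iff_ne_zero.mpr hΘ
    have h1 : Θ.mulVec (Θ⁻¹.mulVec z') = z' := by
      rw [Matrix.mulVec_mulVec, Matrix.mul_nonsing_inv _ hu, Matrix.one_mulVec]
    have h2 : z = ∑ l, (Θ⁻¹.mulVec z') l • (fun j : G => Θ j l : G → k) := by
      funext j
      rw [Finset.sum_apply, ← hz' j, ← congrFun h1 j]
      unfold Matrix.mulVec dotProduct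
      refine Finset.sum_congr rfl fun l _ => ?_
      rw [Pi.smul_apply, smul_eq_mul, mul_comm]
    rw [h2]
    exact Submodule.sum_mem _ fun l _ => Submodule.smul_mem _ _
      (Submodule.subset_span ⟨l, rfl⟩)
  have hb := Module.finrank_eq_card_basis (Module.Basis.mk hli (by rw [hspan, htop]))
  rw [← hb, Module.finrank_pi, Fintype.card_coe]

end CNT_

open CNT_ in
theorem p_CNT : T_CNT := by
  intro k _ p _ _ n Θ hΘ ι _ _ G Φ M hΦ hM
  classical
  have hinj : Function.Injective (ZMod.castHom (dvd_refl p) k) := RingHom.injective _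
  obtain ⟨e, he⟩ := exists_dir p G Φ M hΦ hM
  obtain ⟨κ, _, c, hcard, hli⟩ := exists_cols n Θ hΘ G
  have hp0 : NeZero p := ⟨(Fact.out : p.Prime).ne_zero⟩
  obtain ⟨Z, hZ⟩ : ∃ Z : Finset (ι → Fin n → ZMod p), ∀ a, a ∈ Z ↔ ∀ j ∈ G,
      eval (fun u => ∑ l, Θ j l * ZMod.castHom (dvd_refl p) k (a u l)) (Φ j) = 0 :=
    ⟨Finset.univ.filter (fun a => ∀ j ∈ G,
      eval (fun u => ∑ l, Θ j l * ZMod.castHom (dvd_refl p) k (a u l)) (Φ j) = 0),
      fun a => by simp⟩
  have hZcard : Nat.card {a : ι → Fin n → ZMod p //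
      ∀ j ∈ G, eval (fun u => ∑ l, Θ j l * ZMod.castHom (dvd_refl p) k (a u l)) (Φ j) = 0} =
      Z.card := by
    rw [Nat.card_eq_fintype_card, Fintype.card_of_subtype Z]
    exact hZ
  rw [hZcard]
  -- the shifts
  obtain ⟨δ, hδ⟩ : ∃ δ : (κ → ZMod p) → ι → Fin n → ZMod p,
      ∀ y u l, δ y u l = e u * ∑ x, if c x = l then y x else 0 := ⟨_, fun _ _ _ => rfl⟩
  have hsum : ∀ (a : ι → Fin n → ZMod p) (y : κ → ZMod p) (j : Fin n) (u : ι),
      ∑ l, Θ j l * ZMod.castHom (dvd_refl p) k ((a + δ y) u l) =
        (∑ l, Θ j l * ZMod.castHom (dvd_refl p) k (a u l)) +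
          ZMod.castHom (dvd_refl p) k (e u) *
            ∑ x, Θ j (c x) * ZMod.castHom (dvd_refl p) k (y x) := by
    intro a y j u
    have h1 : ∀ l, Θ j l * ZMod.castHom (dvd_refl p) k ((a + δ y) u l) =
        Θ j l * ZMod.castHom (dvd_refl p) k (a u l) + ZMod.castHom (dvd_refl p) k (e u) *
          ∑ x, if c x = l then Θ j (c x) * ZMod.castHom (dvd_refl p) k (y x) else 0 := by
      intro l
      have h2 : (a + δ y) u l = a u l + e u * ∑ x, if c x = l then y x else 0 := by
        rw [Pi.add_apply, Pi.add_apply, hδ]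
      rw [h2, map_add, map_mul, map_sum, mul_add]
      congr 1
      rw [mul_left_comm, Finset.mul_sum]
      congr 1
      refine Finset.sum_congr rfl fun x _ => ?_
      split_ifs with h3
      · rw [h3]
      · rw [map_zero, mul_zero]
    rw [Finset.sum_congr rfl fun l _ => h1 l, Finset.sum_add_distrib, ← Finset.mul_sum]
    congr 2
    rw [Finset.sum_comm]
    refine Finset.sum_congr rfl fun x _ => ?_
    rw [Finset.sum_ite_eq]
    simp
  -- the number of shifts of a given point which are zeros
  have hfix : ∀ a : ι → Fin n → ZMod p,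
      (Finset.univ.filter (fun y : κ → ZMod p => a + δ y ∈ Z)).card ≤ M ^ G.card := by
    intro a
    obtain ⟨X, hX⟩ : ∃ X : Fin n → ι → k, ∀ j u,
      X j u = ∑ l, Θ j l * ZMod.castHom (dvd_refl p) k (a u l) := ⟨_, fun _ _ => rfl⟩
    obtain ⟨Y, hY⟩ : ∃ Y : (κ → ZMod p) → G → k, ∀ y j,
      Y y j = ∑ x, Θ j (c x) * ZMod.castHom (dvd_refl p) k (y x) := ⟨_, fun _ _ => rfl⟩
    have hYinj : Function.Injective Y := by
      intro y y' hyy
      have h1 : ∑ x, (ZMod.castHom (dvd_refl p) k (y x) - ZMod.castHom (dvd_refl p) k (y' x)) •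
          (fun j : G => Θ j (c x) : G → k) = 0 := by
        funext j
        rw [Finset.sum_apply, Pi.zero_apply]
        have h2 := congrFun hyy j
        rw [hY, hY] at h2
        rw [← sub_eq_zero, ← Finset.sum_sub_distrib] at h2
        rw [← h2]
        refine Finset.sum_congr rfl fun x _ => ?_
        rw [Pi.smul_apply, smul_eq_mul]
        ring
      have h3 := Fintype.linearIndependent_iff.mp hli _ h1
      funext x
      exact hinj (sub_eq_zero.mp (h3 x))
    have hroots : ∀ j ∈ G, (line (Φ j) (X j)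
        (fun u => ZMod.castHom (dvd_refl p) k (e u))) ≠ 0 := by
      intro j hj h4
      apply he j hj
      rw [← line_coeff (Φ j) (X j), h4, Polynomial.coeff_zero]
    have hsub : (Finset.univ.filter (fun y : κ → ZMod p => a + δ y ∈ Z)).image Y ⊆
        Fintype.piFinset (fun j : G => (line (Φ j) (X j)
          (fun u => ZMod.castHom (dvd_refl p) k (e u))).roots.toFinset) := by
      intro z hz
      obtain ⟨y, hy, rfl⟩ := Finset.mem_image.mp hz
      rw [Finset.mem_filter, hZ] at hy
      rw [Fintype.mem_piFinset]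
      intro j
      rw [Multiset.mem_toFinset, Polynomial.mem_roots (hroots j j.2), Polynomial.IsRoot.def,
        line_eval, ← hy.2 j j.2]
      congr 1
      have h5 : (fun u => X j u + ZMod.castHom (dvd_refl p) k (e u) * Y y j) =
          fun u => ∑ l, Θ j l * ZMod.castHom (dvd_refl p) k ((a + δ y) u l) := by
        funext u
        rw [hsum, hX, hY]
      rw [h5]
    rw [← Finset.card_image_of_injective _ hYinj]
    refine (Finset.card_le_card hsub).trans ?_
    rw [Fintype.card_piFinset]
    have h6 : ∀ j : G, (line (Φ j) (X j)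
        (fun u => ZMod.castHom (dvd_refl p) k (e u))).roots.toFinset.card ≤ M := by
      intro j
      refine (Multiset.toFinset_card_le _).trans ((Polynomial.card_roots' _).trans ?_)
      exact (line_natDegree _ _ _).trans (hΦ j j.2).2
    refine (Finset.prod_le_prod' fun j _ => h6 j).trans ?_
    rw [Finset.prod_const, Finset.card_univ, Fintype.card_coe]
  -- double counting
  have hshift : ∀ y : κ → ZMod p,
      (Finset.univ.filter (fun a : ι → Fin n → ZMod p => a + δ y ∈ Z)).card = Z.card := by
    intro y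
    refine Finset.card_bij (fun a _ => a + δ y) (fun a ha => ?_) (fun a _ b _ hab => ?_)
      (fun b hb => ?_)
    · exact (Finset.mem_filter.mp ha).2
    · exact add_right_cancel hab
    · refine ⟨b - δ y, Finset.mem_filter.mpr ⟨Finset.mem_univ _, ?_⟩, sub_add_cancel _ _⟩
      rw [sub_add_cancel]
      exact hb
  have hdc : ∑ y : κ → ZMod p,
      (Finset.univ.filter (fun a : ι → Fin n → ZMod p => a + δ y ∈ Z)).card =
      ∑ a : ι → Fin n → ZMod p,
        (Finset.univ.filter (fun y : κ → ZMod p => a + δ y ∈ Z)).card := by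
    simp only [Finset.card_filter]
    exact Finset.sum_comm
  have hL : ∑ y : κ → ZMod p,
      (Finset.univ.filter (fun a : ι → Fin n → ZMod p => a + δ y ∈ Z)).card =
      Z.card * p ^ G.card := by
    rw [Finset.sum_congr rfl fun y _ => hshift y, Finset.sum_const, Finset.card_univ,
      Fintype.card_fun, ZMod.card, hcard, smul_eq_mul, mul_comm]
  have hR : ∑ a : ι → Fin n → ZMod p,
        (Finset.univ.filter (fun y : κ → ZMod p => a + δ y ∈ Z)).card ≤
      M ^ G.card * p ^ (n * Fintype.card ι) := by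
    refine (Finset.sum_le_sum fun a _ => hfix a).trans ?_
    rw [Finset.sum_const, Finset.card_univ, Fintype.card_fun, Fintype.card_fun, ZMod.card,
      Fintype.card_fin, smul_eq_mul, ← pow_mul, mul_comm]
  rw [← hL, hdc]
  exact hR

end PKD
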