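import Pool.Agent.PKD.Targets
import Pool.Agent.PKD.RedLem

/-! Auxiliary lemmas for the arithmetic core: the eliminants, the determinant of the reduced
embedding matrix, integrality at almost all places, and the union bound. -/

set_option autoImplicit false
set_option maxHeartbeats 4000000

namespace PKD

open MvPolynomial RD

namespace COR_

/-- eliminants, for all types at once -/
theorem elim (hELI : T_ELI) (d n D g : ℕ) (ρ : Fin n → ℕ) : ∃ M : ℕ, ∀ (Ω k : Type) [Field Ω]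
    [Field k] (v : AbsoluteValue Ω ℝ) (r : Ω → k), Red v r →
    ∀ (b : Fin n → ℕ → MvPolynomial (Fin d) Ω),
    (∀ j l, l < ρ j → (b j l).totalDegree ≤ ρ j - l) →
    ∀ (S J W : Finset (Fin g)) (τ : Fin g → Fin g → k),
    ∃ Ψ : MvPolynomial (Fin g × MonS d n D) k, Ψ ≠ 0 ∧ Ψ.totalDegree ≤ M ∧
      (Disjoint S W → J ⊆ W → S.card + J.card = d + 1 → ∀ ty c x s h,
        Sys ρ (bty r ρ b ty) (uty k ty) (al0 D ty) S J W τ c x s h → eval c Ψ = 0) := by
  classical
  obtain ⟨L, hL⟩ := hELI d n D g ρ (MonS d n D)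
  refine ⟨(d + 1) * L, fun Ω k _ _ v r hr b hb S J W τ => ?_⟩
  by_cases hcond : Disjoint S W ∧ J ⊆ W ∧ S.card + J.card = d + 1
  · obtain ⟨h1, h2, h3⟩ := hcond
    have hbty : ∀ ty : Option (Fin d), ∀ j l, l < ρ j →
        (bty r ρ b ty j l).totalDegree ≤ ρ j - l := by
      intro ty j l hl
      rcases ty with _ | m
      · exact (rdP_deg r _).trans (hb j l hl)
      · exact rdT_deg r _ _
    have hum : ∀ α : MonS d n D, (um k α).totalDegree ≤ D := by
      intro α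
      unfold um
      refine (totalDegree_finset_prod _ _).trans ?_
      refine le_trans (Finset.sum_le_sum fun j _ => ?_) α.2
      refine (totalDegree_pow _ _).trans ?_
      rw [totalDegree_X, mul_one]
    have huty : ∀ ty : Option (Fin d), ∀ α : MonS d n D, (uty k ty α).totalDegree ≤ D := by
      intro ty α
      rcases ty with _ | m
      · exact hum α
      · unfold uty
        simp only
        split_ifs
        · exact hum α
        · simp
    have hex : ∀ ty : Option (Fin d), ∃ Φ : MvPolynomial (Fin g × MonS d n D) k, Φ ≠ 0 ∧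
        Φ.totalDegree ≤ L ∧ ∀ c x s h,
          Sys ρ (bty r ρ b ty) (uty k ty) (al0 D ty) S J W τ c x s h → eval c Φ = 0 := fun ty =>
      hL k (bty r ρ b ty) (uty k ty) (al0 D ty) S J W τ (hbty ty) (huty ty) h1 h2 h3
    choose Φ hΦ0 hΦd hΦ using hex
    refine ⟨∏ ty, Φ ty, Finset.prod_ne_zero_iff.2 fun ty _ => hΦ0 ty, ?_, ?_⟩
    · refine (totalDegree_finset_prod _ _).trans ?_
      refine (Finset.sum_le_sum fun ty _ => hΦd ty).trans ?_
      simp
    · intro _ _ _ ty c x s h hsys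
      rw [map_prod]
      exact Finset.prod_eq_zero (Finset.mem_univ ty) (hΦ ty c x s h hsys)
  · exact ⟨1, one_ne_zero, by simp, fun h1 h2 h3 => absurd ⟨h1, h2, h3⟩ hcond⟩

/-- reduction of the determinant -/
theorem red_det {Ω k : Type} [Field Ω] [Field k] {v : AbsoluteValue Ω ℝ} {r : Ω → k}
    (hr : Red v r) {N : ℕ} (M : Matrix (Fin N) (Fin N) Ω) (hM : ∀ i j, v (M i j) ≤ 1) :
    v M.det ≤ 1 ∧ r M.det = (Matrix.of fun i j => r (M i j)).det := by
  have h1 : ∀ e : Equiv.Perm (Fin N), v (∏ i, M (e i) i) ≤ 1 := fun e =>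
    na_prod_le _ _ fun i _ => hM _ _
  have h2 : ∀ e : Equiv.Perm (Fin N), v (((Equiv.Perm.sign e : ℤ) : Ω) * ∏ i, M (e i) i) ≤ 1 :=
    fun e => by
      rw [v.map_mul]
      exact mul_le_one₀ (na_int hr.na _) (v.nonneg _) (h1 e)
  refine ⟨?_, ?_⟩
  · rw [Matrix.det_apply']
    exact na_sum hr.na _ _ _ zero_le_one fun e _ => h2 e
  · rw [Matrix.det_apply', Matrix.det_apply', hr.sum _ _ fun e _ => h2 e]
    refine Finset.sum_congr rfl fun e _ => ?_
    rw [hr.mul _ _ (na_int hr.na _) (h1 e), hr.int, hr.prod _ _ fun i _ => hM _ _]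
    rfl

/-- integrality of finitely many numbers at almost all places -/
theorem alm_finset (hALM : T_ALM) (Ω : Type) [Field Ω] [CharZero Ω] [Algebra.IsAlgebraic ℚ Ω]
    (F : Finset Ω) : ∃ p0 : ℕ, ∀ p : ℕ, p0 ≤ p → p.Prime → ∀ v : AbsoluteValue Ω ℝ,
      IsNonarchimedean v → v (p : Ω) < 1 → ∀ z ∈ F, v z ≤ 1 := by
  classical
  choose p0 hp0 using fun z => hALM Ω z
  refine ⟨∑ z ∈ F, p0 z, fun p hp hpp v hv hvp z hz => ?_⟩
  exact hp0 z p ((Finset.single_le_sum (f := p0) (fun _ _ => Nat.zero_le _) hz).trans hp) hpp v hv hvp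

/-- the elements of `k` with `x ^ (p ^ 2) = x` -/
theorem quad_set {k : Type} [Field k] [DecidableEq k] (p : ℕ) (hp : 2 ≤ p) :
    ∃ Q : Finset k, Q.card ≤ p ^ 2 ∧ ∀ x : k, x ^ (p ^ 2) = x → x ∈ Q := by
  have hp2 : 1 < p ^ 2 := by nlinarith
  have hne : (Polynomial.X ^ (p ^ 2) - Polynomial.X : Polynomial k) ≠ 0 :=
    FiniteField.X_pow_card_sub_X_ne_zero k hp2
  refine ⟨(Polynomial.X ^ (p ^ 2) - Polynomial.X : Polynomial k).roots.toFinset, ?_, ?_⟩
  · refine (Multiset.toFinset_card_le _).trans ?_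
    refine (Polynomial.card_roots' _).trans ?_
    rw [FiniteField.X_pow_card_sub_X_natDegree_eq k hp2]
  · intro x hx
    rw [Multiset.mem_toFinset, Polynomial.mem_roots hne]
    simp [hx]

/-- the union bound -/
theorem union (hCNT : T_CNT) {k : Type} [Field k] (p : ℕ) [Fact p.Prime] [CharP k p]
    {N g : ℕ} {ι : Type} [Fintype ι] [DecidableEq ι] (Θ : Matrix (Fin N) (Fin N) k) (hΘ : Θ.det ≠ 0)
    (M : ℕ) (hM : (2 * g ^ 2 + 1) * M < p)
    (Ψ : Fin N → Finset (Fin g) → Finset (Fin g) → Finset (Fin g) → (Fin g → Fin g → k) →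
      MvPolynomial ι k) (hΨ : ∀ j S J W τ, Ψ j S J W τ ≠ 0 ∧ (Ψ j S J W τ).totalDegree ≤ M) :
    ∃ Bp : Finset (ι → Fin N → ZMod p),
      Bp.card * p ≤ (2 ^ N * (2 ^ g * (2 ^ g * 2 ^ g)) * M ^ (2 * g ^ 2 + 1)) *
        p ^ (N * Fintype.card ι) ∧
      ∀ (a : ι → Fin N → ZMod p) (G : Finset (Fin N)) (S J W : Finset (Fin g))
        (τ : Fin g → Fin g → k), G.card = 2 * g ^ 2 + 1 → (∀ i i', τ i i' ^ (p ^ 2) = τ i i') →
        (∀ j ∈ G, eval (fun u => ∑ l, Θ j l * ZMod.castHom (dvd_refl p) k (a u l))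
          (Ψ j S J W τ) = 0) → a ∈ Bp := by
  classical
  have hp : p.Prime := Fact.out
  obtain ⟨Q, hQc, hQ⟩ := quad_set (k := k) p hp.two_le
  let T : Finset (Fin g → Fin g → k) := Fintype.piFinset fun _ => Fintype.piFinset fun _ => Q
  have hT : T.card ≤ p ^ (2 * g ^ 2) := by
    simp only [T, Fintype.card_piFinset, Finset.prod_const, Finset.card_univ, Fintype.card_fin]
    calc (Q.card ^ g) ^ g ≤ ((p ^ 2) ^ g) ^ g := by gcongr
      _ = p ^ (2 * g ^ 2) := by rw [← pow_mul, ← pow_mul]; congr 1; ring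
  let I : Finset (Finset (Fin N) × Finset (Fin g) × Finset (Fin g) × Finset (Fin g) ×
      (Fin g → Fin g → k)) :=
    (Finset.univ.filter fun G => G.card = 2 * g ^ 2 + 1) ×ˢ Finset.univ ×ˢ Finset.univ ×ˢ
      Finset.univ ×ˢ T
  let Z : Finset (Fin N) × Finset (Fin g) × Finset (Fin g) × Finset (Fin g) ×
      (Fin g → Fin g → k) → Finset (ι → Fin N → ZMod p) := fun x =>
    Finset.univ.filter fun a => ∀ j ∈ x.1,
      eval (fun u => ∑ l, Θ j l * ZMod.castHom (dvd_refl p) k (a u l))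
        (Ψ j x.2.1 x.2.2.1 x.2.2.2.1 x.2.2.2.2) = 0
  have hIc : I.card ≤ 2 ^ N * (2 ^ g * (2 ^ g * (2 ^ g * p ^ (2 * g ^ 2)))) := by
    simp only [I, Finset.card_product]
    have h1 : (Finset.univ.filter fun G : Finset (Fin N) => G.card = 2 * g ^ 2 + 1).card ≤ 2 ^ N := by
      refine (Finset.card_filter_le _ _).trans ?_
      simp
    have h2 : (Finset.univ : Finset (Finset (Fin g))).card = 2 ^ g := by simp
    rw [h2]
    gcongr
  have hZ : ∀ x ∈ I, (Z x).card * p ^ (2 * g ^ 2 + 1) ≤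
      M ^ (2 * g ^ 2 + 1) * p ^ (N * Fintype.card ι) := by
    intro x hx
    simp only [I, Finset.mem_product, Finset.mem_filter] at hx
    have hG := hx.1.2
    have h1 := hCNT k p N Θ hΘ ι x.1 (fun j => Ψ j x.2.1 x.2.2.1 x.2.2.2.1 x.2.2.2.2) M
      (fun j _ => hΨ j _ _ _ _) (by rw [hG]; exact hM)
    rw [hG, Nat.card_eq_fintype_card, Fintype.card_subtype] at h1
    exact h1
  refine ⟨I.biUnion Z, ?_, ?_⟩
  · have h1 : (I.biUnion Z).card * p ^ (2 * g ^ 2 + 1) ≤
        I.card * (M ^ (2 * g ^ 2 + 1) * p ^ (N * Fintype.card ι)) := by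
      calc (I.biUnion Z).card * p ^ (2 * g ^ 2 + 1)
          ≤ (∑ x ∈ I, (Z x).card) * p ^ (2 * g ^ 2 + 1) :=
            Nat.mul_le_mul_right _ Finset.card_biUnion_le
        _ = ∑ x ∈ I, (Z x).card * p ^ (2 * g ^ 2 + 1) := Finset.sum_mul _ _ _
        _ ≤ ∑ x ∈ I, M ^ (2 * g ^ 2 + 1) * p ^ (N * Fintype.card ι) :=
            Finset.sum_le_sum fun x hx => hZ x hx
        _ = _ := by rw [Finset.sum_const, smul_eq_mul]
    have hpp : 0 < p ^ (2 * g ^ 2) := pow_pos hp.pos _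
    refine Nat.le_of_mul_le_mul_right ?_ hpp
    calc (I.biUnion Z).card * p * p ^ (2 * g ^ 2)
        = (I.biUnion Z).card * p ^ (2 * g ^ 2 + 1) := by rw [pow_succ]; ring
      _ ≤ I.card * (M ^ (2 * g ^ 2 + 1) * p ^ (N * Fintype.card ι)) := h1
      _ ≤ (2 ^ N * (2 ^ g * (2 ^ g * (2 ^ g * p ^ (2 * g ^ 2))))) *
          (M ^ (2 * g ^ 2 + 1) * p ^ (N * Fintype.card ι)) := Nat.mul_le_mul_right _ hIc
      _ = _ := by ring
  · intro a G S J W τ hG hτ ha
    rw [Finset.mem_biUnion]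
    refine ⟨(G, S, J, W, τ), ?_, ?_⟩
    · simp only [I, T, Finset.mem_product, Finset.mem_filter, Finset.mem_univ, true_and,
        Fintype.mem_piFinset]
      exact ⟨hG, fun i i' => hQ _ (hτ i i')⟩
    · simp only [Z, Finset.mem_filter, Finset.mem_univ, true_and]
      exact ha

end COR_

end PKD
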