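import Pool.Agent.PKD.STEP
import Pool.Agent.PKD.CORA

/-! The arithmetic core. -/

set_option autoImplicit false
set_option maxHeartbeats 4000000

namespace PKD

open MvPolynomial RD

theorem COR_.core (hREL : T_REL) (hGRP : T_GRP) (hPLC : T_PLC) (hELI : T_ELI) (hCNT : T_CNT)
    (hEXP : T_EXP) (hALM : T_ALM) (K Ω : Type) [Field K] [NumberField K] [Field Ω] [CharZero Ω]
    [IsAlgClosed Ω] [DecidableEq Ω] [Algebra K Ω] [Algebra.IsAlgebraic K Ω]
    (g d n m D N : ℕ) (hmD : m ≤ D) (hK : 2 ^ (g + 2) * g ^ 2 < N)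
    (w : Module.Basis (Fin N) ℚ K) (σ : Fin N → Ω →+* Ω)
    (hσ : (Matrix.of fun (j l : Fin N) => σ j (algebraMap K Ω (w l))).det ≠ 0) (ρ : Fin n → ℕ)
    (b : Fin n → ℕ → MvPolynomial (Fin d) Ω) (A B : MvPolynomial (Fin d ⊕ Fin n) Ω)
    (hb : ∀ j l, l < ρ j → (b j l).totalDegree ≤ ρ j - l)
    (hA : A.totalDegree ≤ 2 * m) (hB : B.totalDegree ≤ 3 * m) :
    ∃ C p0 : ℕ, ∀ p : ℕ, p0 ≤ p → p.Prime →
    ∃ Bp : Finset ((Fin g × MonS d n D) → Fin N → ZMod p),
      Bp.card * p ≤ C * p ^ (N * Fintype.card (Fin g × MonS d n D)) ∧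
      ∀ (β : ℕ) (a : (Fin g × MonS d n D) → Fin N → ℤ), p ∣ β → ¬ p ^ 2 ∣ β →
        BadAt D ρ b A B (fun u => algebraMap K Ω (∑ l, (a u l : ℚ) • w l) / (β : Ω)) →
        (fun u l => (a u l : ZMod p)) ∈ Bp := by
  classical
  have halg : Algebra.IsAlgebraic ℚ Ω := Algebra.IsAlgebraic.trans ℚ K Ω
  obtain ⟨M, hM⟩ := COR_.elim hELI d n D g ρ
  set Mt : Matrix (Fin N) (Fin N) Ω := Matrix.of fun j l => σ j (algebraMap K Ω (w l)) with hMt
  have hdet : Mt.det ≠ 0 := hσ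
  -- the finite set of numbers which have to be integral
  let F : Finset Ω :=
    (Finset.univ.image fun x : Fin N × Fin N => Mt x.1 x.2) ∪ {Mt.det⁻¹} ∪
    (Finset.univ.biUnion fun i : Fin N => Finset.univ.biUnion fun j : Fin n =>
      (Finset.range (ρ j)).biUnion fun l => (b j l).support.image fun t => σ i ((b j l).coeff t)) ∪
    (Finset.univ.biUnion fun i : Fin N => A.support.image fun t => σ i (A.coeff t)) ∪
    (Finset.univ.biUnion fun i : Fin N => B.support.image fun t => σ i (B.coeff t))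
  obtain ⟨p1, hp1⟩ := COR_.alm_finset hALM Ω F
  refine ⟨2 ^ N * (2 ^ g * (2 ^ g * 2 ^ g)) * M ^ (2 * g ^ 2 + 1),
    p1 + (2 * g ^ 2 + 1) * M + 5, fun p hp hpp => ?_⟩
  obtain ⟨v, k, _, _, r, hr, hvp⟩ := hEXP Ω p hpp
  haveI : Fact p.Prime := ⟨hpp⟩
  have hF := hp1 p (by omega) hpp v hr.na hvp
  have hMi : ∀ i j, v (Mt i j) ≤ 1 := fun i j => hF _ (by
    simp only [F, Finset.mem_union, Finset.mem_image]
    exact Or.inl (Or.inl (Or.inl (Or.inl ⟨(i, j), Finset.mem_univ _, rfl⟩))))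
  have hdi : v (Mt.det⁻¹) ≤ 1 := hF _ (by
    simp only [F, Finset.mem_union, Finset.mem_singleton]
    exact Or.inl (Or.inl (Or.inl (Or.inr trivial))))
  have hbi : ∀ i j l, l < ρ j → ∀ t, v (σ i ((b j l).coeff t)) ≤ 1 := by
    intro i j l hl t
    by_cases ht : t ∈ (b j l).support
    · refine hF _ ?_
      simp only [F, Finset.mem_union]
      refine Or.inl (Or.inl (Or.inr ?_))
      simp only [Finset.mem_biUnion, Finset.mem_image, Finset.mem_univ, true_and, Finset.mem_range]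
      exact ⟨i, j, l, hl, t, ht, rfl⟩
    · rw [notMem_support_iff.1 ht, map_zero, v.map_zero]
      exact zero_le_one
  have hABi : ∀ i t, v (σ i (A.coeff t)) ≤ 1 ∧ v (σ i (B.coeff t)) ≤ 1 := by
    intro i t
    constructor
    · by_cases ht : t ∈ A.support
      · refine hF _ ?_
        simp only [F, Finset.mem_union]
        refine Or.inl (Or.inr ?_)
        simp only [Finset.mem_biUnion, Finset.mem_image, Finset.mem_univ, true_and]
        exact ⟨i, t, ht, rfl⟩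
      · rw [notMem_support_iff.1 ht, map_zero, v.map_zero]
        exact zero_le_one
    · by_cases ht : t ∈ B.support
      · refine hF _ ?_
        simp only [F, Finset.mem_union]
        refine Or.inr ?_
        simp only [Finset.mem_biUnion, Finset.mem_image, Finset.mem_univ, true_and]
        exact ⟨i, t, ht, rfl⟩
      · rw [notMem_support_iff.1 ht, map_zero, v.map_zero]
        exact zero_le_one
  -- the reduced matrix
  set Θ : Matrix (Fin N) (Fin N) k := Matrix.of fun i j => r (Mt i j) with hΘ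
  have hΘdet : Θ.det ≠ 0 := by
    obtain ⟨h1, h2⟩ := COR_.red_det hr Mt hMi
    rw [← h2]
    intro h0
    rw [hr.ker _ h1] at h0
    rw [map_inv₀] at hdi
    have hpos : 0 < v Mt.det := v.pos hdet
    have := (inv_le_one₀ hpos).1 hdi
    linarith
  -- the eliminants
  have hΨex : ∀ (j : Fin N) (S J W : Finset (Fin g)) (τ : Fin g → Fin g → k),
      ∃ Ψ : MvPolynomial (Fin g × MonS d n D) k, Ψ ≠ 0 ∧ Ψ.totalDegree ≤ M ∧
      (Disjoint S W → J ⊆ W → S.card + J.card = d + 1 → ∀ ty c x s h,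
        Sys ρ (bty (fun x => r (σ j x)) ρ b ty) (uty k ty) (al0 D ty) S J W τ c x s h →
          eval c Ψ = 0) := fun j S J W τ =>
    hM Ω k (v.comp (σ j).injective) (fun x => r (σ j x)) (hr.comp (σ j)) b hb S J W τ
  choose Ψ hΨ0 hΨd hΨ using hΨex
  obtain ⟨Bp, hBc, hBp⟩ := COR_.union (g := g) hCNT p Θ hΘdet M (by omega) Ψ
    (fun j S J W τ => ⟨hΨ0 j S J W τ, hΨd j S J W τ⟩)
  refine ⟨Bp, hBc, fun β a hβ hβ2 hbad => ?_⟩
  -- valuation of β
  have hβ0 : (β : Ω) ≠ 0 := by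
    intro h0
    have : β = 0 := by exact_mod_cast h0
    exact hβ2 (this ▸ dvd_zero _)
  have hvβ : v (β : Ω) = v (p : Ω) := by
    obtain ⟨q, rfl⟩ := hβ
    have hpq : ¬ p ∣ q := fun h => hβ2 (by rw [pow_two]; exact Nat.mul_dvd_mul_left p h)
    have hcop : IsCoprime (q : ℤ) (p : ℤ) := by
      rw [Nat.isCoprime_iff_coprime]
      exact ((Nat.Prime.coprime_iff_not_dvd hpp).2 hpq).symm
    have h1 := na_coprime hr.na hvp hcop
    push_cast
    rw [v.map_mul]
    have h2 : v ((q : ℕ) : Ω) = 1 := by exact_mod_cast h1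
    rw [h2, mul_one]
  set c : Fin g × MonS d n D → Ω := fun u => algebraMap K Ω (∑ l, (a u l : ℚ) • w l) / (β : Ω)
    with hc
  have hβc : ∀ i u, σ i ((β : Ω) * c u) = ∑ l, ((a u l : ℤ) : Ω) * Mt i l := by
    intro i u
    have h1 : (β : Ω) * c u = algebraMap K Ω (∑ l, (a u l : ℚ) • w l) := by
      rw [hc]
      field_simp
    rw [h1, map_sum, map_sum]
    refine Finset.sum_congr rfl fun l _ => ?_
    have h2 : ((a u l : ℚ) • w l : K) = ((a u l : ℤ) : K) * w l := by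
      rw [Algebra.smul_def]
      simp
    rw [h2, map_mul, map_mul, map_intCast, map_intCast]
    rfl
  have hci : ∀ i u, v (σ i ((β : Ω) * c u)) ≤ 1 := by
    intro i u
    rw [hβc]
    refine na_sum hr.na _ _ _ zero_le_one fun l _ => ?_
    rw [v.map_mul]
    exact mul_le_one₀ (na_int hr.na _) (v.nonneg _) (hMi _ _)
  have hcr : ∀ i u, r (σ i ((β : Ω) * c u)) =
      ∑ l, Θ i l * ZMod.castHom (dvd_refl p) k ((a u l : ZMod p)) := by
    intro i u
    rw [hβc, hr.sum _ _ fun l _ => by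
      rw [v.map_mul]
      exact mul_le_one₀ (na_int hr.na _) (v.nonneg _) (hMi _ _)]
    refine Finset.sum_congr rfl fun l _ => ?_
    rw [hr.mul _ _ (na_int hr.na _) (hMi _ _), hr.int, mul_comm]
    congr 1
    simp
  obtain ⟨G, S, J, W, τ, hG, hSW, hJW, hSJ, hτ, hsys⟩ :=
    COR_.step hREL hGRP hPLC hr hpp (by omega) hvp hmD σ hK ρ b A B hb hbi hABi hA hB
      (β : Ω) c (fun i => by rw [map_natCast]; exact hvβ) hci hbad
  refine hBp _ G S J W τ hG hτ fun j hj => ?_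
  obtain ⟨ty, x', s', h, hs⟩ := hsys j hj
  have h1 := hΨ j S J W τ hSW hJW hSJ ty _ x' s' h hs
  rw [← h1]
  congr 1
  congr 1
  funext u
  exact (hcr j u).symm

theorem p_COR (hREL : T_REL) (hGRP : T_GRP) (hPLC : T_PLC) (hELI : T_ELI) (hCNT : T_CNT)
    (hEXP : T_EXP) (hALM : T_ALM) (hEMB : T_EMB) : T_COR := by
  intro K Ω _ _ _ _ _ _ _ _ g d n m D hmD hK w ρ b A B hb hA hB
  obtain ⟨σ, hσ⟩ := hEMB K Ω
  exact COR_.core hREL hGRP hPLC hELI hCNT hEXP hALM K Ω g d n m D _ hmD hK w σ (hσ w) ρ b A B hb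
    hA hB

end PKD
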