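import Pool.Agent.PKD.STEP
import Pool.Agent.PKD.CORA

/-! The arithmetic core, with fixed coefficients `F0` and random coefficients on a set `I` of
monomials containing the pivot monomials. -/

set_option autoImplicit false
set_option maxHeartbeats 4000000

namespace PKD

open MvPolynomial RD

/-- the coefficients: `F0` plus the coefficients `c` on the set `I` -/
noncomputable def cf {Ω : Type} [Field Ω] {d n g D : ℕ} (I : Finset (MonS d n D))
    (F0 : Fin g × MonS d n D → Ω) (c : Fin g × {α // α ∈ I} → Ω) : Fin g × MonS d n D → Ω :=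
  fun u => F0 u + if h : u.2 ∈ I then c (u.1, ⟨u.2, h⟩) else 0

/-- the arithmetic core -/
def T_COR2 : Prop := ∀ (K Ω : Type) [Field K] [NumberField K] [Field Ω] [CharZero Ω]
  [IsAlgClosed Ω] [DecidableEq Ω] [Algebra K Ω] [Algebra.IsAlgebraic K Ω]
  (g d n m D : ℕ), m ≤ D → 2 ^ (g + 2) * g ^ 2 < Module.finrank ℚ K →
  ∀ (w : Module.Basis (Fin (Module.finrank ℚ K)) ℚ K) (ρ : Fin n → ℕ)
    (b : Fin n → ℕ → MvPolynomial (Fin d) Ω) (A B : MvPolynomial (Fin d ⊕ Fin n) Ω)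
    (I : Finset (MonS d n D)) (F0 : Fin g × MonS d n D → Ω), (∀ ty, al0 D ty ∈ I) →
    (∀ j l, l < ρ j → (b j l).totalDegree ≤ ρ j - l) →
    A.totalDegree ≤ 2 * m → B.totalDegree ≤ 3 * m →
  ∃ C p0 : ℕ, ∀ p : ℕ, p0 ≤ p → p.Prime →
    ∃ Bp : Finset ((Fin g × {α // α ∈ I}) → Fin (Module.finrank ℚ K) → ZMod p),
      Bp.card * p ≤ C * p ^ (Module.finrank ℚ K * Fintype.card (Fin g × {α // α ∈ I})) ∧
      ∀ (β : ℕ) (a : (Fin g × {α // α ∈ I}) → Fin (Module.finrank ℚ K) → ℤ), p ∣ β →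
        ¬ p ^ 2 ∣ β →
        BadAt D ρ b A B (cf I F0 fun u => algebraMap K Ω (∑ l, (a u l : ℚ) • w l) / (β : Ω)) →
        (fun u l => (a u l : ZMod p)) ∈ Bp

namespace COR_

/-- eliminants for the monomials of the set `I` -/
theorem elim2 (hELI : T_ELI) (d n D g : ℕ) (ρ : Fin n → ℕ) (I : Finset (MonS d n D))
    (hI : ∀ ty, al0 D ty ∈ I) : ∃ M : ℕ, ∀ (Ω k : Type) [Field Ω]
    [Field k] (v : AbsoluteValue Ω ℝ) (r : Ω → k), Red v r →
    ∀ (b : Fin n → ℕ → MvPolynomial (Fin d) Ω),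
    (∀ j l, l < ρ j → (b j l).totalDegree ≤ ρ j - l) →
    ∀ (S J W : Finset (Fin g)) (τ : Fin g → Fin g → k),
    ∃ Ψ : MvPolynomial (Fin g × {α // α ∈ I}) k, Ψ ≠ 0 ∧ Ψ.totalDegree ≤ M ∧
      (Disjoint S W → J ⊆ W → S.card + J.card = d + 1 → ∀ ty c x s h,
        Sys ρ (bty r ρ b ty) (fun α : {α // α ∈ I} => uty k ty α.1) ⟨al0 D ty, hI ty⟩ S J W τ c
          x s h → eval c Ψ = 0) := by
  classical
  obtain ⟨L, hL⟩ := hELI d n D g ρ {α : MonS d n D // α ∈ I}
  refine ⟨(d + 1) * L, fun Ω k _ _ v r hr b hb S J W τ => ?_⟩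
  by_cases hcond : Disjoint S W ∧ J ⊆ W ∧ S.card + J.card = d + 1
  · obtain ⟨h1, h2, h3⟩ := hcond
    have hbty : ∀ ty : Option (Fin d), ∀ j l, l < ρ j →
        (bty r ρ b ty j l).totalDegree ≤ ρ j - l := by
      intro ty j l hl
      rcases ty with _ | m
      · exact (rdP_deg r _).trans (hb j l hl)
      · exact rdT_deg r _ _
    have hum : ∀ α : MonS d n D, (um k α).totalDegree ≤ D := by
      intro α
      unfold um
      refine (totalDegree_finsetProd _ _).trans ?_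
      refine le_trans (Finset.sum_le_sum fun j _ => ?_) α.2
      refine (totalDegree_pow _ _).trans ?_
      rw [totalDegree_X, mul_one]
    have huty : ∀ ty : Option (Fin d), ∀ α : MonS d n D, (uty k ty α).totalDegree ≤ D := by
      intro ty α
      rcases ty with _ | m
      · exact hum α
      · unfold uty
        simp only
        split_ifs
        · exact hum α
        · simp
    have hex : ∀ ty : Option (Fin d), ∃ Φ : MvPolynomial (Fin g × {α // α ∈ I}) k, Φ ≠ 0 ∧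
        Φ.totalDegree ≤ L ∧ ∀ c x s h,
          Sys ρ (bty r ρ b ty) (fun α : {α // α ∈ I} => uty k ty α.1) ⟨al0 D ty, hI ty⟩ S J W τ c
            x s h → eval c Φ = 0 := fun ty =>
      hL k (bty r ρ b ty) (fun α : {α // α ∈ I} => uty k ty α.1) ⟨al0 D ty, hI ty⟩ S J W τ
        (hbty ty) (fun α => huty ty α.1) h1 h2 h3
    choose Φ hΦ0 hΦd hΦ using hex
    refine ⟨∏ ty, Φ ty, Finset.prod_ne_zero_iff.2 fun ty _ => hΦ0 ty, ?_, ?_⟩
    · refine (totalDegree_finsetProd _ _).trans ?_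
      refine (Finset.sum_le_sum fun ty _ => hΦd ty).trans ?_
      simp
    · intro _ _ _ ty c x s h hsys
      rw [map_prod]
      exact Finset.prod_eq_zero (Finset.mem_univ ty) (hΦ ty c x s h hsys)
  · exact ⟨1, one_ne_zero, by simp, fun h1 h2 h3 => absurd ⟨h1, h2, h3⟩ hcond⟩

theorem sum_restrict {k : Type} [Field k] {α : Type} [Fintype α] [DecidableEq α] (I : Finset α)
    (f : α → k) (hf : ∀ x, x ∉ I → f x = 0) : ∑ x, f x = ∑ x : {x // x ∈ I}, f x.1 := by
  rw [Finset.sum_coe_sort I f]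
  exact (Finset.sum_subset (Finset.subset_univ I) fun x _ hx => hf x hx).symm

theorem core2 (hREL : T_REL) (hGRP : T_GRP) (hPLC : T_PLC) (hELI : T_ELI) (hCNT : T_CNT)
    (hEXP : T_EXP) (hALM : T_ALM) (K Ω : Type) [Field K] [NumberField K] [Field Ω] [CharZero Ω]
    [IsAlgClosed Ω] [DecidableEq Ω] [Algebra K Ω] [Algebra.IsAlgebraic K Ω]
    (g d n m D N : ℕ) (hmD : m ≤ D) (hK : 2 ^ (g + 2) * g ^ 2 < N)
    (w : Module.Basis (Fin N) ℚ K) (σ : Fin N → Ω →+* Ω)
    (hσ : (Matrix.of fun (j l : Fin N) => σ j (algebraMap K Ω (w l))).det ≠ 0) (ρ : Fin n → ℕ)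
    (b : Fin n → ℕ → MvPolynomial (Fin d) Ω) (A B : MvPolynomial (Fin d ⊕ Fin n) Ω)
    (I : Finset (MonS d n D)) (F0 : Fin g × MonS d n D → Ω) (hI : ∀ ty, al0 D ty ∈ I)
    (hb : ∀ j l, l < ρ j → (b j l).totalDegree ≤ ρ j - l)
    (hA : A.totalDegree ≤ 2 * m) (hB : B.totalDegree ≤ 3 * m) :
    ∃ C p0 : ℕ, ∀ p : ℕ, p0 ≤ p → p.Prime →
    ∃ Bp : Finset ((Fin g × {α // α ∈ I}) → Fin N → ZMod p),
      Bp.card * p ≤ C * p ^ (N * Fintype.card (Fin g × {α // α ∈ I})) ∧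
      ∀ (β : ℕ) (a : (Fin g × {α // α ∈ I}) → Fin N → ℤ), p ∣ β → ¬ p ^ 2 ∣ β →
        BadAt D ρ b A B (cf I F0 fun u => algebraMap K Ω (∑ l, (a u l : ℚ) • w l) / (β : Ω)) →
        (fun u l => (a u l : ZMod p)) ∈ Bp := by
  classical
  have halg : Algebra.IsAlgebraic ℚ Ω := Algebra.IsAlgebraic.trans ℚ K Ω
  obtain ⟨M, hM⟩ := COR_.elim2 hELI d n D g ρ I hI
  set Mt : Matrix (Fin N) (Fin N) Ω := Matrix.of fun j l => σ j (algebraMap K Ω (w l)) with hMt
  have hdet : Mt.det ≠ 0 := hσ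
  -- the finite set of numbers which have to be integral
  let F : Finset Ω :=
    (Finset.univ.image fun x : Fin N × Fin N => Mt x.1 x.2) ∪ {Mt.det⁻¹} ∪
    (Finset.univ.biUnion fun i : Fin N => Finset.univ.biUnion fun j : Fin n =>
      (Finset.range (ρ j)).biUnion fun l => (b j l).support.image fun t => σ i ((b j l).coeff t)) ∪
    (Finset.univ.biUnion fun i : Fin N => A.support.image fun t => σ i (A.coeff t)) ∪
    (Finset.univ.biUnion fun i : Fin N => B.support.image fun t => σ i (B.coeff t))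
  obtain ⟨p1, hp1⟩ := COR_.alm_finset hALM Ω F
  obtain ⟨p2, hp2⟩ := COR_.alm_finset hALM Ω
    (Finset.univ.image fun x : Fin N × (Fin g × MonS d n D) => σ x.1 (F0 x.2))
  refine ⟨2 ^ N * (2 ^ g * (2 ^ g * 2 ^ g)) * M ^ (2 * g ^ 2 + 1),
    p1 + p2 + (2 * g ^ 2 + 1) * M + 5, fun p hp hpp => ?_⟩
  obtain ⟨v, k, _, _, r, hr, hvp⟩ := hEXP Ω p hpp
  haveI : Fact p.Prime := ⟨hpp⟩
  have hF := hp1 p (by omega) hpp v hr.na hvp
  have hF0 : ∀ i u, v (σ i (F0 u)) ≤ 1 := fun i u =>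
    hp2 p (by omega) hpp v hr.na hvp _ (Finset.mem_image.2 ⟨(i, u), Finset.mem_univ _, rfl⟩)
  have hMi : ∀ i j, v (Mt i j) ≤ 1 := fun i j => hF _ (by
    simp only [F, Finset.mem_union, Finset.mem_image]
    exact Or.inl (Or.inl (Or.inl (Or.inl ⟨(i, j), Finset.mem_univ _, rfl⟩))))
  have hdi : v (Mt.det⁻¹) ≤ 1 := hF _ (by
    simp only [F, Finset.mem_union, Finset.mem_singleton]
    exact Or.inl (Or.inl (Or.inl (Or.inr trivial))))
  have hbi : ∀ i j l, l < ρ j → ∀ t, v (σ i ((b j l).coeff t)) ≤ 1 := by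
    intro i j l hl t
    by_cases ht : t ∈ (b j l).support
    · refine hF _ ?_
      simp only [F, Finset.mem_union]
      refine Or.inl (Or.inl (Or.inr ?_))
      simp only [Finset.mem_biUnion, Finset.mem_image, Finset.mem_univ, true_and, Finset.mem_range]
      exact ⟨i, j, l, hl, t, ht, rfl⟩
    · rw [notMem_support_iff.1 ht, map_zero, v.map_zero]
      exact zero_le_one
  have hABi : ∀ i t, v (σ i (A.coeff t)) ≤ 1 ∧ v (σ i (B.coeff t)) ≤ 1 := by
    intro i t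
    constructor
    · by_cases ht : t ∈ A.support
      · refine hF _ ?_
        simp only [F, Finset.mem_union]
        refine Or.inl (Or.inr ?_)
        simp only [Finset.mem_biUnion, Finset.mem_image, Finset.mem_univ, true_and]
        exact ⟨i, t, ht, rfl⟩
      · rw [notMem_support_iff.1 ht, map_zero, v.map_zero]
        exact zero_le_one
    · by_cases ht : t ∈ B.support
      · refine hF _ ?_
        simp only [F, Finset.mem_union]
        refine Or.inr ?_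
        simp only [Finset.mem_biUnion, Finset.mem_image, Finset.mem_univ, true_and]
        exact ⟨i, t, ht, rfl⟩
      · rw [notMem_support_iff.1 ht, map_zero, v.map_zero]
        exact zero_le_one
  -- the reduced matrix
  set Θ : Matrix (Fin N) (Fin N) k := Matrix.of fun i j => r (Mt i j) with hΘ
  have hΘdet : Θ.det ≠ 0 := by
    obtain ⟨h1, h2⟩ := COR_.red_det hr Mt hMi
    rw [← h2]
    intro h0
    rw [hr.ker _ h1] at h0
    rw [map_inv₀] at hdi
    have hpos : 0 < v Mt.det := v.pos hdet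
    have := (inv_le_one₀ hpos).1 hdi
    linarith
  -- the eliminants
  have hΨex : ∀ (j : Fin N) (S J W : Finset (Fin g)) (τ : Fin g → Fin g → k),
      ∃ Ψ : MvPolynomial (Fin g × {α // α ∈ I}) k, Ψ ≠ 0 ∧ Ψ.totalDegree ≤ M ∧
      (Disjoint S W → J ⊆ W → S.card + J.card = d + 1 → ∀ ty c x s h,
        Sys ρ (bty (fun x => r (σ j x)) ρ b ty) (fun α : {α // α ∈ I} => uty k ty α.1)
          ⟨al0 D ty, hI ty⟩ S J W τ c x s h → eval c Ψ = 0) := fun j S J W τ =>
    hM Ω k (v.comp (σ j).injective) (fun x => r (σ j x)) (hr.comp (σ j)) b hb S J W τ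
  choose Ψ hΨ0 hΨd hΨ using hΨex
  obtain ⟨Bp, hBc, hBp⟩ := COR_.union (g := g) hCNT p Θ hΘdet M (by omega) Ψ
    (fun j S J W τ => ⟨hΨ0 j S J W τ, hΨd j S J W τ⟩)
  refine ⟨Bp, hBc, fun β a hβ hβ2 hbad => ?_⟩
  -- valuation of β
  have hβ0 : (β : Ω) ≠ 0 := by
    intro h0
    have : β = 0 := by exact_mod_cast h0
    exact hβ2 (this ▸ dvd_zero _)
  have hvβ : v (β : Ω) = v (p : Ω) := by
    obtain ⟨q, rfl⟩ := hβ
    have hpq : ¬ p ∣ q := fun h => hβ2 (by rw [pow_two]; exact Nat.mul_dvd_mul_left p h)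
    have hcop : IsCoprime (q : ℤ) (p : ℤ) := by
      rw [Nat.isCoprime_iff_coprime]
      exact ((Nat.Prime.coprime_iff_not_dvd hpp).2 hpq).symm
    have h1 := na_coprime hr.na hvp hcop
    push_cast
    rw [v.map_mul]
    have h2 : v ((q : ℕ) : Ω) = 1 := by exact_mod_cast h1
    rw [h2, mul_one]
  set c : Fin g × {α // α ∈ I} → Ω := fun u => algebraMap K Ω (∑ l, (a u l : ℚ) • w l) / (β : Ω)
    with hc
  have hβc : ∀ i u, σ i ((β : Ω) * c u) = ∑ l, ((a u l : ℤ) : Ω) * Mt i l := by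
    intro i u
    have h1 : (β : Ω) * c u = algebraMap K Ω (∑ l, (a u l : ℚ) • w l) := by
      rw [hc]
      field_simp
    rw [h1, map_sum, map_sum]
    refine Finset.sum_congr rfl fun l _ => ?_
    have h2 : ((a u l : ℚ) • w l : K) = ((a u l : ℤ) : K) * w l := by
      rw [Algebra.smul_def]
      simp
    rw [h2, map_mul, map_mul, map_intCast, map_intCast]
    rfl
  have hci : ∀ i u, v (σ i ((β : Ω) * c u)) ≤ 1 := by
    intro i u
    rw [hβc]
    refine na_sum hr.na _ _ _ zero_le_one fun l _ => ?_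
    rw [v.map_mul]
    exact mul_le_one₀ (na_int hr.na _) (v.nonneg _) (hMi _ _)
  have hcr : ∀ i u, r (σ i ((β : Ω) * c u)) =
      ∑ l, Θ i l * ZMod.castHom (dvd_refl p) k ((a u l : ZMod p)) := by
    intro i u
    rw [hβc, hr.sum _ _ fun l _ => by
      rw [v.map_mul]
      exact mul_le_one₀ (na_int hr.na _) (v.nonneg _) (hMi _ _)]
    refine Finset.sum_congr rfl fun l _ => ?_
    rw [hr.mul _ _ (na_int hr.na _) (hMi _ _), hr.int, mul_comm]
    congr 1
    simp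
  -- the fixed part
  have hβF : ∀ i u, v (σ i ((β : Ω) * F0 u)) < 1 := by
    intro i u
    rw [map_mul, v.map_mul, map_natCast, hvβ]
    calc v (p : Ω) * v (σ i (F0 u)) ≤ v (p : Ω) * 1 :=
          mul_le_mul_of_nonneg_left (hF0 i u) (v.nonneg _)
      _ < 1 := by rw [mul_one]; exact hvp
  have hFr : ∀ i u, r (σ i ((β : Ω) * F0 u)) = 0 := fun i u => (hr.ker _ (hβF i u).le).2 (hβF i u)
  have hcf : ∀ i u, v (σ i ((β : Ω) * cf I F0 c u)) ≤ 1 ∧
      r (σ i ((β : Ω) * cf I F0 c u)) =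
        if h : u.2 ∈ I then r (σ i ((β : Ω) * c (u.1, ⟨u.2, h⟩))) else 0 := by
    intro i u
    unfold cf
    rw [mul_add, map_add]
    by_cases h : u.2 ∈ I
    · rw [dif_pos h, dif_pos h]
      refine ⟨(hr.na _ _).trans (max_le (hβF i u).le (hci i _)), ?_⟩
      rw [hr.add _ _ (hβF i u).le (hci i _), hFr, zero_add]
    · rw [dif_neg h, dif_neg h, mul_zero, map_zero, add_zero]
      exact ⟨(hβF i u).le, hFr i u⟩
  obtain ⟨G, S, J, W, τ, hG, hSW, hJW, hSJ, hτ, hsys⟩ :=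
    COR_.step hREL hGRP hPLC hr hpp (by omega) hvp hmD σ hK ρ b A B hb hbi hABi hA hB
      (β : Ω) (cf I F0 c) (fun i => by rw [map_natCast]; exact hvβ) (fun i u => (hcf i u).1) hbad
  refine hBp _ G S J W τ hG hτ fun j hj => ?_
  obtain ⟨ty, x', s', h, hs1, hs2, hs3, hs4, hs5⟩ := hsys j hj
  have hsum : ∀ i, ∑ α : MonS d n D, r (σ j ((β : Ω) * cf I F0 c (i, α))) *
      eval (Sum.elim x' s') (uty k ty α) =
      ∑ α : {α // α ∈ I}, r (σ j ((β : Ω) * c (i, α))) *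
        eval (Sum.elim x' s') (uty k ty α.1) := by
    intro i
    rw [sum_restrict I _ (fun α hα => by rw [(hcf j (i, α)).2, dif_neg hα, zero_mul])]
    refine Finset.sum_congr rfl fun α _ => ?_
    rw [(hcf j (i, α.1)).2, dif_pos α.2]
  have h1 := hΨ j S J W τ hSW hJW hSJ ty (fun u => r (σ j ((β : Ω) * c u))) x' s' h
    ⟨hs1, hs2, fun i hi => by rw [← hsum i]; exact hs3 i hi,
      fun i hi => by rw [← hsum i]; exact hs4 i hi, hs5⟩
  rw [← h1]
  congr 1
  congr 1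
  funext u
  exact (hcr j u).symm

end COR_

theorem p_COR2 (hREL : T_REL) (hGRP : T_GRP) (hPLC : T_PLC) (hELI : T_ELI) (hCNT : T_CNT)
    (hEXP : T_EXP) (hALM : T_ALM) (hEMB : T_EMB) : T_COR2 := by
  intro K Ω _ _ _ _ _ _ _ _ g d n m D hmD hK w ρ b A B I F0 hI hb hA hB
  obtain ⟨σ, hσ⟩ := hEMB K Ω
  exact COR_.core2 hREL hGRP hPLC hELI hCNT hEXP hALM K Ω g d n m D _ hmD hK w σ (hσ w) ρ b A B
    I F0 hI hb hA hB

end PKD
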