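import Pool.Agent.PKD.Targets
import Pool.Agent.PKD.RedLem
import Pool.Agent.RD.RFD
import Pool.Agent.UMR.EXT

set_option autoImplicit false

/-!
EXP: places above every prime
-/

namespace PKD

open RD.RFD_

theorem EXP_.exists_abs (Ω : Type) [Field Ω] [CharZero Ω] [Algebra.IsAlgebraic ℚ Ω] (p : ℕ)
    (hp : p.Prime) : ∃ v : AbsoluteValue Ω ℝ, IsNonarchimedean v ∧ v (p : Ω) < 1 := by
  have : Fact p.Prime := ⟨hp⟩
  obtain ⟨V, hV1, hV2⟩ := Pool.Agent.UMR.p_EXT ℚ Ω (Rat.AbsoluteValue.padic p)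
    (fun x y => by
      rw [Rat.AbsoluteValue.padic_eq_padicNorm, Rat.AbsoluteValue.padic_eq_padicNorm,
        Rat.AbsoluteValue.padic_eq_padicNorm]
      exact_mod_cast padicNorm.nonarchimedean)
  refine ⟨V, fun x y => hV1 x y, ?_⟩
  have h1 := hV2 (p : ℚ)
  rw [map_natCast] at h1
  rw [h1, Rat.AbsoluteValue.padic_eq_padicNorm, padicNorm.padicNorm_p_of_prime]
  push_cast
  exact inv_lt_one_of_one_lt₀ (by exact_mod_cast hp.one_lt)

theorem p_EXP : T_EXP := by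
  intro Ω _ _ _ p hp
  obtain ⟨v, hv, hvp⟩ := EXP_.exists_abs Ω p hp
  classical
  have hmax := isMaximal v hv
  let fk : Field (OO v hv ⧸ II v hv) := Ideal.Quotient.field (II v hv)
  let r : Ω → (OO v hv ⧸ II v hv) := fun x =>
    if h : v x ≤ 1 then Ideal.Quotient.mk (II v hv) (⟨x, h⟩ : OO v hv) else 0
  have hr : ∀ (x : Ω) (h : v x ≤ 1), r x = Ideal.Quotient.mk (II v hv) (⟨x, h⟩ : OO v hv) :=
    fun x h => dif_pos h
  have hred : Red v r := by
    refine ⟨hv, ?_, ?_, ?_, ?_⟩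
    · have h1 : v 1 ≤ 1 := by rw [map_one]
      rw [hr 1 h1]
      exact map_one (Ideal.Quotient.mk (II v hv))
    · intro x y hx hy
      have hxy : v (x + y) ≤ 1 := (hv x y).trans (max_le hx hy)
      rw [hr x hx, hr y hy, hr _ hxy]
      exact map_add (Ideal.Quotient.mk (II v hv)) (⟨x, hx⟩ : OO v hv) (⟨y, hy⟩ : OO v hv)
    · intro x y hx hy
      have hxy : v (x * y) ≤ 1 := by
        rw [map_mul]
        exact mul_le_one₀ hx (v.nonneg _) hy
      rw [hr x hx, hr y hy, hr _ hxy]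
      exact map_mul (Ideal.Quotient.mk (II v hv)) (⟨x, hx⟩ : OO v hv) (⟨y, hy⟩ : OO v hv)
    · intro x hx
      rw [hr x hx, Ideal.Quotient.eq_zero_iff_mem]
      exact Iff.rfl
  exact ⟨v, OO v hv ⧸ II v hv, fk, hred.charP hp hvp, r, hred, hvp⟩

end PKD
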