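import Pool.Agent.PKD.Targets

/-! The final assembly. -/

set_option autoImplicit false
set_option maxHeartbeats 4000000

namespace PKD

open MvPolynomial RD Filter

theorem p_FIN (hCOR : T_COR) (hSIV : T_SIV) : T_FIN := by
  classical
  intro K _ _ _ g d n m D hmD hK w ρ b A B hb hA hB
  obtain ⟨C, p0, hC⟩ := hCOR K (AlgebraicClosure K) g d n m D hmD hK w ρ b A B hb hA hB
  have hex : ∀ p : ℕ, ∃ Bp : Finset ((Fin g × MonS d n D) → Fin (Module.finrank ℚ K) → ZMod p),
      p0 ≤ p → p.Prime →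
      Bp.card * p ≤ C * p ^ (Module.finrank ℚ K * Fintype.card (Fin g × MonS d n D)) ∧
      ∀ (β : ℕ) (a : (Fin g × MonS d n D) → Fin (Module.finrank ℚ K) → ℤ), p ∣ β → ¬ p ^ 2 ∣ β →
        BadAt D ρ b A B (fun u => algebraMap K (AlgebraicClosure K) (∑ l, (a u l : ℚ) • w l) /
          (β : AlgebraicClosure K)) →
        (fun u l => (a u l : ZMod p)) ∈ Bp := by
    intro p
    by_cases h : p0 ≤ p ∧ p.Prime
    · obtain ⟨Bp, h1⟩ := hC p h.1 h.2
      exact ⟨Bp, fun _ _ => h1⟩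
    · exact ⟨∅, fun h1 h2 => absurd ⟨h1, h2⟩ h⟩
  choose Bp hBp using hex
  let κ := (Fin g × MonS d n D) × Fin (Module.finrank ℚ K)
  have hcard : Fintype.card κ = Module.finrank ℚ K * Fintype.card (Fin g × MonS d n D) := by
    simp only [κ, Fintype.card_prod, Fintype.card_fin]
    ring
  have h1 := hSIV κ C p0 (fun p => (Bp p).map
      (Equiv.curry (Fin g × MonS d n D) (Fin (Module.finrank ℚ K)) (ZMod p)).symm.toEmbedding)
    (fun β a => BadAt D ρ b A B (fun u => algebraMap K (AlgebraicClosure K)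
      (∑ l, (a (u, l) : ℚ) • w l) / (β : AlgebraicClosure K)))
    (fun p hp hpp => by
      rw [Finset.card_map, hcard]
      exact (hBp p hp hpp).1)
    (fun p hp hpp β a h2 h3 h4 => by
      have h5 := (hBp p hp hpp).2 β (fun u l => a (u, l)) h2 h3 h4
      rw [Finset.mem_map]
      refine ⟨_, h5, ?_⟩
      funext x
      rfl)
  rw [hcard] at h1
  refine h1.congr fun H => ?_
  congr 2
  refine Nat.card_congr (Equiv.subtypeEquiv ((Equiv.refl ℕ).prodCongr
    (Equiv.curry (Fin g × MonS d n D) (Fin (Module.finrank ℚ K)) ℤ)) fun x => ?_)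
  simp only [Equiv.prodCongr_apply, Prod.map_fst, Prod.map_snd, Equiv.refl_apply, Equiv.curry_apply]
  constructor
  · rintro ⟨a1, a2, a3, a4⟩
    exact ⟨a1, a2, fun u l => a3 (u, l), a4⟩
  · rintro ⟨a1, a2, a3, a4⟩
    exact ⟨a1, a2, fun i => a3 i.1 i.2, a4⟩

end PKD
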