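import Pool.Agent.PKD.Targets
import Pool.Agent.PKD.RedLem
import Pool.Agent.RD.PIV
import Pool.Agent.RD.DIM
import Pool.Agent.RD.QFD

set_option autoImplicit false

/-!
GRP: pigeonhole over the embeddings, and a pivot basis whose residues are the same for all the
embeddings of the group
-/

namespace PKD

namespace GRP_

theorem root_cases {Ω : Type} [Field Ω] (a b : Ω) (t n : ℤ) (ha : a ^ 2 = t * a - n)
    (hb : b ^ 2 = t * b - n) : b = a ∨ b = t - a := by
  have h : (b - a) * (b - (t - a)) = 0 := by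
    linear_combination hb - ha
  rcases mul_eq_zero.mp h with h | h
  · exact Or.inl (sub_eq_zero.mp h)
  · exact Or.inr (sub_eq_zero.mp h)

theorem sigma_root {Ω : Type} [Field Ω] (σ : Ω →+* Ω) (a : Ω) (t n : ℤ)
    (ha : a ^ 2 = t * a - n) : (σ a) ^ 2 = t * σ a - n := by
  have := congrArg σ ha
  rw [map_pow, map_sub, map_mul, map_intCast, map_intCast] at this
  exact this

theorem sigma_eq {Ω : Type} [Field Ω] [CharZero Ω] (σ σ' : Ω →+* Ω) (a : Ω) (t n : ℤ)
    (ha : a ^ 2 = t * a - n) (h : σ a = σ' a) :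
    ∀ x ∈ IntermediateField.adjoin ℚ {a}, σ x = σ' x := by
  intro x hx
  obtain ⟨q, r, s, hq, hx⟩ := RD.p_QFD Ω a t n ha x hx
  have h1 := congrArg σ hx
  have h2 := congrArg σ' hx
  rw [map_mul, map_add, map_mul, map_intCast, map_intCast, map_intCast] at h1 h2
  rw [h, ← h2] at h1
  exact mul_left_cancel₀ (Int.cast_ne_zero.mpr hq) h1

end GRP_

open GRP_ in
theorem p_GRP (hR : T_RES) : T_GRP := by
  intro Ω k _ _ _ p v r hr hp hvp N g e q σ hN a t n ha U hU S
  classical
  have hcardT : (Finset.univ : Finset (Finset (Fin g) × Bool)).card * q <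
      (Finset.univ : Finset (Fin N)).card := by
    rw [Finset.card_univ, Finset.card_univ, Fintype.card_prod, Fintype.card_finset,
      Fintype.card_fin, Fintype.card_fin, Fintype.card_bool, ← pow_succ]
    exact hN
  obtain ⟨key, _, hkey⟩ := Finset.exists_lt_card_fiber_of_mul_lt_card_of_maps_to
    (f := fun j : Fin N => ((S j, decide (σ j a = a)) : Finset (Fin g) × Bool))
    (s := Finset.univ) (t := Finset.univ) (fun j _ => Finset.mem_univ _) hcardT
  obtain ⟨G, hG, hGc⟩ := Finset.exists_subset_card_eq (Nat.succ_le_of_lt hkey)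
  have hGne : G.Nonempty := by
    rw [← Finset.card_pos, hGc]
    exact Nat.succ_pos _
  obtain ⟨j0, hj0⟩ := hGne
  have hGkey : ∀ j ∈ G, (S j, decide (σ j a = a)) = key := fun j hj =>
    (Finset.mem_filter.mp (hG hj)).2
  have hS : ∀ j ∈ G, S j = S j0 := by
    intro j hj
    have h1 := hGkey j hj
    rw [← hGkey j0 hj0] at h1
    exact congrArg Prod.fst h1
  have hσa : ∀ j ∈ G, σ j a = σ j0 a := by
    intro j hj
    have h1 := hGkey j hj
    rw [← hGkey j0 hj0] at h1
    have h2 : decide (σ j a = a) = decide (σ j0 a = a) := congrArg Prod.snd h1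
    have h3 : (σ j a = a) ↔ (σ j0 a = a) := decide_eq_decide.mp h2
    by_cases h4 : σ j0 a = a
    · rw [h4, h3.mpr h4]
    · have h5 : σ j a ≠ a := fun h => h4 (h3.mp h)
      rcases root_cases a (σ j a) t n ha (sigma_root (σ j) a t n ha) with h6 | h6
      · exact absurd h6 h5
      · rcases root_cases a (σ j0 a) t n ha (sigma_root (σ j0) a t n ha) with h7 | h7
        · exact absurd h7 h4
        · rw [h6, h7]
  have hσ : ∀ j ∈ G, ∀ x ∈ IntermediateField.adjoin ℚ {a}, σ j x = σ j0 x := fun j hj =>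
    sigma_eq (σ j) (σ j0) a t n ha (hσa j hj)
  obtain ⟨J, τ, hJ, hτ⟩ := RD.p_PIV (IntermediateField.adjoin ℚ {a}) (fun x : (IntermediateField.adjoin ℚ {a}) => v (σ j0 (x : Ω))) (by simp)
    (fun x hx => v.pos (by
      rw [Ne, map_eq_zero]
      intro h
      exact hx (Subtype.ext h)))
    (fun x y => by simp) (fun x y => by
      have := hr.na (σ j0 (x : Ω)) (σ j0 (y : Ω))
      rw [← map_add] at this
      exact this) g
    (U ⊓ (⨅ i ∈ S j0, LinearMap.ker (LinearMap.proj i : (Fin g → (IntermediateField.adjoin ℚ {a})) →ₗ[(IntermediateField.adjoin ℚ {a})] (IntermediateField.adjoin ℚ {a}))) :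
        Submodule (IntermediateField.adjoin ℚ {a}) (Fin g → (IntermediateField.adjoin ℚ {a})))
  have hdim := RD.p_DIM (IntermediateField.adjoin ℚ {a}) g U (S j0)
  rw [hU, ← hJ] at hdim
  have hmem : ∀ i ∈ J, τ i ∈ U ∧ ∀ i' ∈ S j0, τ i i' = 0 := by
    intro i hi
    have h1 := (hτ i hi).1
    rw [Submodule.mem_inf] at h1
    refine ⟨h1.1, ?_⟩
    intro i' hi'
    have h2 := h1.2
    simp only [Submodule.mem_iInf] at h2
    exact h2 i' hi'
  refine ⟨G, S j0, J, τ, fun i i' => if i ∈ J then r (σ j0 (τ i i' : Ω)) else 0, hGc, hS, ?_,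
    hdim, ?_, ?_⟩
  · rw [Finset.disjoint_left]
    intro i hi hi'
    have h1 := (hτ i hi).2.1
    rw [(hmem i hi).2 i hi'] at h1
    exact zero_ne_one h1
  · intro i i'
    simp only
    split_ifs with hi
    · obtain ⟨q', r', s', hq', hx'⟩ := RD.p_QFD Ω a t n ha (τ i i' : Ω) (τ i i').2
      have h1 := congrArg (σ j0) hx'
      rw [map_mul, map_add, map_mul, map_intCast, map_intCast, map_intCast] at h1
      exact hR Ω k p v r hr hp hvp (σ j0 a) (σ j0 (τ i i' : Ω)) t n q' r' s'
        (sigma_root (σ j0) a t n ha) hq' h1 ((hτ i hi).2.2.2 i')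
    · exact zero_pow (pow_ne_zero 2 hp.ne_zero)
  · intro i hi
    refine ⟨(hmem i hi).1, (hτ i hi).2.1, (hτ i hi).2.2.1, (hmem i hi).2, ?_⟩
    intro j hj i'
    rw [hσ j hj (τ i i' : Ω) (τ i i').2]
    refine ⟨(hτ i hi).2.2.2 i', ?_⟩
    simp only [hi, if_true]

end PKD
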