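import Pool.Agent.PKD.Targets
import Pool.Agent.PKD.RedLem
import Pool.Agent.RD.LEM

set_option autoImplicit false

/-!
# LEM: a relation over `ℤ[ω]` gives an inequality between the parameters
-/

namespace PKD

open WeierstrassCurve.Affine RD

namespace LEM_

open RD.LEM_ (natCast_le intCast_le sub_le sum_le sum_lt eq_of_lt eqn zz_zero inE_zero)

section val

variable {K : Type} [Field K] {v : AbsoluteValue K ℝ}

/-- On `E_R` one has `v y ^ 2 = v x ^ 3`. -/
theorem y_sq {p : ℕ} {R : ℝ} {a4 a6 : K} (hc : Cx p v R a4 a6) {x y : K} (hx : R < v x)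
    (h : y ^ 2 = ff 0 a4 a6 x) : v y ^ 2 = v x ^ 3 := by
  have hR : 0 < R := by linarith [hc.one_le]
  have hx0 : 0 < v x := hR.trans hx
  have h2 : v (a4 * x) < v (x ^ 3) := by
    rw [map_mul, map_pow]
    calc v a4 * v x ≤ R ^ 2 * v x := by gcongr; exact hc.h4
      _ < v x ^ 2 * v x := by gcongr
      _ = v x ^ 3 := by ring
  have h3 : v a6 < v (x ^ 3) := by
    rw [map_pow]
    calc v a6 ≤ R ^ 3 := hc.h6
      _ < v x ^ 3 := by gcongr
  have h4 : v (a4 * x + a6) < v (x ^ 3) :=
    (hc.na _ _).trans_lt (max_lt h2 h3)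
  rw [← map_pow, h, ff]
  have e : x ^ 3 + 0 * x ^ 2 + a4 * x + a6 = x ^ 3 + (a4 * x + a6) := by ring
  rw [e, eq_of_lt hc.na h4, map_pow]

/-- A point of `E_R` with small local parameter is in `E_B`. -/
theorem inE_of_zz {p : ℕ} {R B : ℝ} {a4 a6 : K} (hc : Cx p v R a4 a6)
    (P : (curve 0 a4 a6).Point) (hP : InE v R P) (h : B * v (zz P) ^ 2 < 1) : InE v B P := by
  rcases P with _ | ⟨x, y, hxy⟩
  · trivial
  · have hx : R < v x := hP
    have hR : 0 < R := by linarith [hc.one_le]
    have hx0 : 0 < v x := hR.trans hx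
    have h1 := y_sq hc hx (eqn hxy)
    have h2 : v (zz (WeierstrassCurve.Affine.Point.some x y hxy)) ^ 2 = 1 / v x := by
      show v (x / y) ^ 2 = 1 / v x
      rw [map_div₀, div_pow, h1]
      field_simp
    rw [h2, mul_one_div, div_lt_one hx0] at h
    exact h

end val

end LEM_

open LEM_ in
open RD.LEM_ (natCast_le intCast_le sub_le sum_le sum_lt eq_of_lt eqn zz_zero inE_zero) in
theorem p_LEM (h1 : T_NSM) (h2 : T_SUM) : T_LEM := by
  intro K _ _ _ p v R a4 a6 hc ω a B C hRB hC0 hω g P S M N β Θ hβ0 hΘ hβp hS hθ hfin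
  classical
  have na := hc.na
  have hR : 0 < R := by linarith [hc.one_le]
  have hvp : v (p : K) < 1 := hc.vp
  have hp0 : (p : K) ≠ 0 := by
    have := hc.pp.ne_zero
    exact_mod_cast this
  have hvp0 : 0 < v (p : K) := v.pos hp0
  -- the number that kills the sum
  obtain ⟨q, hq, hq0⟩ := isOfFinAddOrder_iff_nsmul_eq_zero.1 hfin
  have hqK : (q : K) ≠ 0 := by exact_mod_cast hq.ne'
  have hvq : 0 < v (q : K) := v.pos hqK
  set b : Fin g → K := fun i => zz (P i) with hb
  have hbβ : ∀ i ∈ S, v (b i) ≤ β := fun i hi => (hS i hi).2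
  have hstrong : ∀ i ∈ S, R ^ 2 * v (zz (P i)) ^ 4 < v (p : K) := by
    intro i hi
    refine lt_of_le_of_lt ?_ hβp
    have := (hS i hi).2
    gcongr
  -- constants
  set c : ℝ := v a + C + 1 with hcdef
  have hc1 : 1 ≤ c := by
    have := v.nonneg a
    linarith
  set D : ℝ := R ^ 2 * c ^ 5 + C with hD
  have hD0 : 0 < D := by positivity
  -- choice of `l`
  have htend : Filter.Tendsto (fun l : ℕ => v (p : K) ^ l) Filter.atTop (nhds 0) :=
    tendsto_pow_atTop_nhds_zero_of_lt_one (v.nonneg _) hvp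
  -- conditions: put `t = v p ^ l * β`
  obtain ⟨l, hl1, hl2, hl3, hl4⟩ : ∃ l : ℕ, v (p : K) ^ l * β ≤ 1 ∧
      B * (v (p : K) ^ l * β) ^ 2 < 1 ∧ R * (c * (v (p : K) ^ l * β)) ^ 2 ≤ 1 ∧
      D * (v (p : K) ^ l * β) ^ 3 < v (p : K) ^ l * v (q : K) * (Θ * β) := by
    have t1 : Filter.Tendsto (fun l : ℕ => v (p : K) ^ l * β) Filter.atTop (nhds 0) := by
      simpa using htend.mul_const β
    have t2 : Filter.Tendsto (fun l : ℕ => B * (v (p : K) ^ l * β) ^ 2) Filter.atTop (nhds 0) := by
      simpa using (t1.pow 2).const_mul B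
    have t3 : Filter.Tendsto (fun l : ℕ => R * (c * (v (p : K) ^ l * β)) ^ 2) Filter.atTop
        (nhds 0) := by
      simpa using ((t1.const_mul c).pow 2).const_mul R
    have t4 : Filter.Tendsto (fun l : ℕ => D * (v (p : K) ^ l * β) ^ 2 * β) Filter.atTop
        (nhds 0) := by
      simpa using ((t1.pow 2).const_mul D).mul_const β
    have e1 := t1.eventually (gt_mem_nhds (zero_lt_one))
    have e2 := t2.eventually (gt_mem_nhds (zero_lt_one))
    have e3 := t3.eventually (gt_mem_nhds (zero_lt_one))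
    have e4 := t4.eventually (gt_mem_nhds (show (0 : ℝ) < v (q : K) * (Θ * β) by positivity))
    obtain ⟨l, h1, h2, h3, h4⟩ := (e1.and (e2.and (e3.and e4))).exists
    refine ⟨l, h1.le, h2, h3.le, ?_⟩
    have hp : 0 < v (p : K) ^ l := by positivity
    calc D * (v (p : K) ^ l * β) ^ 3 = v (p : K) ^ l * (D * (v (p : K) ^ l * β) ^ 2 * β) := by ring
      _ < v (p : K) ^ l * (v (q : K) * (Θ * β)) := by gcongr
      _ = v (p : K) ^ l * v (q : K) * (Θ * β) := by ring
  set t : ℝ := v (p : K) ^ l * β with ht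
  have ht0 : 0 < t := by positivity
  have hct0 : 0 < c * t := by positivity
  -- the errors of degree 5
  have hR4 : R ^ 2 * (c * t) ^ 4 ≤ 1 := by
    calc R ^ 2 * (c * t) ^ 4 = (R * (c * t) ^ 2) ^ 2 := by ring
      _ ≤ 1 := pow_le_one₀ (by positivity) hl3
  have hR5 : R ^ 2 * (c * t) ^ 5 ≤ c * t := by
    calc R ^ 2 * (c * t) ^ 5 = (R ^ 2 * (c * t) ^ 4) * (c * t) := by ring
      _ ≤ 1 * (c * t) := by gcongr
      _ = c * t := one_mul _
  have hD5 : R ^ 2 * (c * t) ^ 5 ≤ D * t ^ 3 := by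
    have ht2 : t ^ 2 ≤ 1 := pow_le_one₀ ht0.le hl1
    calc R ^ 2 * (c * t) ^ 5 = R ^ 2 * c ^ 5 * t ^ 3 * t ^ 2 := by ring
      _ ≤ R ^ 2 * c ^ 5 * t ^ 3 * 1 := by gcongr
      _ = R ^ 2 * c ^ 5 * t ^ 3 := mul_one _
      _ ≤ (R ^ 2 * c ^ 5 + C) * t ^ 3 := by gcongr; linarith
  have htc : t ≤ c * t := by
    calc t = 1 * t := (one_mul t).symm
      _ ≤ c * t := by gcongr
  have hRt5 : R ^ 2 * t ^ 5 ≤ R ^ 2 * (c * t) ^ 5 := by gcongr
  set m : ℕ := p ^ l * q with hm
  have hm0 : m ≠ 0 := by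
    have := hc.pp.ne_zero
    positivity
  have hmK : (m : K) ≠ 0 := by exact_mod_cast hm0
  have hvm : v (m : K) = v (p : K) ^ l * v (q : K) := by
    rw [hm]; push_cast; rw [map_mul, map_pow]
  have hvm0 : 0 < v (m : K) := v.pos hmK
  set Q : Fin g → (curve 0 a4 a6).Point := fun i => m • P i with hQ
  have hQE : ∀ i ∈ S, InE v R (Q i) := fun i hi =>
    (h1 K p v R a4 a6 hc (P i) (hS i hi).1).1 m
  -- `zz (Q i) = m (b i + η i)`
  set η : Fin g → K := fun i => zz (Q i) / m - b i with hη
  have hzQ : ∀ i, zz (Q i) = m * (b i + η i) := by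
    intro i
    rw [hη]
    field_simp
    ring
  have hηlt : ∀ i ∈ S, v (η i) < β := by
    intro i hi
    by_cases h0 : P i = 0
    · have : η i = 0 := by
        show zz (m • P i) / (m : K) - zz (P i) = 0
        rw [h0, smul_zero, zz_zero]
        simp
      rw [this, map_zero]
      exact hβ0
    · have h3 := (h1 K p v R a4 a6 hc (P i) (hS i hi).1).2.2 (hstrong i hi) m hm0 h0
      have h4 : v (m : K) * v (η i) < v (m : K) * v (b i) := by
        rw [← map_mul]
        have e : (m : K) * η i = zz (m • P i) - m * zz (P i) := by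
          show (m : K) * (zz (m • P i) / (m : K) - zz (P i)) = _
          field_simp
        rw [e]
        exact h3
      exact (lt_of_mul_lt_mul_left h4 hvm0.le).trans_le (hbβ i hi)
  have hzt : ∀ i ∈ S, v (zz (Q i)) ≤ t := by
    intro i hi
    rw [hzQ, map_mul]
    have h3 : v (b i + η i) ≤ β := (na _ _).trans (max_le (hbβ i hi) (hηlt i hi).le)
    calc v (m : K) * v (b i + η i) ≤ v (m : K) * β := by gcongr
      _ = v (p : K) ^ l * β * v (q : K) := by rw [hvm]; ring
      _ ≤ v (p : K) ^ l * β * 1 := by gcongr; exact natCast_le na q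
      _ = t := by rw [mul_one]
  have hQB : ∀ i ∈ S, InE v B (Q i) := by
    intro i hi
    apply inE_of_zz hc _ (hQE i hi)
    by_cases hB : 0 ≤ B
    · calc B * v (zz (Q i)) ^ 2 ≤ B * t ^ 2 := by
            have := hzt i hi
            gcongr
        _ < 1 := hl2
    · exact absurd (hR.le.trans hRB) hB
  -- properties of `ω (Q i)`
  have hωQ : ∀ i ∈ S, InE v R (ω (Q i)) ∧ v (zz (ω (Q i)) - a * zz (Q i)) ≤ C * t ^ 3 ∧
      v (zz (ω (Q i))) ≤ c * t := by
    intro i hi
    by_cases h0 : Q i = 0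
    · rw [h0, map_zero]
      refine ⟨inE_zero _ _, ?_, ?_⟩
      · rw [zz_zero]
        simp only [mul_zero, sub_zero, map_zero]
        positivity
      · rw [zz_zero, map_zero]
        positivity
    · obtain ⟨h3, h4⟩ := hω (Q i) h0 (hQB i hi)
      have h5 : v (zz (ω (Q i)) - a * zz (Q i)) ≤ C * t ^ 3 := by
        refine h4.trans ?_
        have := hzt i hi
        gcongr
      refine ⟨h3, h5, ?_⟩
      have e : zz (ω (Q i)) = (zz (ω (Q i)) - a * zz (Q i)) + a * zz (Q i) := by ring
      rw [e]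
      refine (na _ _).trans (max_le (h5.trans ?_) ?_)
      · have ht3 : t ^ 3 ≤ t := by
          calc t ^ 3 = t * t ^ 2 := by ring
            _ ≤ t * 1 := by
              gcongr
              exact pow_le_one₀ ht0.le hl1
            _ = t := mul_one t
        calc C * t ^ 3 ≤ C * t := by gcongr
          _ ≤ c * t := by
            gcongr
            have := v.nonneg a
            linarith
      · rw [map_mul]
        calc v a * v (zz (Q i)) ≤ v a * t := by
              have := hzt i hi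
              gcongr
          _ ≤ c * t := by
            gcongr
            linarith
  -- the points of the sum
  let Y : Fin g × Bool → (curve 0 a4 a6).Point := fun p =>
    if p.2 then M p.1 • Q p.1 else N p.1 • ω (Q p.1)
  let y : Fin g × Bool → K := fun p =>
    if p.2 then (M p.1 : K) * zz (Q p.1) else (N p.1 : K) * (a * zz (Q p.1))
  have hY : ∀ p ∈ S ×ˢ (Finset.univ : Finset Bool), InE v R (Y p) ∧ v (zz (Y p)) ≤ c * t ∧
      v (zz (Y p) - y p) ≤ D * t ^ 3 := by
    rintro ⟨i, o⟩ hp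
    have hi : i ∈ S := (Finset.mem_product.1 hp).1
    cases o with
    | true =>
      obtain ⟨h3, h4⟩ := (h1 K p v R a4 a6 hc (Q i) (hQE i hi)).2.1 (M i)
      have h5 : v (zz (Y (i, true)) - y (i, true)) ≤ R ^ 2 * t ^ 5 := by
        refine (show v (zz (M i • Q i) - (M i : K) * zz (Q i)) ≤ _ from h4).trans ?_
        have := hzt i hi
        gcongr
      refine ⟨h3, ?_, h5.trans (hRt5.trans hD5)⟩
      have e : zz (Y (i, true)) = (zz (Y (i, true)) - y (i, true)) + y (i, true) := by ring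
      rw [e]
      have hyt : v (y (i, true)) ≤ t := by
        show v ((M i : K) * zz (Q i)) ≤ t
        rw [map_mul]
        calc v (M i : K) * v (zz (Q i)) ≤ 1 * t := by
              apply mul_le_mul (intCast_le na _) (hzt i hi) (v.nonneg _) zero_le_one
          _ = t := one_mul t
      exact (na _ _).trans (max_le (h5.trans (hRt5.trans hR5)) (hyt.trans htc))
    | false =>
      obtain ⟨hw1, hw2, hw3⟩ := hωQ i hi
      obtain ⟨h3, h4⟩ := (h1 K p v R a4 a6 hc (ω (Q i)) hw1).2.1 (N i)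
      have h5 : v (zz (N i • ω (Q i)) - (N i : K) * zz (ω (Q i))) ≤ R ^ 2 * (c * t) ^ 5 := by
        refine h4.trans ?_
        gcongr
      refine ⟨h3, ?_, ?_⟩
      · have e : zz (N i • ω (Q i)) = (zz (N i • ω (Q i)) - (N i : K) * zz (ω (Q i))) +
            (N i : K) * zz (ω (Q i)) := by ring
        show v (zz (N i • ω (Q i))) ≤ c * t
        rw [e]
        refine (na _ _).trans (max_le (h5.trans hR5) ?_)
        rw [map_mul]
        calc v (N i : K) * v (zz (ω (Q i))) ≤ 1 * (c * t) := by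
              apply mul_le_mul (intCast_le na _) hw3 (v.nonneg _) zero_le_one
          _ = c * t := one_mul _
      · show v (zz (N i • ω (Q i)) - (N i : K) * (a * zz (Q i))) ≤ D * t ^ 3
        have e : zz (N i • ω (Q i)) - (N i : K) * (a * zz (Q i)) =
            (zz (N i • ω (Q i)) - (N i : K) * zz (ω (Q i))) +
            (N i : K) * (zz (ω (Q i)) - a * zz (Q i)) := by ring
        rw [e]
        refine (na _ _).trans (max_le (h5.trans hD5) ?_)
        rw [map_mul]
        calc v (N i : K) * v (zz (ω (Q i)) - a * zz (Q i)) ≤ 1 * (C * t ^ 3) := by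
              apply mul_le_mul (intCast_le na _) hw2 (v.nonneg _) zero_le_one
          _ = C * t ^ 3 := one_mul _
          _ ≤ (R ^ 2 * c ^ 5 + C) * t ^ 3 := by
            gcongr
            have : 0 ≤ R ^ 2 * c ^ 5 := by positivity
            linarith
  have hsum0 : ∑ p ∈ S ×ˢ (Finset.univ : Finset Bool), Y p = 0 := by
    rw [Finset.sum_product]
    have h3 : ∀ i, ∑ o : Bool, Y (i, o) = m • (M i • P i + N i • ω (P i)) := by
      intro i
      rw [Fintype.sum_bool]
      show M i • (m • P i) + N i • ω (m • P i) = _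
      rw [map_nsmul, smul_add, smul_comm (M i), smul_comm (N i)]
    simp only [h3]
    rw [← Finset.smul_sum, hm, mul_smul, hq0, smul_zero]
  have hmain : v (∑ p ∈ S ×ˢ (Finset.univ : Finset Bool), zz (Y p)) ≤ R ^ 2 * (c * t) ^ 5 := by
    have h3 := (h2 K p v R a4 a6 hc (Fin g × Bool) (S ×ˢ (Finset.univ : Finset Bool)) Y (c * t)
      (by positivity) (fun p hp => ⟨(hY p hp).1, (hY p hp).2.1⟩) hl3).2.2
    rw [hsum0, zz_zero, zero_sub, v.map_neg] at h3
    exact h3
  have hmain2 : v (∑ i ∈ S, ((M i : K) + (N i : K) * a) * zz (Q i)) ≤ D * t ^ 3 := by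
    have e1 : ∑ i ∈ S, ((M i : K) + (N i : K) * a) * zz (Q i) =
        ∑ p ∈ S ×ˢ (Finset.univ : Finset Bool), y p := by
      rw [Finset.sum_product]
      apply Finset.sum_congr rfl
      intro i _
      rw [Fintype.sum_bool]
      show _ = (M i : K) * zz (Q i) + (N i : K) * (a * zz (Q i))
      ring
    have e2 : ∑ p ∈ S ×ˢ (Finset.univ : Finset Bool), y p =
        ∑ p ∈ S ×ˢ (Finset.univ : Finset Bool), zz (Y p) -
          ∑ p ∈ S ×ˢ (Finset.univ : Finset Bool), (zz (Y p) - y p) := by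
      rw [Finset.sum_sub_distrib]
      ring
    rw [e1, e2]
    refine (sub_le na _ _).trans (max_le (hmain.trans hD5) ?_)
    exact sum_le na _ _ _ (by positivity) fun p hp => (hY p hp).2.2
  -- divide by `m`
  set θ : Fin g → K := fun i => (M i : K) + (N i : K) * a with hθdef
  have hθle : ∀ i ∈ S, v (θ i) ≤ Θ := hθ
  have h3 : v (∑ i ∈ S, θ i * (b i + η i)) < Θ * β := by
    have e : ∑ i ∈ S, θ i * zz (Q i) = (m : K) * ∑ i ∈ S, θ i * (b i + η i) := by
      rw [Finset.mul_sum]
      apply Finset.sum_congr rfl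
      intro i _
      rw [hzQ]
      ring
    have h4 : v (m : K) * v (∑ i ∈ S, θ i * (b i + η i)) < v (m : K) * (Θ * β) := by
      rw [← map_mul, ← e, hvm]
      exact hmain2.trans_lt hl4
    exact lt_of_mul_lt_mul_left h4 hvm0.le
  have h4 : v (∑ i ∈ S, θ i * η i) < Θ * β := by
    apply sum_lt na _ _ _ (by positivity)
    intro i hi
    rw [map_mul]
    calc v (θ i) * v (η i) ≤ Θ * v (η i) := by
          have := hθle i hi
          gcongr
      _ < Θ * β := by
          have := hηlt i hi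
          gcongr
  have e : ∑ i ∈ S, θ i * b i = ∑ i ∈ S, θ i * (b i + η i) - ∑ i ∈ S, θ i * η i := by
    rw [← Finset.sum_sub_distrib]
    apply Finset.sum_congr rfl
    intro i _
    ring
  show v (∑ i ∈ S, θ i * b i) < Θ * β
  rw [e]
  exact (sub_le na _ _).trans_lt (max_lt h3 h4)

end PKD
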