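import Pool.Agent.PKD.Targets

/-! PKD-NFB: polynomial functions in free coordinates and integral coordinates span a space of
small dimension. -/

set_option autoImplicit false

namespace PKD

open MvPolynomial

namespace NFB_

variable {k Y A : Type} [Field k] [Fintype A] {n : ℕ}

/-- the function of a monomial -/
def F (x : Y → A → k) (s : Y → Fin n → k) (γ : A → ℕ) (β : Fin n → ℕ) : Y → k :=
  fun y => (∏ a, x y a ^ γ a) * ∏ j, s y j ^ β j

/-- the generators -/
def gen (x : Y → A → k) (s : Y → Fin n → k) (ρ : Fin n → ℕ) (M : ℕ) :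
    (A → Fin (M + 1)) × (∀ j, Fin (ρ j)) → Y → k :=
  fun e => F x s (fun a => (e.1 a : ℕ)) (fun j => (e.2 j : ℕ))

theorem mem_W (x : Y → A → k) (s : Y → Fin n → k) (ρ : Fin n → ℕ)
    (b : Fin n → ℕ → MvPolynomial A k)
    (hb : ∀ j l, l < ρ j → (b j l).totalDegree ≤ ρ j - l)
    (hs : ∀ y j, s y j ^ ρ j + ∑ l ∈ Finset.range (ρ j), eval (x y) (b j l) * s y j ^ l = 0)
    (M : ℕ) : ∀ (N : ℕ) (γ : A → ℕ) (β : Fin n → ℕ), ∑ j, β j = N → ∑ a, γ a + ∑ j, β j ≤ M →
      F x s γ β ∈ Submodule.span k (Set.range (gen x s ρ M)) := by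
  classical
  intro N
  induction N using Nat.strong_induction_on with
  | _ N ih =>
    intro γ β hN hM
    by_cases hall : ∀ j, β j < ρ j
    · have hγ : ∀ a, γ a < M + 1 := by
        intro a
        have : γ a ≤ ∑ a, γ a := Finset.single_le_sum (fun _ _ => Nat.zero_le _) (Finset.mem_univ a)
        omega
      exact Submodule.subset_span ⟨(fun a => ⟨γ a, hγ a⟩, fun j => ⟨β j, hall j⟩), rfl⟩
    · push Not at hall
      obtain ⟨j, hj⟩ := hall
      have hsumβ : ∀ m : ℕ, ∑ i, Function.update β j m i + β j = ∑ i, β i + m := by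
        intro m
        rw [← Finset.add_sum_erase _ _ (Finset.mem_univ j),
          ← Finset.add_sum_erase _ β (Finset.mem_univ j), Function.update_self]
        have : ∑ i ∈ Finset.univ.erase j, Function.update β j m i = ∑ i ∈ Finset.univ.erase j, β i :=
          Finset.sum_congr rfl fun i hi => Function.update_of_ne (Finset.ne_of_mem_erase hi) _ _
        rw [this]
        ring
      have hprod : ∀ (y : Y) (m : ℕ), ∏ i, s y i ^ Function.update β j m i =
          s y j ^ m * ∏ i ∈ Finset.univ.erase j, s y i ^ β i := by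
        intro y m
        rw [← Finset.mul_prod_erase _ _ (Finset.mem_univ j), Function.update_self]
        congr 1
        exact Finset.prod_congr rfl fun i hi => by
          rw [Function.update_of_ne (Finset.ne_of_mem_erase hi)]
      have key : F x s γ β = - ∑ l ∈ Finset.range (ρ j), ∑ t ∈ (b j l).support,
          (b j l).coeff t • F x s (fun a => γ a + t a) (Function.update β j (β j - ρ j + l)) := by
        funext y
        simp only [F, Pi.neg_apply, Finset.sum_apply, Pi.smul_apply, smul_eq_mul]
        have h1 : ∏ i, s y i ^ β i = s y j ^ (β j - ρ j) * s y j ^ ρ j *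
            ∏ i ∈ Finset.univ.erase j, s y i ^ β i := by
          rw [← pow_add, Nat.sub_add_cancel hj, ← Finset.mul_prod_erase _ _ (Finset.mem_univ j)]
        have h2 : s y j ^ ρ j = - ∑ l ∈ Finset.range (ρ j), eval (x y) (b j l) * s y j ^ l :=
          eq_neg_of_add_eq_zero_left (hs y j)
        rw [h1, h2, mul_neg, neg_mul, mul_neg, neg_inj, Finset.mul_sum, Finset.sum_mul,
          Finset.mul_sum]
        refine Finset.sum_congr rfl fun l _ => ?_
        rw [eval_eq' (x y) (b j l)]
        simp only [hprod, pow_add, Finset.prod_mul_distrib]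
        rw [Finset.sum_mul, Finset.mul_sum, Finset.sum_mul, Finset.mul_sum]
        refine Finset.sum_congr rfl fun t _ => ?_
        ring
      rw [key]
      refine Submodule.neg_mem _ (Submodule.sum_mem _ fun l hl => Submodule.sum_mem _ fun t ht =>
        Submodule.smul_mem _ _ ?_)
      have hl' := Finset.mem_range.1 hl
      have hup := hsumβ (β j - ρ j + l)
      have ht1 : ∑ a, t a ≤ ρ j - l := by
        have h3 := le_totalDegree ht
        rw [Finsupp.sum_fintype _ _ (fun _ => rfl)] at h3
        exact h3.trans (hb j l hl')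
      refine ih (∑ i, Function.update β j (β j - ρ j + l) i) (by omega) _ _ rfl ?_
      rw [Finset.sum_add_distrib]
      omega

end NFB_

open NFB_ in
theorem p_NFB : T_NFB := by
  classical
  intro k Y A _ _ n ρ x s b hb hs M
  refine ⟨Submodule.span k (Set.range (gen x s ρ M)), ?_, ?_, ?_⟩
  · exact FiniteDimensional.span_of_finite k (Set.finite_range _)
  · refine (finrank_range_le_card (R := k) (gen x s ρ M)).trans (le_of_eq ?_)
    simp [Fintype.card_prod, Fintype.card_pi, mul_comm]
  · intro q hq
    have h1 : (fun y => eval (Sum.elim (x y) (s y)) q) = ∑ t ∈ q.support, q.coeff t •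
        F x s (fun a => t (Sum.inl a)) (fun j => t (Sum.inr j)) := by
      funext y
      simp only [Finset.sum_apply, Pi.smul_apply, smul_eq_mul, F]
      rw [eval_eq']
      refine Finset.sum_congr rfl fun t _ => ?_
      rw [Fintype.prod_sum_type]
      simp
    rw [h1]
    refine Submodule.sum_mem _ fun t ht => Submodule.smul_mem _ _ ?_
    refine mem_W x s ρ b hb hs M _ _ _ rfl ?_
    have h3 := (le_totalDegree ht).trans hq
    rwa [Finsupp.sum_fintype _ _ (fun _ => rfl), Fintype.sum_sum_type] at h3

end PKD
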