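import Pool.Agent.PKD.Targets
import Pool.Agent.PKD.RedLem
import Pool.Agent.PKD.EST
import Pool.Agent.RD.NSM

/-!
# Multiplication by integers
-/

set_option autoImplicit false

namespace PKD

open RD

namespace NSM_

open RD.NSM_

variable {K : Type} [Field K] {v : AbsoluteValue K ℝ}

section

variable [DecidableEq K]

/-- size of the local parameter -/
lemma zz_sq' {p : ℕ} {R : ℝ} {a4 a6 : K} (H : Cx p v R a4 a6) {P : (curve 0 a4 a6).Point}
    (hP : InE v R P) : R * v (zz P) ^ 2 < 1 ∧ (P ≠ 0 → 0 < v (zz P)) := by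
  cases P with
  | zero =>
    refine ⟨?_, fun h => absurd rfl h⟩
    show R * v (0 : K) ^ 2 < 1
    rw [map_zero]
    norm_num
  | some x y hxy =>
    have hx : R < v x := hP
    have h1 := H.one_le
    have hx0 : 0 < v x := by linarith
    have h2 := PKD.EST_.vy' H hx (eqn hxy)
    have hy0 : 0 < v y := by
      rcases (v.nonneg y).lt_or_eq with h | h
      · exact h
      · rw [← h] at h2
        have : 0 < v x ^ 3 := by positivity
        nlinarith
    have hz : v (zz (WeierstrassCurve.Affine.Point.some x y hxy)) = v x / v y := by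
      show v (x / y) = _
      rw [map_div₀]
    rw [hz]
    refine ⟨?_, fun _ => by positivity⟩
    rw [div_pow, h2, ← mul_div_assoc, div_lt_one (by positivity)]
    calc R * v x ^ 2 < v x * v x ^ 2 := by gcongr
      _ = v x ^ 3 := by ring

/-- the basic induction -/
lemma base' (h1 : T_ADD) {p : ℕ} {R : ℝ} {a4 a6 : K} (H : Cx p v R a4 a6)
    {P : (curve 0 a4 a6).Point} (hP : InE v R P) (n : ℕ) :
    InE v R (n • P) ∧ v (zz (n • P)) ≤ v (zz P) ∧
      v (zz (n • P) - (n : K) * zz P) ≤ R ^ 2 * v (zz P) ^ 5 := by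
  have hR := H.one_le
  have hz := (zz_sq' H hP).1
  have hz0 := v.nonneg (zz P)
  have hR3 : R ^ 2 * v (zz P) ^ 5 ≤ v (zz P) := by
    have : R ^ 2 * v (zz P) ^ 5 = (R * v (zz P) ^ 2) ^ 2 * v (zz P) := by ring
    rw [this]
    have h0 : 0 ≤ R * v (zz P) ^ 2 := by positivity
    have h2 : (R * v (zz P) ^ 2) ^ 2 ≤ 1 := pow_le_one₀ h0 hz.le
    calc (R * v (zz P) ^ 2) ^ 2 * v (zz P) ≤ 1 * v (zz P) := by gcongr
      _ = v (zz P) := one_mul _
  have hR3' : 0 ≤ R ^ 2 * v (zz P) ^ 5 := by positivity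
  induction n with
  | zero =>
    rw [zero_smul, zz_zero, Nat.cast_zero, zero_mul, sub_zero, map_zero]
    exact ⟨trivial, hz0, hR3'⟩
  | succ n ih =>
    obtain ⟨i1, i2, i3⟩ := ih
    rw [succ_nsmul]
    obtain ⟨j1, j2⟩ := h1 K p v R a4 a6 H (n • P) P i1 hP
    rw [max_eq_right i2] at j2
    refine ⟨j1, ?_, ?_⟩
    · have e : zz (n • P + P) = (zz (n • P + P) - zz (n • P) - zz P) + (zz (n • P) + zz P) := by
        ring
      rw [e]
      exact vadd_le H.na (j2.trans hR3) (vadd_le H.na i2 le_rfl)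
    · have e : zz (n • P + P) - ((n + 1 : ℕ) : K) * zz P =
          (zz (n • P + P) - zz (n • P) - zz P) + (zz (n • P) - (n : K) * zz P) := by
        push_cast
        ring
      rw [e]
      exact vadd_le H.na j2 i3

lemma rel' [CharZero K] (h1 : T_ADD) {p : ℕ} {R : ℝ} {a4 a6 : K}
    (H : Cx p v R a4 a6) {P : (curve 0 a4 a6).Point} (hP : InE v R P) (hP0 : P ≠ 0)
    (hs : R ^ 2 * v (zz P) ^ 4 < v (p : K)) (n : ℕ)
    (hn : n ≠ 0) : v (zz (n • P) - (n : K) * zz P) < v (n : K) * v (zz P) := by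
  have hR := H.one_le
  obtain ⟨hz, hzp⟩ := zz_sq' H hP
  have hz0 := hzp hP0
  induction n using Nat.strong_induction_on with
  | _ n ih =>
    by_cases hdvd : p ∣ n
    · obtain ⟨k, rfl⟩ := hdvd
      have hk0 : k ≠ 0 := by
        rintro rfl
        exact hn (mul_zero p)
      have hp2 := H.pp.two_le
      have h3 := ih k (by nlinarith [Nat.pos_of_ne_zero hk0]) hk0
      have hkv : v (zz (k • P)) = v (k : K) * v (zz P) := by
        have e : zz (k • P) = (k : K) * zz P + (zz (k • P) - (k : K) * zz P) := by ring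
        rw [e, vadd_eq H.na, map_mul]
        rw [map_mul]
        exact h3
      have hkK : (k : K) ≠ 0 := by exact_mod_cast hk0
      have hkpos : 0 < v (k : K) := v.pos hkK
      have hpK : (p : K) ≠ 0 := by exact_mod_cast H.pp.ne_zero
      have hppos : 0 < v (p : K) := v.pos hpK
      have hkle : v (zz (k • P)) ≤ v (zz P) := (base' h1 H hP k).2.1
      have h4 := (base' h1 H (base' h1 H hP k).1 p).2.2
      have hkz : 0 < v (zz (k • P)) := by rw [hkv]; positivity
      have h5 : R ^ 2 * v (zz (k • P)) ^ 5 < v (p : K) * (v (k : K) * v (zz P)) := by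
        rw [← hkv]
        calc R ^ 2 * v (zz (k • P)) ^ 5 = (R ^ 2 * v (zz (k • P)) ^ 4) * v (zz (k • P)) := by ring
          _ ≤ (R ^ 2 * v (zz P) ^ 4) * v (zz (k • P)) := by gcongr
          _ < v (p : K) * v (zz (k • P)) := by gcongr
      have e2 : (p * k) • P = p • (k • P) := by rw [mul_smul]
      rw [e2]
      have e : zz (p • (k • P)) - ((p * k : ℕ) : K) * zz P =
          (zz (p • (k • P)) - (p : K) * zz (k • P)) +
            (p : K) * (zz (k • P) - (k : K) * zz P) := by
        push_cast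
        ring
      rw [e, Nat.cast_mul, map_mul v (p : K), mul_assoc]
      refine vadd_lt H.na (h4.trans_lt h5) ?_
      rw [map_mul]
      gcongr
    · have hcop : IsCoprime (n : ℤ) (p : ℤ) := by
        rw [Nat.isCoprime_iff_coprime, Nat.coprime_comm]
        exact (Nat.Prime.coprime_iff_not_dvd H.pp).2 hdvd
      have hvn : v (n : K) = 1 := by
        have := na_coprime H.na H.vp hcop
        simpa using this
      rw [hvn, one_mul]
      refine (base' h1 H hP n).2.2.trans_lt ?_
      calc R ^ 2 * v (zz P) ^ 5 = (R ^ 2 * v (zz P) ^ 4) * v (zz P) := by ring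
        _ < v (p : K) * v (zz P) := by gcongr
        _ < 1 * v (zz P) := by
          have := H.vp
          gcongr
        _ = v (zz P) := one_mul _

end

end NSM_

open NSM_ RD.NSM_ in
theorem p_NSM (h1 : T_ADD) : T_NSM := by
  intro K _ _ _ p v R a4 a6 H P hP
  refine ⟨fun n => (base' h1 H hP n).1, fun n => ?_, fun hs n hn hP0 => rel' h1 H hP hP0 hs n hn⟩
  obtain ⟨m, rfl | rfl⟩ := n.eq_nat_or_neg
  · rw [natCast_zsmul, Int.cast_natCast]
    exact ⟨(base' h1 H hP m).1, (base' h1 H hP m).2.2⟩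
  · rw [neg_smul, natCast_zsmul, Int.cast_neg, Int.cast_natCast, zz_neg]
    refine ⟨inE_neg (base' h1 H hP m).1, ?_⟩
    have e : - zz (m • P) - -(m : K) * zz P = -(zz (m • P) - (m : K) * zz P) := by ring
    rw [e, RD.NSM_.vneg]
    exact (base' h1 H hP m).2.2

end PKD
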