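import Pool.Agent.PKD.Targets
import Pool.Agent.PKD.RedLem

set_option autoImplicit false
set_option maxHeartbeats 4000000

/-!
PLC: everything at one place, from the two cases (MP_28d749_ag).
-/

namespace PKD

open MvPolynomial RD

namespace PLC_

theorem al0_none {k : Type} [Field k] {d n : ℕ} (D : ℕ) (x : Fin d ⊕ Fin n → k) :
    eval x (um k (al0 (d := d) (n := n) D none)) = 1 := by
  unfold um al0
  simp

theorem al0_some_sum {d n : ℕ} (D : ℕ) (m0 : Fin d) :
    ∑ j, ((al0 (d := d) (n := n) D (some m0)).1 j : ℕ) = D := by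
  unfold al0
  rw [Finset.sum_eq_single (Sum.inl m0)]
  · simp
  · intro b _ hb; simp [hb]
  · intro h; exact absurd (Finset.mem_univ _) h

theorem al0_some {k : Type} [Field k] {d n : ℕ} (D : ℕ) (m0 : Fin d) (x : Fin d ⊕ Fin n → k) :
    eval x (um k (al0 (d := d) (n := n) D (some m0))) = x (Sum.inl m0) ^ D := by
  unfold um al0
  rw [map_prod, Finset.prod_eq_single (Sum.inl m0)]
  · simp
  · intro b _ hb; simp [hb]
  · intro h; exact absurd (Finset.mem_univ _) h

end PLC_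

open PLC_ in
/-- PLC -/
theorem p_PLC (h1 : T_PLCM) (h2 : T_PLCI) : T_PLC := by
  intro Ω k _ _ _ _ _ p v r hr hp hp5 hvp d n m D g hmD ρ b hb A B hAB hA hB β c hβ hc x s hbase P
    hP
  by_cases hx : ∀ j, v (x j) ≤ 1
  · obtain ⟨μ, S, x', s', h, e1, e2, e3, e4, e5, e6, e7, e8⟩ :=
      h1 Ω k p v r hr hp hp5 hvp d n D g ρ b (fun j l hl => (hb j l hl).2) A B hAB β c hβ hc x s
        hbase hx P hP
    refine ⟨1, μ, S, none, x', s', h, e1, e2, by simpa using e3, e4, e5, ?_, e6, e7, e8⟩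
    show eval (Sum.elim x' s') (um k (al0 D none)) ≠ 0
    rw [al0_none]
    exact one_ne_zero
  · push Not at hx
    obtain ⟨j0, hj0⟩ := hx
    haveI : Nonempty (Fin d) := ⟨j0⟩
    obtain ⟨m0, hm0⟩ := Finite.exists_max fun j => v (x j)
    obtain ⟨R, μ, S, x', s', h, e0, e1, e2, e3, e4, e5, e6, e7, e8⟩ :=
      h2 Ω k p v r hr hp hp5 hvp d n m D g hmD ρ b hb A B hAB hA hB β c hβ hc x s
        hbase m0 (lt_of_lt_of_le hj0 (hm0 j0)) hm0 P hP
    refine ⟨R, μ, S, some m0, x', s', h, e1, e2, e3, e4, e5, ?_, e6, e7, e8⟩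
    show eval (Sum.elim x' s') (if ∑ j, ((al0 (d := d) (n := n) D (some m0)).1 j : ℕ) = D then
      um k (al0 D (some m0)) else 0) ≠ 0
    rw [if_pos (al0_some_sum D m0), al0_some, Sum.elim_inl, e0, one_pow]
    exact one_ne_zero

end PKD
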