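import Pool.Agent.PKD.Targets
import Pool.Agent.PKD.RedLem

set_option autoImplicit false

/-!
# The case of the points which are not integral (T_PLCI)
-/

namespace PKD

open MvPolynomial RD WeierstrassCurve.Affine

namespace PLCI_

variable {Ω k : Type} [Field Ω] [Field k] {v : AbsoluteValue Ω ℝ} {r : Ω → k}

/-- size of the values of a polynomial -/
theorem eval_size (hr : Red v r) {σ : Type} (q : MvPolynomial σ Ω) (hq : ∀ t, v (q.coeff t) ≤ 1)
    (e : ℕ) (he : q.totalDegree ≤ e) (s0 : Ω) (hs0 : 1 < v s0) (y : σ → Ω)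
    (hy : ∀ i, v (y i) ≤ 1) : v (eval (fun i => s0 * y i) q) ≤ v s0 ^ e := by
  have h := (rdT_eval hr q hq e he s0 hs0 y hy).1
  have h0 : 0 < v s0 ^ e := by positivity
  rw [v.map_mul, map_inv₀, v.map_pow, inv_mul_le_iff₀ h0, mul_one] at h
  exact h

/-- the local facts on a point with large abscissa -/
theorem local_fact (na : IsNonarchimedean v) (R : ℝ) (hR : 1 ≤ R) (a4 a6 X Y : Ω)
    (h4 : v a4 ≤ R ^ 2) (h6 : v a6 ≤ R ^ 3) (hX : R < v X)
    (heq : Y ^ 2 = X ^ 3 + a4 * X + a6) :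
    v (Y ^ 2) = v X ^ 3 ∧ v ((X / Y) ^ 2 * X - 1) < 1 := by
  have hR0 : 0 < R := by linarith
  have hX0 : 0 < v X := by linarith
  have h1 : v (a4 * X + a6) < v X ^ 3 := by
    refine (na _ _).trans_lt (max_lt ?_ ?_)
    · rw [v.map_mul]
      calc v a4 * v X ≤ R ^ 2 * v X := mul_le_mul_of_nonneg_right h4 hX0.le
        _ < v X ^ 2 * v X := mul_lt_mul_of_pos_right (pow_lt_pow_left₀ hX hR0.le two_ne_zero) hX0
        _ = v X ^ 3 := by ring
    · exact h6.trans_lt (pow_lt_pow_left₀ hX hR0.le three_ne_zero)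
  have h2 : v (Y ^ 2) = v X ^ 3 := by
    have : Y ^ 2 = X ^ 3 + (a4 * X + a6) := by rw [heq]; ring
    rw [this, na_eq na (by rw [v.map_pow]; exact h1), v.map_pow]
  refine ⟨h2, ?_⟩
  have hY0 : Y ≠ 0 := by
    rintro rfl
    rw [zero_pow two_ne_zero, v.map_zero] at h2
    have : 0 < v X ^ 3 := by positivity
    linarith
  have h3 : (X / Y) ^ 2 * X - 1 = -((a4 * X + a6) / Y ^ 2) := by
    field_simp
    rw [heq]
    ring
  rw [h3, v.map_neg, map_div₀, h2, div_lt_one (by positivity)]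
  exact h1

end PLCI_

open PLCI_

theorem p_PLCI : T_PLCI := by
  intro Ω k _ _ _ _ _ p v r hr hp hp5 hvp d n m D g hmD ρ b hb A B hAB hA hB β c hβ hc x s
    hbase m0 hm1 hmax P hP
  classical
  set s0 : Ω := x m0 with hs0def
  have hV0 : 0 < v s0 := by linarith
  have hs00 : s0 ≠ 0 := v.pos_iff.1 hV0
  have hvp0 : 0 < v (p : Ω) := v.pos (Nat.cast_ne_zero.2 hp.ne_zero)
  have hx1 : ∀ j, v (x j / s0) ≤ 1 := fun j => by
    rw [map_div₀, div_le_one hV0]
    exact hmax j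
  have hxe : (fun j => s0 * (x j / s0)) = x := by
    funext j
    field_simp
  -- the sizes of the integral coordinates
  have hble : ∀ j l, l < ρ j → v (eval x (b j l)) ≤ v s0 ^ (ρ j - l) := by
    intro j l hl
    have := eval_size hr (b j l) (hb j l hl).2 (ρ j - l) (hb j l hl).1 s0 hm1
      (fun j => x j / s0) hx1
    rwa [hxe] at this
  have hsle : ∀ j, v (s j) ≤ v s0 := by
    intro j
    by_contra hlt
    push Not at hlt
    have hs0' : 0 < v (s j) := hV0.trans hlt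
    have h3 := hbase j
    have h4 : v (∑ l ∈ Finset.range (ρ j), eval x (b j l) * s j ^ l) < v (s j) ^ ρ j := by
      refine na_sum_lt hr.na _ _ _ (by positivity) fun l hl => ?_
      rw [Finset.mem_range] at hl
      rw [v.map_mul, v.map_pow]
      calc v (eval x (b j l)) * v (s j) ^ l
          ≤ v s0 ^ (ρ j - l) * v (s j) ^ l :=
            mul_le_mul_of_nonneg_right (hble j l hl) (by positivity)
        _ < v (s j) ^ (ρ j - l) * v (s j) ^ l :=
            mul_lt_mul_of_pos_right (pow_lt_pow_left₀ hlt hV0.le (by omega)) (by positivity)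
        _ = v (s j) ^ ρ j := by rw [← pow_add, Nat.sub_add_cancel hl.le]
    have h6 : s j ^ ρ j = -∑ l ∈ Finset.range (ρ j), eval x (b j l) * s j ^ l :=
      eq_neg_of_add_eq_zero_left h3
    have h7 := congrArg v h6
    rw [v.map_neg, v.map_pow] at h7
    rw [← h7] at h4
    exact lt_irrefl _ h4
  have hs1 : ∀ j, v (s j / s0) ≤ 1 := fun j => by
    rw [map_div₀, div_le_one hV0]
    exact hsle j
  set y : Fin d ⊕ Fin n → Ω := Sum.elim (fun j => x j / s0) (fun j => s j / s0) with hy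
  have hy1 : ∀ j, v (y j) ≤ 1 := by
    rintro (j | j)
    · exact hx1 j
    · exact hs1 j
  have hye : (fun j => s0 * y j) = Sum.elim x s := by
    funext j
    rcases j with j | j
    · simp only [hy, Sum.elim_inl]
      field_simp
    · simp only [hy, Sum.elim_inr]
      field_simp
  set R : ℝ := v s0 ^ m with hR
  have hR1 : 1 ≤ R := one_le_pow₀ hm1.le
  have hA4 : v (eval (Sum.elim x s) A) ≤ R ^ 2 := by
    have := eval_size hr A (fun t => (hAB t).1) (2 * m) hA s0 hm1 y hy1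
    rw [hye] at this
    rw [hR, ← pow_mul, mul_comm m 2]
    exact this
  have hB6 : v (eval (Sum.elim x s) B) ≤ R ^ 3 := by
    have := eval_size hr B (fun t => (hAB t).2) (3 * m) hB s0 hm1 y hy1
    rw [hye] at this
    rw [hR, ← pow_mul, mul_comm m 3]
    exact this
  have hcx : Cx p v R (eval (Sum.elim x s) A) (eval (Sum.elim x s) B) :=
    ⟨hr.na, hp, hp5, hvp, hR1, hA4, hB6⟩
  -- the functions
  set G : Fin g → Ω := fun i => (s0 ^ D)⁻¹ * β * fval D c x s i with hG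
  set y' : Fin d ⊕ Fin n → k := Sum.elim (fun j => r (x j / s0)) (fun j => r (s j / s0)) with hy'
  have hyy : ∀ j, y' j = r (y j) := by
    rintro (j | j)
    · rfl
    · rfl
  have hm : ∀ α : MonS d n D, v (∏ j, y j ^ (α.1 j : ℕ)) ≤ 1 := by
    intro α
    refine na_prod_le _ _ fun j _ => ?_
    rw [v.map_pow]
    exact pow_le_one₀ (v.nonneg _) (hy1 j)
  have hGe : ∀ i, G i = ∑ α : MonS d n D, (s0 ^ (D - ∑ j, (α.1 j : ℕ)))⁻¹ *
      (β * c (i, α) * ∏ j, y j ^ (α.1 j : ℕ)) := by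
    intro i
    simp only [hG, fval]
    rw [Finset.mul_sum]
    refine Finset.sum_congr rfl fun α _ => ?_
    have h1 : ∏ j, Sum.elim x s j ^ (α.1 j : ℕ) =
        s0 ^ (∑ j, (α.1 j : ℕ)) * ∏ j, y j ^ (α.1 j : ℕ) := by
      rw [← hye]
      simp only [mul_pow, Finset.prod_mul_distrib, Finset.prod_pow_eq_pow_sum]
    have h2 : s0 ^ D = s0 ^ (D - ∑ j, (α.1 j : ℕ)) * s0 ^ (∑ j, (α.1 j : ℕ)) := by
      rw [← pow_add, Nat.sub_add_cancel α.2]
    rw [h1, h2]
    field_simp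
  have hinv : ∀ j : ℕ, v ((s0 ^ j)⁻¹) ≤ 1 := by
    intro j
    rw [map_inv₀, v.map_pow]
    exact inv_le_one_of_one_le₀ (one_le_pow₀ hm1.le)
  have hterm0 : ∀ i (α : MonS d n D), v (β * c (i, α) * ∏ j, y j ^ (α.1 j : ℕ)) ≤ 1 := by
    intro i α
    rw [v.map_mul]
    exact mul_le_one₀ (hc (i, α)) (v.nonneg _) (hm α)
  have hterm : ∀ i (α : MonS d n D), v ((s0 ^ (D - ∑ j, (α.1 j : ℕ)))⁻¹ *
      (β * c (i, α) * ∏ j, y j ^ (α.1 j : ℕ))) ≤ 1 := by
    intro i α
    rw [v.map_mul]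
    exact mul_le_one₀ (hinv _) (v.nonneg _) (hterm0 i α)
  have hG1 : ∀ i, v (G i) ≤ 1 := by
    intro i
    rw [hGe]
    exact na_sum hr.na _ _ _ zero_le_one fun α _ => hterm i α
  have hGr : ∀ i, r (G i) = ∑ α : MonS d n D, r (β * c (i, α)) *
      eval y' (if ∑ j, (α.1 j : ℕ) = D then um k α else 0) := by
    intro i
    rw [hGe, hr.sum _ _ fun α _ => hterm i α]
    refine Finset.sum_congr rfl fun α _ => ?_
    rw [hr.mul _ _ (hinv _) (hterm0 i α), hr.mul _ _ (hc (i, α)) (hm α),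
      hr.prod _ _ (fun j _ => by
        rw [v.map_pow]
        exact pow_le_one₀ (v.nonneg _) (hy1 j))]
    split_ifs with h
    · rw [h, Nat.sub_self, pow_zero, inv_one, hr.one, one_mul, um, map_prod]
      congr 1
      refine Finset.prod_congr rfl fun j _ => ?_
      rw [map_pow, eval_X, hyy j, hr.pow (hy1 j)]
    · have h3 : r ((s0 ^ (D - ∑ j, (α.1 j : ℕ)))⁻¹) = 0 := by
        rw [hr.ker _ (hinv _), map_inv₀, v.map_pow]
        have h4 : ∑ j, (α.1 j : ℕ) ≤ D := α.2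
        exact inv_lt_one_of_one_lt₀ (one_lt_pow₀ hm1 (by omega))
      rw [h3, zero_mul, map_zero, mul_zero]
  set S : Finset (Fin g) := Finset.univ.filter fun i => v (G i) < 1 with hS
  have hGS : ∀ i, i ∉ S → v (G i) = 1 := by
    intro i hi
    rw [hS, Finset.mem_filter] at hi
    push Not at hi
    exact le_antisymm (hG1 i) (hi (Finset.mem_univ i))
  -- the sizes of the abscissas
  have hX : ∀ i, i ∉ S → v (fval D c x s i) = v s0 ^ D / v (p : Ω) := by
    intro i hi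
    have h1 := hGS i hi
    simp only [hG] at h1
    rw [v.map_mul, v.map_mul, map_inv₀, v.map_pow, hβ] at h1
    have h2 : v s0 ^ D ≠ 0 := by positivity
    field_simp at h1
    field_simp
    linarith
  have hRX : ∀ i, i ∉ S → R < v (fval D c x s i) := by
    intro i hi
    rw [hX i hi, lt_div_iff₀ hvp0]
    have h1 : R ≤ v s0 ^ D := pow_le_pow_right₀ hm1.le hmD
    have h2 : 0 < R := by linarith
    calc R * v (p : Ω) < R * 1 := mul_lt_mul_of_pos_left hvp h2
      _ ≤ v s0 ^ D := by rw [mul_one]; exact h1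
  obtain ⟨ρ0, hρ0⟩ := IsAlgClosed.exists_pow_nat_eq (β * (s0 ^ D)⁻¹) two_pos
  have hβ0 : β ≠ 0 := by
    rintro rfl
    rw [v.map_zero] at hβ
    linarith
  have hρ00 : ρ0 ≠ 0 := by
    rintro rfl
    rw [zero_pow two_ne_zero] at hρ0
    have : β * (s0 ^ D)⁻¹ ≠ 0 := mul_ne_zero hβ0 (inv_ne_zero (pow_ne_zero _ hs00))
    exact this hρ0.symm
  have hμ0 : 0 < v ρ0 := v.pos hρ00
  have hμ2 : v ρ0 ^ 2 = v (p : Ω) / v s0 ^ D := by
    rw [← v.map_pow, hρ0, v.map_mul, hβ, map_inv₀, v.map_pow]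
    rfl
  have hVD : 0 < v s0 ^ D := by positivity
  have hstrong : R ^ 2 * v ρ0 ^ 4 < v (p : Ω) := by
    have h1 : R ≤ v s0 ^ D := pow_le_pow_right₀ hm1.le hmD
    have h2 : v ρ0 ^ 4 = (v (p : Ω) / v s0 ^ D) ^ 2 := by rw [← hμ2]; ring
    rw [h2, div_pow]
    calc R ^ 2 * (v (p : Ω) ^ 2 / (v s0 ^ D) ^ 2)
        ≤ (v s0 ^ D) ^ 2 * (v (p : Ω) ^ 2 / (v s0 ^ D) ^ 2) := by
          apply mul_le_mul_of_nonneg_right _ (by positivity)
          exact pow_le_pow_left₀ (by linarith) h1 2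
      _ = v (p : Ω) * v (p : Ω) := by
          field_simp
      _ < 1 * v (p : Ω) := mul_lt_mul_of_pos_right hvp hvp0
      _ = v (p : Ω) := one_mul _
  -- the parameters of the points
  have hpt : ∀ i, i ∉ S → InE v R (P i) ∧ v (zz (P i)) = v ρ0 ∧
      v ((zz (P i) / ρ0) ^ 2 * G i - 1) < 1 := by
    intro i hi
    obtain ⟨Y, hns, hPi⟩ := hP i
    have heq : Y ^ 2 = fval D c x s i ^ 3 + eval (Sum.elim x s) A * fval D c x s i +
        eval (Sum.elim x s) B := by
      have := hns.1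
      rw [WeierstrassCurve.Affine.equation_iff] at this
      simp only [zero_mul, add_zero] at this
      exact this
    obtain ⟨h1, h2⟩ := local_fact hr.na R hR1 _ _ _ _ hA4 hB6 (hRX i hi) heq
    have hX0 : 0 < v (fval D c x s i) := by linarith [hRX i hi]
    have hz : zz (P i) = fval D c x s i / Y := by
      rw [hPi]
      rfl
    refine ⟨?_, ?_, ?_⟩
    · rw [hPi]
      exact hRX i hi
    · rw [hz]
      have h3 : v (fval D c x s i / Y) ^ 2 = v ρ0 ^ 2 := by
        rw [← v.map_pow, div_pow, map_div₀, h1, v.map_pow, hμ2, hX i hi]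
        have h4 : v s0 ^ D ≠ 0 := hVD.ne'
        field_simp
      exact (pow_left_inj₀ (v.nonneg _) (v.nonneg _) two_ne_zero).1 h3
    · have h3 : (zz (P i) / ρ0) ^ 2 * G i = (fval D c x s i / Y) ^ 2 * fval D c x s i := by
        simp only [hG]
        rw [hz, div_pow, hρ0]
        have h5 : s0 ^ D ≠ 0 := pow_ne_zero _ hs00
        field_simp
      rw [h3]
      exact h2
  have hunit : ∀ i, i ∉ S → v (zz (P i) / ρ0) ≤ 1 := by
    intro i hi
    rw [map_div₀, (hpt i hi).2.1, div_self hμ0.ne']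
  refine ⟨R, v ρ0, S, fun j => r (x j / s0), fun j => r (s j / s0),
    fun i => r (zz (P i) / ρ0), ?_, hcx, hμ0, hstrong, ?_, ?_, ?_, ?_, ?_⟩
  · change r (x m0 / s0) = 1
    rw [← hs0def, div_self hs00, hr.one]
  · intro i hi
    exact ⟨(hpt i hi).1, (hpt i hi).2.1.le⟩
  · intro j
    have h1 := hbase j
    have hcoef : ∀ l, l < ρ j → v ((s0 ^ (ρ j - l))⁻¹ * eval x (b j l)) ≤ 1 ∧
        r ((s0 ^ (ρ j - l))⁻¹ * eval x (b j l)) =
          eval (fun j => r (x j / s0)) (rdT r (ρ j - l) (b j l)) := by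
      intro l hl
      have := rdT_eval hr (b j l) (hb j l hl).2 (ρ j - l) (hb j l hl).1 s0 hm1
        (fun j => x j / s0) hx1
      rwa [hxe] at this
    have h2 : (s j / s0) ^ ρ j + ∑ l ∈ Finset.range (ρ j),
        ((s0 ^ (ρ j - l))⁻¹ * eval x (b j l)) * (s j / s0) ^ l = 0 := by
      have h3 : s0 ^ ρ j * ((s j / s0) ^ ρ j + ∑ l ∈ Finset.range (ρ j),
          ((s0 ^ (ρ j - l))⁻¹ * eval x (b j l)) * (s j / s0) ^ l) = 0 := by
        rw [← h1, mul_add, Finset.mul_sum, div_pow, mul_div_cancel₀ _ (pow_ne_zero _ hs00)]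
        congr 1
        refine Finset.sum_congr rfl fun l hl => ?_
        rw [Finset.mem_range] at hl
        have h4 : s0 ^ ρ j = s0 ^ (ρ j - l) * s0 ^ l := by
          rw [← pow_add, Nat.sub_add_cancel hl.le]
        rw [h4, div_pow]
        field_simp
      exact (mul_eq_zero.1 h3).resolve_left (pow_ne_zero _ hs00)
    have h5 : ∀ l ∈ Finset.range (ρ j),
        v (((s0 ^ (ρ j - l))⁻¹ * eval x (b j l)) * (s j / s0) ^ l) ≤ 1 := by
      intro l hl
      rw [v.map_mul, v.map_pow]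
      exact mul_le_one₀ (hcoef l (Finset.mem_range.1 hl)).1 (by positivity)
        (pow_le_one₀ (v.nonneg _) (hs1 j))
    have h6 := congrArg r h2
    rw [hr.zero, hr.add _ _ (by rw [v.map_pow]; exact pow_le_one₀ (v.nonneg _) (hs1 j))
      (na_sum hr.na _ _ _ zero_le_one h5), hr.pow (hs1 j), hr.sum _ _ h5] at h6
    rw [← h6]
    congr 1
    refine Finset.sum_congr rfl fun l hl => ?_
    have hl' := Finset.mem_range.1 hl
    rw [hr.mul _ _ (hcoef l hl').1 (by rw [v.map_pow]; exact pow_le_one₀ (v.nonneg _) (hs1 j)),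
      (hcoef l hl').2, hr.pow (hs1 j)]
  · intro i hi
    rw [← hGr i]
    exact (hr.ker _ (hG1 i)).2 (Finset.mem_filter.1 hi).2
  · intro i hi
    rw [← hGr i]
    change r (zz (P i) / ρ0) ^ 2 * r (G i) = 1
    have hu := hunit i hi
    have hu2 : v ((zz (P i) / ρ0) ^ 2) ≤ 1 := by
      rw [v.map_pow]
      exact pow_le_one₀ (v.nonneg _) hu
    rw [← hr.pow hu, ← hr.mul _ _ hu2 (hG1 i), ← hr.one]
    refine (hr.eq_iff ?_ (by rw [v.map_one])).2 (hpt i hi).2.2
    rw [v.map_mul]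
    exact mul_le_one₀ hu2 (v.nonneg _) (hG1 i)
  · intro τ hτ hlt
    have h1 : v (∑ i ∈ Sᶜ, τ i * (zz (P i) / ρ0)) < 1 := by
      have h2 : ∑ i ∈ Sᶜ, τ i * (zz (P i) / ρ0) = (∑ i ∈ Sᶜ, τ i * zz (P i)) / ρ0 := by
        rw [Finset.sum_div]
        exact Finset.sum_congr rfl fun i _ => by ring
      rw [h2, map_div₀, div_lt_one hμ0]
      exact hlt
    have h3 : ∀ i ∈ Sᶜ, v (τ i * (zz (P i) / ρ0)) ≤ 1 := by
      intro i hi
      rw [v.map_mul]
      exact mul_le_one₀ (hτ i) (v.nonneg _) (hunit i (Finset.mem_compl.1 hi))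
    have h4 := (hr.ker _ h1.le).2 h1
    rw [hr.sum _ _ h3] at h4
    rw [← h4]
    refine Finset.sum_congr rfl fun i hi => ?_
    rw [hr.mul _ _ (hτ i) (hunit i (Finset.mem_compl.1 hi))]

end PKD
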