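import Pool.Agent.PKD.Targets
import Pool.Agent.PKD.RedLem

/-!
The local data at an integral point of the base.
-/

set_option autoImplicit false
set_option maxHeartbeats 4000000

namespace PKD

open MvPolynomial RD

section

variable {Ω k : Type} [Field Ω] [Field k] {v : AbsoluteValue Ω ℝ} {r : Ω → k}

/-- a root of a monic equation with integral coefficients is integral -/
theorem PLCM_root (na : IsNonarchimedean v) (m : ℕ) (a : ℕ → Ω) (ha : ∀ l, l < m → v (a l) ≤ 1)
    (s : Ω) (hs : s ^ m + ∑ l ∈ Finset.range m, a l * s ^ l = 0) : v s ≤ 1 := by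
  by_contra hc
  push Not at hc
  have h1 : v (∑ l ∈ Finset.range m, a l * s ^ l) < v s ^ m := by
    refine na_sum_lt na _ _ _ (pow_pos (by linarith) _) fun l hl => ?_
    have hl' := Finset.mem_range.1 hl
    rw [v.map_mul, v.map_pow]
    calc v (a l) * v s ^ l ≤ 1 * v s ^ l :=
          mul_le_mul_of_nonneg_right (ha l hl') (pow_nonneg (v.nonneg _) _)
      _ < v s ^ m := by rw [one_mul]; exact pow_lt_pow_right₀ hc hl'
  have h2 : s ^ m = -∑ l ∈ Finset.range m, a l * s ^ l := eq_neg_of_add_eq_zero_left hs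
  have h3 : v (s ^ m) = v (∑ l ∈ Finset.range m, a l * s ^ l) := by rw [h2, v.map_neg]
  rw [v.map_pow] at h3
  linarith

theorem PLCM_base (hr : Red v r) {d n : ℕ} (ρ : Fin n → ℕ)
    (b : Fin n → ℕ → MvPolynomial (Fin d) Ω)
    (hb : ∀ j l, l < ρ j → ∀ t, v ((b j l).coeff t) ≤ 1) (x : Fin d → Ω) (s : Fin n → Ω)
    (hon : OnBase ρ b x s) (hx : ∀ j, v (x j) ≤ 1) :
    (∀ j, v (s j) ≤ 1) ∧
      OnBase ρ (fun j l => rdP r (b j l)) (fun j => r (x j)) (fun j => r (s j)) := by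
  have hs : ∀ j, v (s j) ≤ 1 := fun j =>
    PLCM_root hr.na (ρ j) (fun l => eval x (b j l))
      (fun l hl => (rdP_eval hr _ (hb j l hl) x hx).1) (s j) (hon j)
  refine ⟨hs, fun j => ?_⟩
  have hsp : ∀ l, v (s j ^ l) ≤ 1 := fun l => by
    rw [v.map_pow]; exact pow_le_one₀ (v.nonneg _) (hs j)
  have ht : ∀ l ∈ Finset.range (ρ j), v (eval x (b j l) * s j ^ l) ≤ 1 := fun l hl => by
    rw [v.map_mul]
    exact mul_le_one₀ (rdP_eval hr _ (hb j l (Finset.mem_range.1 hl)) x hx).1 (v.nonneg _) (hsp l)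
  have h0 := congrArg r (hon j)
  rw [hr.zero, hr.add _ _ (hsp _) (na_sum hr.na _ _ _ zero_le_one ht), hr.sum _ _ ht,
    hr.pow (hs j)] at h0
  rw [← h0]
  congr 1
  refine Finset.sum_congr rfl fun l hl => ?_
  have hq := rdP_eval hr _ (hb j l (Finset.mem_range.1 hl)) x hx
  rw [hr.mul _ _ hq.1 (hsp l), hq.2, hr.pow (hs j)]

/-- the value of `β * f_i` and its reduction -/
theorem PLCM_fval (hr : Red v r) {d n D g : ℕ} (β : Ω) (c : Fin g × MonS d n D → Ω)
    (hc : ∀ u, v (β * c u) ≤ 1) (x : Fin d → Ω) (s : Fin n → Ω)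
    (hx : ∀ j, v (x j) ≤ 1) (hs : ∀ j, v (s j) ≤ 1) (i : Fin g) :
    v (β * fval D c x s i) ≤ 1 ∧
      r (β * fval D c x s i) = ∑ α : MonS d n D, r (β * c (i, α)) *
        eval (Sum.elim (fun j => r (x j)) (fun j => r (s j))) (um k α) := by
  have hz : ∀ j, v (Sum.elim x s j) ≤ 1 := by
    rintro (j | j)
    · exact hx j
    · exact hs j
  have hzp : ∀ (j : Fin d ⊕ Fin n) (e : ℕ), v (Sum.elim x s j ^ e) ≤ 1 := fun j e => by
    rw [v.map_pow]; exact pow_le_one₀ (v.nonneg _) (hz j)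
  have hprod : ∀ α : MonS d n D, v (∏ j, Sum.elim x s j ^ (α.1 j : ℕ)) ≤ 1 := fun α =>
    na_prod_le _ _ fun j _ => hzp j _
  have he : β * fval D c x s i =
      ∑ α : MonS d n D, (β * c (i, α)) * ∏ j, Sum.elim x s j ^ (α.1 j : ℕ) := by
    unfold fval
    rw [Finset.mul_sum]
    exact Finset.sum_congr rfl fun α _ => by ring
  have ht : ∀ α ∈ (Finset.univ : Finset (MonS d n D)),
      v ((β * c (i, α)) * ∏ j, Sum.elim x s j ^ (α.1 j : ℕ)) ≤ 1 := fun α _ => by
    rw [v.map_mul]; exact mul_le_one₀ (hc _) (v.nonneg _) (hprod α)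
  rw [he]
  refine ⟨na_sum hr.na _ _ _ zero_le_one ht, ?_⟩
  rw [hr.sum _ _ ht]
  refine Finset.sum_congr rfl fun α _ => ?_
  rw [hr.mul _ _ (hc _) (hprod α)]
  congr 1
  rw [hr.prod _ _ fun j _ => hzp j _, um, map_prod]
  refine Finset.prod_congr rfl fun j _ => ?_
  rw [hr.pow (hz j), map_pow, eval_X]
  congr 1
  rcases j with j | j <;> rfl

/-- the parameter at a point with large abscissa -/
theorem PLCM_zz (na : IsNonarchimedean v) (A B X Y : Ω) (hA : v A ≤ 1) (hB : v B ≤ 1)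
    (hX : 1 < v X) (hY : Y ^ 2 = X ^ 3 + A * X + B) :
    v (X / Y) ^ 2 * v X = 1 ∧ v ((X / Y) ^ 2 * X - 1) < 1 := by
  have hX0 : 0 < v X := by linarith
  have hAB : v (A * X + B) ≤ v X := by
    refine (na _ _).trans (max_le ?_ (hB.trans hX.le))
    rw [v.map_mul]
    exact mul_le_of_le_one_left hX0.le hA
  have hX3 : v X < v X ^ 3 := by
    calc v X = v X ^ 1 := (pow_one _).symm
      _ < v X ^ 3 := pow_lt_pow_right₀ hX (by norm_num)
  have hYv : v Y ^ 2 = v X ^ 3 := by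
    rw [← v.map_pow, hY, add_assoc, na_eq na, v.map_pow]
    rw [v.map_pow]
    exact hAB.trans_lt hX3
  have hY0 : 0 < v Y := by
    rcases (v.nonneg Y).lt_or_eq with h | h
    · exact h
    · rw [← h] at hYv
      have : 0 < v X ^ 3 := pow_pos hX0 3
      rw [← hYv] at this
      norm_num at this
  have hYne : Y ≠ 0 := by
    rintro rfl
    rw [v.map_zero] at hY0
    exact lt_irrefl _ hY0
  refine ⟨?_, ?_⟩
  · rw [map_div₀, div_pow, hYv]
    field_simp
  · have e : (X / Y) ^ 2 * X - 1 = -(A * X + B) / Y ^ 2 := by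
      field_simp
      rw [hY]
      ring
    rw [e, map_div₀, v.map_neg, v.map_pow, hYv, div_lt_one (pow_pos hX0 3)]
    exact hAB.trans_lt hX3

end

theorem p_PLCM : T_PLCM := by
  intro Ω k _ _ _ _ _ p v r hr pp p5 vp d n D g ρ b hb A B hAB β c hβ hc x s hon hx P hP
  obtain ⟨hs, hon'⟩ := PLCM_base hr ρ b hb x s hon hx
  have hz : ∀ j, v (Sum.elim x s j) ≤ 1 := by
    rintro (j | j)
    · exact hx j
    · exact hs j
  have hA := (rdP_eval hr A (fun t => (hAB t).1) (Sum.elim x s) hz).1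
  have hB := (rdP_eval hr B (fun t => (hAB t).2) (Sum.elim x s) hz).1
  have hp0 : 0 < v (p : Ω) := v.pos (by exact_mod_cast pp.ne_zero)
  obtain ⟨ρ0, hρ0⟩ := IsAlgClosed.exists_pow_nat_eq β (n := 2) (by norm_num)
  have hμ2 : v ρ0 ^ 2 = v (p : Ω) := by rw [← v.map_pow, hρ0, hβ]
  have hμ0 : 0 < v ρ0 := by
    rcases (v.nonneg ρ0).lt_or_eq with h | h
    · exact h
    · rw [← h] at hμ2
      norm_num at hμ2
      exact absurd hμ2 hp0.ne
  have hρne : ρ0 ≠ 0 := by
    rintro rfl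
    rw [v.map_zero] at hμ0
    exact lt_irrefl _ hμ0
  have hG := fun i => PLCM_fval hr β c hc x s hx hs i
  classical
  have key : ∀ i, ¬ v (β * fval D c x s i) < 1 → InE v 1 (P i) ∧ v (zz (P i)) ≤ v ρ0 ∧
      r (zz (P i) / ρ0) ^ 2 * r (β * fval D c x s i) = 1 := by
    intro i hi
    have hi1 : v (β * fval D c x s i) = 1 := le_antisymm (hG i).1 (not_lt.1 hi)
    obtain ⟨y, h, hPi⟩ := hP i
    have hX : 1 < v (fval D c x s i) := by
      rw [v.map_mul, hβ] at hi1
      by_contra hc'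
      push Not at hc'
      have : v (p : Ω) * v (fval D c x s i) ≤ v (p : Ω) * 1 :=
        mul_le_mul_of_nonneg_left hc' hp0.le
      linarith
    have heq : y ^ 2 = fval D c x s i ^ 3 + eval (Sum.elim x s) A * fval D c x s i +
        eval (Sum.elim x s) B := by
      have h1 := (WeierstrassCurve.Affine.equation_iff _ _).1 h.1
      simpa [curve] using h1
    obtain ⟨hz1, hz2⟩ := PLCM_zz hr.na _ _ _ y hA hB hX heq
    have hzz : zz (P i) = fval D c x s i / y := by rw [hPi]; rfl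
    have hzv : v (zz (P i)) ^ 2 = v ρ0 ^ 2 := by
      rw [hzz, hμ2]
      rw [v.map_mul, hβ] at hi1
      have hX0 : v (fval D c x s i) ≠ 0 := (lt_trans zero_lt_one hX).ne'
      apply mul_right_cancel₀ hX0
      rw [hz1, hi1]
    have hzv' : v (zz (P i)) = v ρ0 := by
      have := (sq_eq_sq₀ (v.nonneg _) hμ0.le).1 hzv
      exact this
    refine ⟨?_, hzv'.le, ?_⟩
    · rw [hPi]
      exact hX
    · have hw : v (zz (P i) / ρ0) ≤ 1 := by
        rw [map_div₀, hzv', div_self hμ0.ne']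
      have e1 : (zz (P i) / ρ0) ^ 2 * (β * fval D c x s i) =
          (fval D c x s i / y) ^ 2 * fval D c x s i := by
        rw [hzz, ← hρ0]
        field_simp
      have hw2 : v ((zz (P i) / ρ0) ^ 2) ≤ 1 := by
        rw [v.map_pow]; exact pow_le_one₀ (v.nonneg _) hw
      rw [← hr.pow hw, ← hr.mul _ _ hw2 (hG i).1, e1, ← hr.one, hr.eq_iff ?_ (by rw [v.map_one])]
      · exact hz2
      · rw [← e1, v.map_mul]
        exact mul_le_one₀ hw2 (v.nonneg _) (hG i).1
  refine ⟨v ρ0, Finset.univ.filter (fun i => v (β * fval D c x s i) < 1), fun j => r (x j),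
    fun j => r (s j), fun i => r (zz (P i) / ρ0), ?_, hμ0, ?_, ?_, hon', ?_, ?_, ?_⟩
  · exact ⟨hr.na, pp, p5, vp, le_rfl, by simpa using hA, by simpa using hB⟩
  · have : v ρ0 ^ 4 = v (p : Ω) * v (p : Ω) := by rw [← hμ2]; ring
    rw [this]
    exact mul_lt_of_lt_one_left hp0 vp
  · intro i hi
    have hi' : ¬ v (β * fval D c x s i) < 1 := fun h =>
      hi (Finset.mem_filter.2 ⟨Finset.mem_univ _, h⟩)
    exact ⟨(key i hi').1, (key i hi').2.1⟩
  · intro i hi
    have hi' := (Finset.mem_filter.1 hi).2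
    rw [← (hG i).2]
    exact (hr.ker _ (hG i).1).2 hi'
  · intro i hi
    have hi' : ¬ v (β * fval D c x s i) < 1 := fun h =>
      hi (Finset.mem_filter.2 ⟨Finset.mem_univ _, h⟩)
    rw [← (hG i).2]
    exact (key i hi').2.2
  · intro τ hτ hsum
    have hi' : ∀ i ∈ (Finset.univ.filter (fun i => v (β * fval D c x s i) < 1))ᶜ,
        v (zz (P i) / ρ0) ≤ 1 := by
      intro i hi
      have hi' : ¬ v (β * fval D c x s i) < 1 := fun h =>
        (Finset.mem_compl.1 hi) (Finset.mem_filter.2 ⟨Finset.mem_univ _, h⟩)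
      rw [map_div₀, div_le_one hμ0]
      exact (key i hi').2.1
    have ht : ∀ i ∈ (Finset.univ.filter (fun i => v (β * fval D c x s i) < 1))ᶜ,
        v (τ i * (zz (P i) / ρ0)) ≤ 1 := fun i hi => by
      rw [v.map_mul]; exact mul_le_one₀ (hτ i) (v.nonneg _) (hi' i hi)
    have e1 : ∑ i ∈ (Finset.univ.filter (fun i => v (β * fval D c x s i) < 1))ᶜ,
        r (τ i) * r (zz (P i) / ρ0) =
        r (∑ i ∈ (Finset.univ.filter (fun i => v (β * fval D c x s i) < 1))ᶜ,
          τ i * (zz (P i) / ρ0)) := by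
      rw [hr.sum _ _ ht]
      exact Finset.sum_congr rfl fun i hi => (hr.mul _ _ (hτ i) (hi' i hi)).symm
    rw [e1, hr.ker _ (na_sum hr.na _ _ _ zero_le_one ht)]
    have e2 : ∑ i ∈ (Finset.univ.filter (fun i => v (β * fval D c x s i) < 1))ᶜ,
          τ i * (zz (P i) / ρ0) =
        (∑ i ∈ (Finset.univ.filter (fun i => v (β * fval D c x s i) < 1))ᶜ,
          τ i * zz (P i)) / ρ0 := by
      rw [Finset.sum_div]
      exact Finset.sum_congr rfl fun i _ => by ring
    rw [e2, map_div₀, div_lt_one hμ0]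
    exact hsum

end PKD
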