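import Pool.Agent.PKD.Targets
import Pool.Agent.PKD.RedLem

/-!
RES: integral elements of a quadratic field have residues in the field with `p ^ 2` elements.
-/

set_option autoImplicit false

namespace PKD

namespace RES_

/-- an integral quadratic equation with not all coefficients divisible by `p` -/
lemma exists_eq {K : Type} [Field K] [CharZero K] (p : ℕ) (hp : p.Prime) (w : K) :
    ∀ (m : ℕ) (A B C : ℤ), A.natAbs = m → A ≠ 0 →
    (A : K) * w ^ 2 + B * w + C = 0 →
    ∃ A' B' C' : ℤ, (A' : K) * w ^ 2 + B' * w + C' = 0 ∧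
      ¬ ((p : ℤ) ∣ A' ∧ (p : ℤ) ∣ B' ∧ (p : ℤ) ∣ C') := by
  intro m
  induction m using Nat.strong_induction_on with
  | _ m ih =>
    intro A B C hm hA h
    by_cases hd : (p : ℤ) ∣ A ∧ (p : ℤ) ∣ B ∧ (p : ℤ) ∣ C
    · obtain ⟨⟨a, rfl⟩, ⟨b, rfl⟩, ⟨c, rfl⟩⟩ := hd
      have ha : a ≠ 0 := by
        rintro rfl
        simp at hA
      have hlt : a.natAbs < m := by
        rw [← hm, Int.natAbs_mul, Int.natAbs_natCast]
        have h1 : 0 < a.natAbs := Int.natAbs_pos.2 ha
        have h2 := hp.two_le
        nlinarith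
      refine ih a.natAbs hlt a b c rfl ha ?_
      have hp0 : (p : K) ≠ 0 := Nat.cast_ne_zero.2 hp.ne_zero
      have h4 : (p : K) * ((a : K) * w ^ 2 + b * w + c) = 0 := by
        rw [← h]
        push_cast
        ring
      exact (mul_eq_zero.1 h4).resolve_left hp0
    · exact ⟨A, B, C, h, hd⟩

/-- integers are fixed by the Frobenius -/
lemma int_pow {k : Type} [Field k] (p : ℕ) [Fact p.Prime] [CharP k p] (m : ℤ) :
    (m : k) ^ p = m := by
  have h1 : (m : k) = ZMod.castHom (dvd_refl p) k (m : ZMod p) := by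
    rw [map_intCast]
  rw [h1, ← map_pow, ZMod.pow_card]

end RES_

open RES_ in
theorem p_RES : T_RES := by
  intro Ω k _ _ _ p v r hr hp hvp a w t n q r' s ha hq hw hw1
  haveI hF : Fact p.Prime := ⟨hp⟩
  haveI hC : CharP k p := hr.charP hp hvp
  haveI : ExpChar k p := ExpChar.prime hp
  obtain ⟨A, B, C, hE, hnd⟩ := exists_eq p hp w _ (q ^ 2) (-(2 * q * r' + s * t * q))
    (r' ^ 2 + s * t * r' + s ^ 2 * n) rfl (pow_ne_zero 2 hq) (by
      have e : (s : Ω) * a = q * w - r' := by rw [hw]; ring
      have e2 : (q * w - r' : Ω) ^ 2 = s * t * (q * w - r') - s ^ 2 * n := by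
        rw [← e, mul_pow, ha]
        ring
      push_cast
      linear_combination e2)
  have hw2 : v (w ^ 2) ≤ 1 := by
    rw [map_pow]
    exact pow_le_one₀ (v.nonneg _) hw1
  have hA1 : v ((A : Ω) * w ^ 2) ≤ 1 := by
    rw [map_mul]
    exact mul_le_one₀ (na_int hr.na A) (v.nonneg _) hw2
  have hB1 : v ((B : Ω) * w) ≤ 1 := by
    rw [map_mul]
    exact mul_le_one₀ (na_int hr.na B) (v.nonneg _) hw1
  have hAB : v ((A : Ω) * w ^ 2 + B * w) ≤ 1 := (hr.na _ _).trans (max_le hA1 hB1)
  -- the equation of the residue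
  have hk : (A : k) * r w ^ 2 + B * r w + C = 0 := by
    have h1 := congrArg r hE
    rw [hr.add _ _ hAB (na_int hr.na C), hr.add _ _ hA1 hB1, hr.mul _ _ (na_int hr.na A) hw2,
      hr.mul _ _ (na_int hr.na B) hw1, hr.pow hw1, hr.int, hr.int, hr.int, hr.zero] at h1
    exact h1
  set x : k := r w with hx
  have hdvd : ∀ m : ℤ, (m : k) = 0 → (p : ℤ) ∣ m := fun m hm =>
    (CharP.intCast_eq_zero_iff k p m).1 hm
  -- it is enough to know `x ^ p = x` or `x ^ p = b - x`
  have fin1 : x ^ p = x → x ^ (p ^ 2) = x := by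
    intro h
    rw [pow_two, pow_mul, h, h]
  have fin2 : ∀ b : k, b ^ p = b → x ^ p = b - x → x ^ (p ^ 2) = x := by
    intro b hb h
    rw [pow_two, pow_mul, h, sub_pow_expChar, hb, h]
    ring
  by_cases hA0 : (A : k) = 0
  · by_cases hB0 : (B : k) = 0
    · exfalso
      have hC0 : (C : k) = 0 := by simpa [hA0, hB0] using hk
      exact hnd ⟨hdvd A hA0, hdvd B hB0, hdvd C hC0⟩
    · have hx1 : x = -(C : k) / B := by
        rw [eq_div_iff hB0]
        rw [hA0] at hk
        linear_combination hk
      apply fin1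
      have h2 : (-(C : k)) ^ p = -(C : k) := by
        have := int_pow (k := k) p (-C)
        push_cast at this
        exact this
      rw [hx1, div_pow, int_pow p B, h2]
  · set b : k := -(B : k) / A with hb
    set c : k := -(C : k) / A with hc
    have hbp : b ^ p = b := by
      have h2 : (-(B : k)) ^ p = -(B : k) := by
        have := int_pow (k := k) p (-B)
        push_cast at this
        exact this
      rw [hb, div_pow, int_pow p A, h2]
    have hcp : c ^ p = c := by
      have h2 : (-(C : k)) ^ p = -(C : k) := by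
        have := int_pow (k := k) p (-C)
        push_cast at this
        exact this
      rw [hc, div_pow, int_pow p A, h2]
    have hx2 : x ^ 2 = b * x + c := by
      rw [hb, hc]
      field_simp
      linear_combination hk
    have hy : (x ^ p) ^ 2 = b * x ^ p + c := by
      rw [← pow_mul, mul_comm p 2, pow_mul, hx2, add_pow_expChar, mul_pow, hbp, hcp]
    have hfac : (x ^ p - x) * (x ^ p - (b - x)) = 0 := by
      linear_combination hy - hx2
    rcases mul_eq_zero.1 hfac with h | h
    · exact fin1 (sub_eq_zero.1 h)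
    · exact fin2 b hbp (sub_eq_zero.1 h)

end PKD
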