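import Pool.Agent.PKD.Targets
import Pool.Agent.FLN.CRT
import Pool.Agent.FLN.DENS

set_option autoImplicit false
set_option maxHeartbeats 4000000

/-!
# SIV: the sieve
-/

namespace PKD

open Filter Finset

namespace SIV_

/-- integers of an interval in a residue class -/
theorem card_class (H p : ℕ) (_ : 0 < p) (c : ZMod p) :
    ((Icc (-(H : ℤ)) H).filter (fun z : ℤ => (z : ZMod p) = c)).card ≤ 2 * H / p + 1 := by
  rw [← card_range (2 * H / p + 1)]
  refine card_le_card_of_injOn (fun z : ℤ => (z + H).toNat / p) ?_ ?_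
  · intro z hz
    rw [coe_filter, Set.mem_ofPred_eq, mem_Icc] at hz
    rw [coe_range, Set.mem_Iio]
    refine Nat.lt_succ_of_le (Nat.div_le_div_right ?_)
    omega
  · intro z hz z' hz' h
    rw [coe_filter, Set.mem_ofPred_eq, mem_Icc] at hz hz'
    have h1 : ((z + H).toNat : ZMod p) = ((z' + H).toNat : ZMod p) := by
      have e1 : (((z + H).toNat : ℤ) : ZMod p) = ((z + H : ℤ) : ZMod p) := by
        rw [Int.toNat_of_nonneg (by omega)]
      have e2 : (((z' + H).toNat : ℤ) : ZMod p) = ((z' + H : ℤ) : ZMod p) := by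
        rw [Int.toNat_of_nonneg (by omega)]
      rw [Int.cast_natCast] at e1 e2
      rw [e1, e2]
      push_cast
      rw [hz.2, hz'.2]
    have h2 : (z + H).toNat % p = (z' + H).toNat % p := by
      exact (ZMod.natCast_eq_natCast_iff' _ _ _).1 h1
    have h3 : (z + H).toNat = (z' + H).toNat := by
      simp only at h
      rw [← Nat.div_add_mod (z + H).toNat p, ← Nat.div_add_mod (z' + H).toNat p, h, h2]
    omega

variable {κ : Type} [Fintype κ] [DecidableEq κ]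

/-- the box -/
noncomputable def box (κ : Type) [Fintype κ] [DecidableEq κ] (H : ℕ) : Finset (κ → ℤ) :=
  Fintype.piFinset (fun _ : κ => Icc (-(H : ℤ)) H)

theorem mem_box (H : ℕ) (a : κ → ℤ) : a ∈ box κ H ↔ ∀ i, |a i| ≤ (H : ℤ) := by
  simp only [box, Fintype.mem_piFinset, mem_Icc, abs_le]

theorem card_box (H : ℕ) : (box κ H).card = (2 * H + 1) ^ Fintype.card κ := by
  rw [box, Fintype.card_piFinset, prod_const, Int.card_Icc, card_univ]
  congr 1
  omega

/-- points of the box in given residue classes -/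
theorem card_res (H p : ℕ) (hp : 0 < p) (B : Finset (κ → ZMod p)) :
    ((box κ H).filter (fun a => (fun i => (a i : ZMod p)) ∈ B)).card ≤
      B.card * (2 * H / p + 1) ^ Fintype.card κ := by
  have h1 : (box κ H).filter (fun a => (fun i => (a i : ZMod p)) ∈ B) ⊆
      B.biUnion (fun b => Fintype.piFinset
        (fun i => (Icc (-(H : ℤ)) H).filter (fun z : ℤ => (z : ZMod p) = b i))) := by
    intro a ha
    rw [mem_filter] at ha
    rw [mem_biUnion]
    refine ⟨_, ha.2, ?_⟩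
    rw [Fintype.mem_piFinset]
    intro i
    rw [mem_filter]
    have := ha.1
    rw [box, Fintype.mem_piFinset] at this
    exact ⟨this i, rfl⟩
  refine (card_le_card h1).trans (card_biUnion_le.trans ?_)
  rw [← smul_eq_mul, ← sum_const]
  refine sum_le_sum fun b _ => ?_
  rw [Fintype.card_piFinset]
  refine (prod_le_prod' fun i _ => card_class H p hp (b i)).trans ?_
  rw [prod_const, card_univ]

theorem card_mult (H p : ℕ) : ((Icc 1 H).filter (fun n => p ∣ n)).card = H / p := by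
  have h : Icc 1 H = Ioc 0 H := by
    ext x
    simp only [mem_Icc, mem_Ioc]
    omega
  rw [h, Nat.Ioc_filter_dvd_card_eq_div]

/-- the contribution of one prime -/
theorem one_prime (C H p : ℕ) (hp : p.Prime) (hpH : p ≤ H) (B : Finset (κ → ZMod p))
    (hB : B.card * p ≤ C * p ^ Fintype.card κ) :
    ((((Icc 1 H).filter (fun n => p ∣ n)) ×ˢ
      ((box κ H).filter (fun a => (fun i => (a i : ZMod p)) ∈ B))).card : ℝ) ≤
      (C * 2 ^ Fintype.card κ) * ((H : ℝ) * (2 * H + 1) ^ Fintype.card κ) *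
        ((p : ℝ) ^ 2)⁻¹ := by
  set M := Fintype.card κ with hM
  have hp0 : (0 : ℝ) < p := by exact_mod_cast hp.pos
  rw [card_product, card_mult]
  have h1 := card_res H p hp.pos B
  have h2 : ((H / p : ℕ) : ℝ) ≤ (H : ℝ) / p := Nat.cast_div_le
  have h3 : (((2 * H / p + 1 : ℕ)) : ℝ) ≤ 2 * (2 * H + 1) / p := by
    have h4 : ((2 * H / p : ℕ) : ℝ) ≤ ((2 * H : ℕ) : ℝ) / p := Nat.cast_div_le
    push_cast at h4 ⊢
    have h5 : (1 : ℝ) ≤ (H : ℝ) / p := by
      rw [le_div_iff₀ hp0, one_mul]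
      exact_mod_cast hpH
    have h6 : (2 * (2 * H + 1) : ℝ) / p = 2 * H / p + 2 * ((H : ℝ) / p) + 2 / p := by ring
    have h7 : (0 : ℝ) ≤ 2 / p := by positivity
    rw [h6]
    linarith
  have h8 : (((box κ H).filter (fun a => (fun i => (a i : ZMod p)) ∈ B)).card : ℝ) ≤
      (B.card : ℝ) * (2 * (2 * H + 1) / p) ^ M := by
    calc (((box κ H).filter (fun a => (fun i => (a i : ZMod p)) ∈ B)).card : ℝ)
        ≤ ((B.card * (2 * H / p + 1) ^ M : ℕ) : ℝ) := by exact_mod_cast h1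
      _ = (B.card : ℝ) * (((2 * H / p + 1 : ℕ)) : ℝ) ^ M := by push_cast; ring
      _ ≤ (B.card : ℝ) * (2 * (2 * H + 1) / p) ^ M :=
          mul_le_mul_of_nonneg_left (pow_le_pow_left₀ (by positivity) h3 _) (by positivity)
  have h9 : (B.card : ℝ) ≤ C * (p : ℝ) ^ M / p := by
    rw [le_div_iff₀ hp0]
    exact_mod_cast hB
  calc (((H / p * ((box κ H).filter (fun a => (fun i => (a i : ZMod p)) ∈ B)).card : ℕ)) : ℝ)
      = ((H / p : ℕ) : ℝ) *
        (((box κ H).filter (fun a => (fun i => (a i : ZMod p)) ∈ B)).card : ℝ) := by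
        push_cast; ring
    _ ≤ ((H : ℝ) / p) * ((C * (p : ℝ) ^ M / p) * (2 * (2 * H + 1) / p) ^ M) := by
        refine mul_le_mul h2 (h8.trans ?_) (by positivity) (by positivity)
        exact mul_le_mul_of_nonneg_right h9 (by positivity)
    _ = (C * 2 ^ M) * ((H : ℝ) * (2 * H + 1) ^ M) * ((p : ℝ) ^ 2)⁻¹ := by
        rw [div_pow, mul_pow]
        field_simp

/-- the tail of the sum over the primes -/
theorem tail (y H : ℕ) (hy : 1 ≤ y) :
    ∑ p ∈ (Icc y H).filter Nat.Prime, ((p : ℝ) ^ 2)⁻¹ ≤ 2 / y := by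
  have h1 := sum_Ioo_inv_sq_le (α := ℝ) (y - 1) (H + 1)
  have h2 : Ioo (y - 1) (H + 1) = Icc y H := by
    ext x
    simp only [mem_Icc, mem_Ioo]
    omega
  rw [h2] at h1
  have h3 : (((y - 1 : ℕ) : ℝ) + 1) = y := by
    have : y - 1 + 1 = y := by omega
    exact_mod_cast this
  rw [h3] at h1
  refine le_trans (sum_le_sum_of_subset_of_nonneg (filter_subset _ _) ?_) h1
  intro i _ _
  positivity

/-- the sum of the reciprocals of the primes from `y` on diverges -/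
theorem diverges (y : ℕ) : ¬ Summable (Set.indicator {p : ℕ | p.Prime ∧ y ≤ p}
    fun q => (1 : ℝ) / q) := by
  intro h
  apply not_summable_one_div_on_primes
  have h2 : Summable (Set.indicator {p : ℕ | p.Prime ∧ ¬ y ≤ p} fun q => (1 : ℝ) / q) := by
    refine summable_of_hasFiniteSupport ((Set.finite_Iio y).subset ?_)
    intro p hp
    rw [Function.mem_support] at hp
    have : p ∈ {p : ℕ | p.Prime ∧ ¬ y ≤ p} := by
      by_contra h3
      exact hp (Set.indicator_of_notMem h3 _)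
    exact not_le.1 this.2
  refine (h.add h2).congr fun p => ?_
  by_cases h3 : p.Prime
  · by_cases h4 : y ≤ p
    · rw [Set.indicator_of_mem (show p ∈ {p : ℕ | p.Prime ∧ y ≤ p} from ⟨h3, h4⟩),
        Set.indicator_of_notMem (show p ∉ {p : ℕ | p.Prime ∧ ¬ y ≤ p} from fun h => h.2 h4),
        Set.indicator_of_mem (show p ∈ {p : ℕ | p.Prime} from h3), add_zero]
    · rw [Set.indicator_of_notMem (show p ∉ {p : ℕ | p.Prime ∧ y ≤ p} from fun h => h4 h.2),
        Set.indicator_of_mem (show p ∈ {p : ℕ | p.Prime ∧ ¬ y ≤ p} from ⟨h3, h4⟩),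
        Set.indicator_of_mem (show p ∈ {p : ℕ | p.Prime} from h3), zero_add]
  · rw [Set.indicator_of_notMem (show p ∉ {p : ℕ | p.Prime ∧ y ≤ p} from fun h => h3 h.1),
      Set.indicator_of_notMem (show p ∉ {p : ℕ | p.Prime ∧ ¬ y ≤ p} from fun h => h3 h.1),
      Set.indicator_of_notMem (show p ∉ {p : ℕ | p.Prime} from h3), add_zero]

/-- the main inequality -/
theorem main (C p0 : ℕ) (Bp : (p : ℕ) → Finset (κ → ZMod p)) (Bad : ℕ → (κ → ℤ) → Prop)
    (hB : ∀ p : ℕ, p0 ≤ p → p.Prime → (Bp p).card * p ≤ C * p ^ Fintype.card κ)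
    (hBad : ∀ p : ℕ, p0 ≤ p → p.Prime → ∀ (β : ℕ) (a : κ → ℤ), p ∣ β → ¬ p ^ 2 ∣ β → Bad β a →
      (fun i => (a i : ZMod p)) ∈ Bp p) (y : ℕ) (hy : 1 ≤ y) (hy0 : p0 ≤ y) (ε : ℝ) (hε : 0 < ε) :
    ∃ C1 : ℝ, ∀ H : ℕ, (Nat.card {x : ℕ × (κ → ℤ) // 1 ≤ x.1 ∧ x.1 ≤ H ∧
      (∀ i, |x.2 i| ≤ (H : ℤ)) ∧ Bad x.1 x.2} : ℝ) ≤
      (ε * H + C1 + (C * 2 ^ Fintype.card κ) * (2 / y) * H) *
        (2 * H + 1) ^ Fintype.card κ := by
  classical
  set M := Fintype.card κ with hM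
  obtain ⟨C1, hC1⟩ := Pool.Agent.FLN.p_DENS Pool.Agent.FLN.p_CRT {p : ℕ | p.Prime ∧ y ≤ p}
    (fun q hq => hq.1) (diverges y) ε hε
  refine ⟨C1, fun H => ?_⟩
  set G : Finset ℕ := (Icc 1 H).filter
    (fun n => ∀ p : ℕ, p.Prime → y ≤ p → ¬ (p ∣ n ∧ ¬ p ^ 2 ∣ n)) with hG
  have hGc : (G.card : ℝ) ≤ ε * H + C1 := by
    refine le_trans ?_ (hC1 H)
    have hfin : {n : ℤ | |n| ≤ (H : ℤ) ∧ ∀ q ∈ {p : ℕ | p.Prime ∧ y ≤ p},
        ¬ ((q : ℤ) ∣ n ∧ ¬ (q : ℤ) ^ 2 ∣ n)}.Finite := by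
      refine (Set.finite_Icc (-(H : ℤ)) H).subset fun n hn => ?_
      exact Set.mem_Icc.2 (abs_le.1 hn.1)
    have h1 : G.card = (G.image (fun n : ℕ => (n : ℤ))).card :=
      (card_image_of_injective _ Nat.cast_injective).symm
    rw [h1, ← Set.ncard_coe_finset]
    have h2 : ((G.image (fun n : ℕ => (n : ℤ)) : Finset ℤ) : Set ℤ) ⊆
        {n : ℤ | |n| ≤ (H : ℤ) ∧ ∀ q ∈ {p : ℕ | p.Prime ∧ y ≤ p},
          ¬ ((q : ℤ) ∣ n ∧ ¬ (q : ℤ) ^ 2 ∣ n)} := by
      intro z hz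
      rw [mem_coe, mem_image] at hz
      obtain ⟨n, hn, rfl⟩ := hz
      rw [hG, mem_filter, mem_Icc] at hn
      refine ⟨?_, ?_⟩
      · rw [Nat.abs_cast]
        exact_mod_cast hn.1.2
      · rintro q ⟨hq1, hq2⟩ ⟨h3, h4⟩
        refine hn.2 q hq1 hq2 ⟨Int.natCast_dvd_natCast.1 h3, fun h5 => h4 ?_⟩
        have := Int.natCast_dvd_natCast.2 h5
        rwa [Nat.cast_pow] at this
    exact_mod_cast Set.ncard_le_ncard h2 hfin
  set T : Finset (ℕ × (κ → ℤ)) := (Icc 1 H ×ˢ box κ H).filter (fun x => Bad x.1 x.2) with hT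
  have hcard : Nat.card {x : ℕ × (κ → ℤ) // 1 ≤ x.1 ∧ x.1 ≤ H ∧
      (∀ i, |x.2 i| ≤ (H : ℤ)) ∧ Bad x.1 x.2} = T.card := by
    rw [← Nat.card_eq_finsetCard T]
    refine Nat.card_congr (Equiv.subtypeEquivRight fun x => ?_)
    rw [hT, mem_filter, mem_product, mem_Icc, mem_box]
    tauto
  have hsub : T ⊆ (G ×ˢ box κ H) ∪ ((Icc y H).filter Nat.Prime).biUnion (fun p =>
      ((Icc 1 H).filter (fun n => p ∣ n)) ×ˢ
        ((box κ H).filter (fun a => (fun i => (a i : ZMod p)) ∈ Bp p))) := by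
    rintro ⟨β, a⟩ hx
    rw [hT, mem_filter, mem_product] at hx
    obtain ⟨⟨hβ, ha⟩, hbad⟩ := hx
    simp only at hβ ha hbad
    rw [mem_union]
    by_cases hb : β ∈ G
    · left
      exact mem_product.2 ⟨hb, ha⟩
    · right
      rw [hG, mem_filter] at hb
      push Not at hb
      obtain ⟨p, hp, hyp, hpd, hpd2⟩ := hb hβ
      rw [mem_Icc] at hβ
      rw [mem_biUnion]
      refine ⟨p, ?_, ?_⟩
      · rw [mem_filter, mem_Icc]
        exact ⟨⟨hyp, (Nat.le_of_dvd (by omega) hpd).trans hβ.2⟩, hp⟩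
      · rw [mem_product, mem_filter, mem_filter, mem_Icc]
        exact ⟨⟨hβ, hpd⟩, ha, hBad p (hy0.trans hyp) hp β a hpd hpd2 hbad⟩
  rw [hcard]
  have h1 : (T.card : ℝ) ≤ ((G ×ˢ box κ H).card : ℝ) +
      ∑ p ∈ (Icc y H).filter Nat.Prime, ((((Icc 1 H).filter (fun n => p ∣ n)) ×ˢ
        ((box κ H).filter (fun a => (fun i => (a i : ZMod p)) ∈ Bp p))).card : ℝ) := by
    have h2 := (card_le_card hsub).trans (card_union_le _ _)
    have h3 := card_biUnion_le (s := (Icc y H).filter Nat.Prime) (t := fun p =>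
      ((Icc 1 H).filter (fun n => p ∣ n)) ×ˢ
        ((box κ H).filter (fun a => (fun i => (a i : ZMod p)) ∈ Bp p)))
    have h4 := h2.trans (Nat.add_le_add_left h3 _)
    exact_mod_cast h4
  have h5 : ((G ×ˢ box κ H).card : ℝ) ≤ (ε * H + C1) * (2 * H + 1) ^ M := by
    rw [card_product, card_box]
    push_cast
    exact mul_le_mul_of_nonneg_right hGc (by positivity)
  have h6 : ∑ p ∈ (Icc y H).filter Nat.Prime, ((((Icc 1 H).filter (fun n => p ∣ n)) ×ˢ
        ((box κ H).filter (fun a => (fun i => (a i : ZMod p)) ∈ Bp p))).card : ℝ) ≤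
      (C * 2 ^ M) * ((H : ℝ) * (2 * H + 1) ^ M) * (2 / y) := by
    calc _ ≤ ∑ p ∈ (Icc y H).filter Nat.Prime,
          (C * 2 ^ M) * ((H : ℝ) * (2 * H + 1) ^ M) * ((p : ℝ) ^ 2)⁻¹ := by
          refine sum_le_sum fun p hp => ?_
          rw [mem_filter, mem_Icc] at hp
          exact one_prime C H p hp.2 hp.1.2 (Bp p) (hB p (hy0.trans hp.1.1) hp.2)
      _ ≤ _ := by
          rw [← mul_sum]
          exact mul_le_mul_of_nonneg_left (tail y H hy) (by positivity)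
  calc (T.card : ℝ) ≤ (ε * H + C1) * (2 * H + 1) ^ M +
        (C * 2 ^ M) * ((H : ℝ) * (2 * H + 1) ^ M) * (2 / y) := by linarith
    _ = _ := by ring

end SIV_

theorem p_SIV : T_SIV := by
  intro κ _ _ C p0 Bp Bad hB hBad
  set M := Fintype.card κ with hM
  rw [Metric.tendsto_atTop]
  intro ε hε
  obtain ⟨y1, hy1⟩ := exists_nat_gt ((C * 2 ^ M : ℝ) * 2 / (ε / 3))
  set y := y1 + p0 + 1 with hy
  have hyr : (y1 : ℝ) ≤ y := by
    rw [hy]
    push_cast
    linarith [(Nat.cast_nonneg p0 : (0 : ℝ) ≤ p0)]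
  have hy0 : (0 : ℝ) < y := by
    rw [hy]
    push_cast
    positivity
  have hyε : (C * 2 ^ M : ℝ) * (2 / y) < ε / 3 := by
    rw [← mul_div_assoc, div_lt_iff₀ hy0]
    rw [div_lt_iff₀ (by positivity)] at hy1
    nlinarith
  obtain ⟨C1, hC1⟩ := SIV_.main C p0 Bp Bad hB hBad y (by omega) (by omega) (ε / 3) (by positivity)
  obtain ⟨N, hN⟩ := exists_nat_gt (|C1| / (ε / 3))
  refine ⟨N + 1, fun H hH => ?_⟩
  have hH0 : (0 : ℝ) < H := by
    have : 0 < H := by omega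
    exact_mod_cast this
  have hHN : (N : ℝ) < H := by
    have : N < H := by omega
    exact_mod_cast this
  have hpos : (0 : ℝ) < (2 * H + 1) ^ M := by positivity
  have h1 := hC1 H
  rw [Real.dist_eq, sub_zero, abs_of_nonneg (by positivity), div_lt_iff₀ (by positivity)]
  refine lt_of_le_of_lt h1 ?_
  rw [← mul_assoc]
  refine mul_lt_mul_of_pos_right ?_ hpos
  have h2 : |C1| < ε / 3 * H := by
    rw [div_lt_iff₀ (by positivity)] at hN
    nlinarith
  have h3 : C1 ≤ |C1| := le_abs_self _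
  nlinarith

end PKD
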