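import Pool.Agent.PKD.Targets
import Pool.Agent.PKD.RedLem

/-!
# Finite sums
-/

set_option autoImplicit false

namespace PKD

open RD

namespace SUM_

theorem zz_zero {K : Type} [Field K] [DecidableEq K] {W : WeierstrassCurve.Affine K} :
    zz (0 : W.Point) = 0 := rfl

theorem inE_zero {K : Type} [Field K] [DecidableEq K] {W : WeierstrassCurve.Affine K}
    (v : AbsoluteValue K ℝ) (R : ℝ) : InE v R (0 : W.Point) := trivial

end SUM_

theorem p_SUM (h1 : T_ADD) : T_SUM := by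
  classical
  intro K _ _ p v R a4 a6 hC ι S Q μ hμ hQ hR
  have hR1 : 0 ≤ R := zero_le_one.trans hC.one_le
  have hRμ : R ^ 2 * μ ^ 5 ≤ μ := by
    have h0 : 0 ≤ R * μ ^ 2 := by positivity
    calc R ^ 2 * μ ^ 5 = (R * μ ^ 2) ^ 2 * μ := by ring
      _ ≤ 1 * μ := mul_le_mul_of_nonneg_right (pow_le_one₀ h0 hR) hμ
      _ = μ := one_mul μ
  induction S using Finset.induction_on with
  | empty =>
    rw [Finset.sum_empty, Finset.sum_empty, SUM_.zz_zero, sub_zero, map_zero]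
    exact ⟨SUM_.inE_zero v R, hμ, by positivity⟩
  | insert i S hi ih =>
    obtain ⟨b1, b2, b3⟩ := ih fun j hj => hQ j (Finset.mem_insert_of_mem hj)
    obtain ⟨c1, c2⟩ := hQ i (Finset.mem_insert_self i S)
    rw [Finset.sum_insert hi, Finset.sum_insert hi]
    obtain ⟨d1, d2⟩ := h1 K p v R a4 a6 hC (Q i) (∑ j ∈ S, Q j) c1 b1
    have hm : max (v (zz (Q i))) (v (zz (∑ j ∈ S, Q j))) ≤ μ := max_le c2 b2
    have hm0 : 0 ≤ max (v (zz (Q i))) (v (zz (∑ j ∈ S, Q j))) :=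
      (v.nonneg _).trans (le_max_left _ _)
    have d3 : v (zz (Q i + ∑ j ∈ S, Q j) - zz (Q i) - zz (∑ j ∈ S, Q j)) ≤ R ^ 2 * μ ^ 5 :=
      d2.trans (mul_le_mul_of_nonneg_left (pow_le_pow_left₀ hm0 hm 5) (sq_nonneg R))
    refine ⟨d1, ?_, ?_⟩
    · have e1 : zz (Q i + ∑ j ∈ S, Q j) =
          (zz (Q i + ∑ j ∈ S, Q j) - zz (Q i) - zz (∑ j ∈ S, Q j)) +
            (zz (Q i) + zz (∑ j ∈ S, Q j)) := by ring
      rw [e1]
      refine (hC.na _ _).trans (max_le (d3.trans hRμ) ?_)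
      exact (hC.na _ _).trans hm
    · have e1 : zz (Q i + ∑ j ∈ S, Q j) - (zz (Q i) + ∑ j ∈ S, zz (Q j)) =
          (zz (Q i + ∑ j ∈ S, Q j) - zz (Q i) - zz (∑ j ∈ S, Q j)) +
            (zz (∑ j ∈ S, Q j) - ∑ j ∈ S, zz (Q j)) := by ring
      rw [e1]
      exact (hC.na _ _).trans (max_le d3 b3)

end PKD
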