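import Pool.Agent.PKD.EST
import Pool.Agent.PKD.ADD
import Pool.Agent.PKD.NSM
import Pool.Agent.PKD.SUM
import Pool.Agent.PKD.END
import Pool.Agent.PKD.QUA
import Pool.Agent.PKD.LEM
import Pool.Agent.PKD.REL
import Pool.Agent.PKD.RES
import Pool.Agent.PKD.GRP
import Pool.Agent.PKD.PLCM
import Pool.Agent.PKD.PLCI
import Pool.Agent.PKD.PLC
import Pool.Agent.PKD.NFB
import Pool.Agent.PKD.ELI
import Pool.Agent.PKD.CNT
import Pool.Agent.PKD.EXP
import Pool.Agent.PKD.ALM
import Pool.Agent.PKD.EMB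
import Pool.Agent.PKD.SIV
import Pool.Agent.PKD.COR
import Pool.Agent.PKD.FIN
import Pool.Agent.PKD.COR2
import Pool.Agent.PKD.FIN2

/-! Assembly of project PKD. -/

set_option autoImplicit false

namespace PKD

theorem all_ADD : T_ADD := p_ADD p_EST
theorem all_NSM : T_NSM := p_NSM all_ADD
theorem all_SUM : T_SUM := p_SUM all_ADD
theorem all_LEM : T_LEM := p_LEM all_NSM all_SUM
theorem all_REL : T_REL := p_REL all_LEM (p_END all_NSM) (p_QUA all_NSM all_ADD)
theorem all_GRP : T_GRP := p_GRP p_RES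
theorem all_PLC : T_PLC := p_PLC p_PLCM p_PLCI
theorem all_ELI : T_ELI := p_ELI p_NFB
theorem all_COR : T_COR := p_COR all_REL all_GRP all_PLC all_ELI p_CNT p_EXP p_ALM p_EMB
theorem all_FIN : T_FIN := p_FIN all_COR p_SIV
theorem all_COR2 : T_COR2 := p_COR2 all_REL all_GRP all_PLC all_ELI p_CNT p_EXP p_ALM p_EMB
theorem all_FIN2 : T_FIN2 := p_FIN2 all_COR2 p_SIV

end PKD
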