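import Pool.Agent.PKD.FIN2

/-! A polynomial of degree at most `D` as a sum over the exponents of degree at most `D`. -/

set_option autoImplicit false
set_option maxHeartbeats 4000000

namespace PKD

open MvPolynomial RD

/-- the exponent as a finitely supported function -/
noncomputable def fsM {d n D : ℕ} (α : MonS d n D) : (Fin d ⊕ Fin n) →₀ ℕ :=
  Finsupp.equivFunOnFinite.symm fun j => (α.1 j : ℕ)

theorem fsM_inj {d n D : ℕ} : Function.Injective (fsM (d := d) (n := n) (D := D)) := by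
  intro α β h
  apply Subtype.ext
  funext j
  apply Fin.ext
  have := DFunLike.congr_fun h j
  simpa [fsM] using this

theorem eval_mon {R : Type} [CommRing R] {d n D : ℕ} (q : MvPolynomial (Fin d ⊕ Fin n) R)
    (hq : q.totalDegree ≤ D) (z : Fin d ⊕ Fin n → R) :
    eval z q = ∑ α : MonS d n D, q.coeff (fsM α) * ∏ j, z j ^ (α.1 j : ℕ) := by
  classical
  rw [eval_eq']
  have h1 : ∑ α : MonS d n D, q.coeff (fsM α) * ∏ j, z j ^ (α.1 j : ℕ) =
      ∑ t ∈ (Finset.univ : Finset (MonS d n D)).image fsM, q.coeff t * ∏ j, z j ^ t j := by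
    rw [Finset.sum_image fun x _ y _ h => fsM_inj h]
    refine Finset.sum_congr rfl fun α _ => ?_
    rfl
  rw [h1]
  refine Finset.sum_subset ?_ ?_
  · intro t ht
    have hdeg : ∑ j, t j ≤ D := by
      have := le_totalDegree ht
      rw [Finsupp.sum_fintype _ _ (fun _ => rfl)] at this
      exact this.trans hq
    refine Finset.mem_image.2 ⟨⟨fun j => ⟨t j, ?_⟩, hdeg⟩, Finset.mem_univ _, ?_⟩
    · have : t j ≤ ∑ j, t j := Finset.single_le_sum (fun i _ => Nat.zero_le _) (Finset.mem_univ j)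
      omega
    · ext j
      simp [fsM]
  · intro t _ ht
    rw [notMem_support_iff.1 ht, zero_mul]

theorem fval_cf {Ω : Type} [Field Ω] {d n g D : ℕ} (I : Finset (MonS d n D))
    (F : Fin g → MvPolynomial (Fin d ⊕ Fin n) Ω) (hF : ∀ i, (F i).totalDegree ≤ D)
    (c : Fin g × {α // α ∈ I} → Ω) (p : Fin d → Ω) (s : Fin n → Ω) (i : Fin g) :
    fval D (cf I (fun u => (F u.1).coeff (fsM u.2)) c) p s i =
      eval (Sum.elim p s) (F i) +
        ∑ α : {α // α ∈ I}, c (i, α) * ∏ j, Sum.elim p s j ^ (α.1.1 j : ℕ) := by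
  classical
  rw [eval_mon (F i) (hF i)]
  unfold fval cf
  simp only [add_mul, Finset.sum_add_distrib]
  congr 1
  rw [COR_.sum_restrict I _ (fun α hα => by rw [dif_neg hα, zero_mul])]
  refine Finset.sum_congr rfl fun α _ => ?_
  rw [dif_pos α.2]

theorem some_congr {Ω : Type} [Field Ω] {W : WeierstrassCurve.Affine Ω} {x x' : Ω} (hx : x = x')
    (P : W.Point) : (∃ y h, P = WeierstrassCurve.Affine.Point.some x y h) ↔
      (∃ y h, P = WeierstrassCurve.Affine.Point.some x' y h) := by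
  subst hx
  rfl

theorem bad_iff {Ω : Type} [Field Ω] [DecidableEq Ω] {d n g D : ℕ} (ρ : Fin n → ℕ)
    (b : Fin n → ℕ → MvPolynomial (Fin d) Ω) (A B : MvPolynomial (Fin d ⊕ Fin n) Ω)
    (I : Finset (MonS d n D))
    (F : Fin g → MvPolynomial (Fin d ⊕ Fin n) Ω) (hF : ∀ i, (F i).totalDegree ≤ D)
    (c : Fin g × {α // α ∈ I} → Ω) :
    BadAt D ρ b A B (cf I (fun u => (F u.1).coeff (fsM u.2)) c) ↔
      ∃ (p : Fin d → Ω) (s : Fin n → Ω),
          (∀ j, s j ^ ρ j + ∑ l ∈ Finset.range (ρ j), eval p (b j l) * s j ^ l = 0) ∧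
          ∃ P : Fin g → (curve 0 (eval (Sum.elim p s) A) (eval (Sum.elim p s) B)).Point,
            (∀ i, ∃ y h, P i = WeierstrassCurve.Affine.Point.some
              (eval (Sum.elim p s) (F i) + ∑ α : {α // α ∈ I}, c (i, α) *
                ∏ j, Sum.elim p s j ^ (α.1.1 j : ℕ)) y h) ∧
            (IntRel _ (d + 1) P ∨ CMRel _ (d + 1) P) := by
  unfold BadAt
  constructor
  · rintro ⟨p, s, h1, P, h2, h3⟩
    exact ⟨p, s, h1, P, fun i => (some_congr (fval_cf I F hF c p s i) (P i)).1 (h2 i), h3⟩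
  · rintro ⟨p, s, h1, P, h2, h3⟩
    exact ⟨p, s, h1, P, fun i => (some_congr (fval_cf I F hF c p s i) (P i)).2 (h2 i), h3⟩

/-- the theorem, with polynomials `F i` -/
def T_FIN3 : Prop := ∀ (K : Type) [Field K] [NumberField K] [DecidableEq (AlgebraicClosure K)]
    (g d n m D : ℕ), m ≤ D → 2 ^ (g + 2) * g ^ 2 < Module.finrank ℚ K →
    ∀ (w : Module.Basis (Fin (Module.finrank ℚ K)) ℚ K) (ρ : Fin n → ℕ)
    (b : Fin n → ℕ → MvPolynomial (Fin d) (AlgebraicClosure K))
    (A B : MvPolynomial (Fin d ⊕ Fin n) (AlgebraicClosure K))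
    (I : Finset (MonS d n D)) (F : Fin g → MvPolynomial (Fin d ⊕ Fin n) (AlgebraicClosure K)),
    (∀ ty, al0 D ty ∈ I) →
    (∀ j l, l < ρ j → (b j l).totalDegree ≤ ρ j - l) →
    A.totalDegree ≤ 2 * m → B.totalDegree ≤ 3 * m →
    (∀ i, (F i).totalDegree ≤ D) →
    Filter.Tendsto (fun H : ℕ =>
      (Nat.card {x : ℕ × ((Fin g × {α // α ∈ I}) → Fin (Module.finrank ℚ K) → ℤ) //
        1 ≤ x.1 ∧ x.1 ≤ H ∧ (∀ u l, |x.2 u l| ≤ (H : ℤ)) ∧
        ∃ (p : Fin d → AlgebraicClosure K) (s : Fin n → AlgebraicClosure K),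
          (∀ j, s j ^ ρ j + ∑ l ∈ Finset.range (ρ j), eval p (b j l) * s j ^ l = 0) ∧
          ∃ P : Fin g → (curve 0 (eval (Sum.elim p s) A) (eval (Sum.elim p s) B)).Point,
            (∀ i, ∃ y h, P i = WeierstrassCurve.Affine.Point.some
              (eval (Sum.elim p s) (F i) + ∑ α : {α // α ∈ I},
                algebraMap K (AlgebraicClosure K) (∑ l, (x.2 (i, α) l : ℚ) • w l) /
                  (x.1 : AlgebraicClosure K) *
                ∏ j, Sum.elim p s j ^ (α.1.1 j : ℕ)) y h) ∧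
            (IntRel _ (d + 1) P ∨ CMRel _ (d + 1) P)} : ℝ) /
      ((H : ℝ) * (2 * H + 1) ^ (Module.finrank ℚ K * (g * I.card))))
      Filter.atTop (nhds 0)

theorem p_FIN3 (h : T_FIN2) : T_FIN3 := by
  classical
  intro K _ _ _ g d n m D hmD hK w ρ b A B I F hI hb hA hB hF
  refine (h K g d n m D hmD hK w ρ b A B I (fun u => (F u.1).coeff (fsM u.2)) hI hb hA
    hB).congr fun H => ?_
  congr 2
  refine Nat.card_congr (Equiv.subtypeEquivRight fun x => ?_)
  rw [bad_iff ρ b A B I F hF]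

end PKD
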