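import Mathlib
import Pool.Agent.RD.Defs
import Pool.Agent.PKD.Defs
import Pool.Agent.PKD.All
import Pool.Agent.PKD.BRG

/-!
Pink's conclusion for 100 per cent of the multisections of the fibre powers of an elliptic scheme
over an arbitrary affine base of dimension `d`.

The base is the set of points `(p, s)` of affine space over `AlgebraicClosure K` where every `s_j`
satisfies a monic equation over `p` (Noether coordinates). The elliptic scheme is
`y ^ 2 = x ^ 3 + A x + B` with `A, B` functions on the base. The `g` abscissas are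
`f_i = F_i + ∑ α ∈ I, c_{i, α} (p, s) ^ α`, where `F_i` are fixed functions of degree at most `D`,
`I` is a set of exponents of monomials of degree at most `D` which contains `1` and all `p_m ^ D`
(`al0 D ty` for `ty : Option (Fin d)`), and the coefficients are the elements
`c_{i, α} = (∑ l, a_{i, α, l} w_l) / β` of `K`, `w` a basis of `K` over `ℚ`, with integers
`1 ≤ β ≤ H`, `|a_{i, α, l}| ≤ H`.
-/

namespace Pool.Agent.Results.MP_28d749_ag.AlmostAllMultisections

open MvPolynomial RD PKD Filter

theorem result (K : Type) [Field K] [NumberField K] [DecidableEq (AlgebraicClosure K)]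
    (g d n m D : ℕ) (hmD : m ≤ D) (hK : 2 ^ (g + 2) * g ^ 2 < Module.finrank ℚ K)
    (w : Module.Basis (Fin (Module.finrank ℚ K)) ℚ K) (ρ : Fin n → ℕ)
    (b : Fin n → ℕ → MvPolynomial (Fin d) (AlgebraicClosure K))
    (A B : MvPolynomial (Fin d ⊕ Fin n) (AlgebraicClosure K))
    (I : Finset (MonS d n D)) (F : Fin g → MvPolynomial (Fin d ⊕ Fin n) (AlgebraicClosure K))
    (hI : ∀ ty, al0 D ty ∈ I)
    (hb : ∀ j l, l < ρ j → (b j l).totalDegree ≤ ρ j - l)
    (hA : A.totalDegree ≤ 2 * m) (hB : B.totalDegree ≤ 3 * m)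
    (hF : ∀ i, (F i).totalDegree ≤ D) :
    Tendsto (fun H : ℕ =>
      (Nat.card {x : ℕ × ((Fin g × {α // α ∈ I}) → Fin (Module.finrank ℚ K) → ℤ) //
        1 ≤ x.1 ∧ x.1 ≤ H ∧ (∀ u l, |x.2 u l| ≤ (H : ℤ)) ∧
        ∃ (p : Fin d → AlgebraicClosure K) (s : Fin n → AlgebraicClosure K),
          (∀ j, s j ^ ρ j + ∑ l ∈ Finset.range (ρ j), eval p (b j l) * s j ^ l = 0) ∧
          ∃ P : Fin g → (curve 0 (eval (Sum.elim p s) A) (eval (Sum.elim p s) B)).Point,
            (∀ i, ∃ y h, P i = WeierstrassCurve.Affine.Point.some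
              (eval (Sum.elim p s) (F i) + ∑ α : {α // α ∈ I},
                algebraMap K (AlgebraicClosure K) (∑ l, (x.2 (i, α) l : ℚ) • w l) /
                  (x.1 : AlgebraicClosure K) *
                ∏ j, Sum.elim p s j ^ (α.1.1 j : ℕ)) y h) ∧
            (IntRel _ (d + 1) P ∨ CMRel _ (d + 1) P)} : ℝ) /
      ((H : ℝ) * (2 * H + 1) ^ (Module.finrank ℚ K * (g * I.card))))
      atTop (nhds 0) :=
  p_FIN3 all_FIN2 K g d n m D hmD hK w ρ b A B I F hI hb hA hB hF

end Pool.Agent.Results.MP_28d749_ag.AlmostAllMultisections
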