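import Pool.Agent.PKD.Targets

set_option autoImplicit false

/-!
EMB: the embeddings of a number field, extended to the algebraic closure
-/

namespace PKD

open Matrix

theorem EMB_.ext_gen (K L M : Type) [Field K] [Field L] [Field M] [IsAlgClosed M] [Algebra K L]
    [Algebra.IsAlgebraic K L] (φ : K →+* M) : ∃ σ : L →+* M, ∀ x, σ (algebraMap K L x) = φ x := by
  let _ := φ.toAlgebra
  exact ⟨(IsAlgClosed.lift : L →ₐ[K] M).toRingHom,
    fun x => (IsAlgClosed.lift : L →ₐ[K] M).commutes x⟩

theorem EMB_.ext_emb (K Ω : Type) [Field K] [Field Ω] [IsAlgClosed Ω] [Algebra K Ω]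
    [Algebra.IsAlgebraic K Ω] (φ : K →+* Ω) : ∃ σ : Ω →+* Ω, ∀ x, σ (algebraMap K Ω x) = φ x :=
  EMB_.ext_gen K Ω Ω φ

theorem p_EMB : T_EMB := by
  intro K Ω _ _ _ _ _ _
  have : CharZero Ω := charZero_of_injective_algebraMap (algebraMap K Ω).injective
  have hcard : Fintype.card (K →+* Ω) = Module.finrank ℚ K := NumberField.Embeddings.card K Ω
  let e : Fin (Module.finrank ℚ K) ≃ (K →+* Ω) := (Fintype.equivFinOfCardEq hcard).symm
  choose σ hσ using fun φ : K →+* Ω => EMB_.ext_emb K Ω φ
  refine ⟨fun j => σ (e j), ?_⟩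
  intro w hdet
  have hinj : Function.Injective e := e.injective
  obtain ⟨y, hy0, hy⟩ := Matrix.exists_vecMul_eq_zero_iff.mpr hdet
  have hli := linearIndependent_monoidHom K Ω
  have hli2 : LinearIndependent Ω (fun j : Fin (Module.finrank ℚ K) =>
      (((e j : K →+* Ω) : K →* Ω) : K → Ω)) := by
    have := hli.comp (fun j : Fin (Module.finrank ℚ K) => ((e j : K →+* Ω) : K →* Ω)) (by
      intro i j hij
      apply hinj
      ext x
      exact DFunLike.congr_fun hij x)
    exact this
  rw [Fintype.linearIndependent_iff] at hli2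
  apply hy0
  funext j
  refine hli2 y ?_ j
  funext x
  have hx : x = ∑ l, (w.repr x l) • w l := (w.sum_repr x).symm
  rw [Finset.sum_apply, Pi.zero_apply]
  simp only [Pi.smul_apply, smul_eq_mul]
  have hl : ∀ l, ∑ j, y j * e j (w l) = 0 := by
    intro l
    have := congrFun hy l
    simp only [Matrix.vecMul, dotProduct, Matrix.of_apply, hσ, Pi.zero_apply] at this
    exact this
  have hQ : ∀ (j : Fin (Module.finrank ℚ K)) (q : ℚ) (z : K), e j (q • z) = (q : Ω) * e j z := by
    intro j q z
    rw [Rat.smul_def, map_mul, map_ratCast]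
  rw [hx]
  show ∑ j, y j * (((e j : K →+* Ω) (∑ l, (w.repr x l) • w l))) = 0
  simp only [map_sum, hQ, Finset.mul_sum]
  rw [Finset.sum_comm]
  apply Finset.sum_eq_zero
  intro l _
  have : ∑ j, y j * ((w.repr x l : ℚ) * e j (w l)) = (w.repr x l : ℚ) * ∑ j, y j * e j (w l) := by
    rw [Finset.mul_sum]
    apply Finset.sum_congr rfl
    intro j _
    ring
  rw [this, hl, mul_zero]

end PKD
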