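import Pool.Agent.PKD.Targets
import Pool.Agent.PKD.RedLem

/-! From a bad multisection to the residue fields of all the embeddings of a group. -/

set_option autoImplicit false
set_option maxHeartbeats 4000000

namespace PKD

open MvPolynomial RD

namespace COR_

theorem step (hREL : T_REL) (hGRP : T_GRP) (hPLC : T_PLC) {Ω k : Type} [Field Ω] [CharZero Ω]
    [IsAlgClosed Ω] [DecidableEq Ω] [Field k] {p : ℕ} {v : AbsoluteValue Ω ℝ} {r : Ω → k}
    (hr : Red v r) (hp : p.Prime) (hp5 : 5 ≤ p) (hvp : v (p : Ω) < 1) {g d n m D N : ℕ}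
    (hmD : m ≤ D) (σ : Fin N → Ω →+* Ω) (hN : 2 ^ (g + 2) * g ^ 2 < N) (ρ : Fin n → ℕ)
    (b : Fin n → ℕ → MvPolynomial (Fin d) Ω) (A B : MvPolynomial (Fin d ⊕ Fin n) Ω)
    (hb : ∀ j l, l < ρ j → (b j l).totalDegree ≤ ρ j - l)
    (hbi : ∀ i j l, l < ρ j → ∀ t, v (σ i ((b j l).coeff t)) ≤ 1)
    (hAB : ∀ i t, v (σ i (A.coeff t)) ≤ 1 ∧ v (σ i (B.coeff t)) ≤ 1)
    (hA : A.totalDegree ≤ 2 * m) (hB : B.totalDegree ≤ 3 * m)
    (β : Ω) (c : Fin g × MonS d n D → Ω) (hβ : ∀ i, v (σ i β) = v (p : Ω))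
    (hc : ∀ i u, v (σ i (β * c u)) ≤ 1) (hbad : BadAt D ρ b A B c) :
    ∃ (G : Finset (Fin N)) (S J W : Finset (Fin g)) (τ : Fin g → Fin g → k),
      G.card = 2 * g ^ 2 + 1 ∧ Disjoint S W ∧ J ⊆ W ∧ S.card + J.card = d + 1 ∧
      (∀ i i', τ i i' ^ (p ^ 2) = τ i i') ∧
      ∀ j ∈ G, ∃ ty x' s' h, Sys ρ (bty (fun x => r (σ j x)) ρ b ty) (uty k ty) (al0 D ty) S J W τ
        (fun u => r (σ j (β * c u))) x' s' h := by
  classical
  obtain ⟨x, s, hon, P, hP, hrel⟩ := hbad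
  obtain ⟨a, t, n', ha, U, hU, hR⟩ := hREL Ω _ _ g (d + 1) P hrel
  have hplc : ∀ j : Fin N, _ := fun j =>
    hPLC Ω k p (v.comp (σ j).injective) (fun x => r (σ j x)) (hr.comp (σ j)) hp hp5
      (by change v (σ j (p : Ω)) < 1; rw [map_natCast]; exact hvp)
      d n m D g hmD ρ b (fun i l hl => ⟨hb i l hl, fun t => hbi j i l hl t⟩) A B
      (fun t => hAB j t) hA hB β c
      (by change v (σ j β) = v (σ j (p : Ω)); rw [map_natCast]; exact hβ j)
      (fun u => hc j u) x s hon P hP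
  choose R μ S ty x' s' h hCx hμ hRμ hE hbase hal hS hW hrelk using hplc
  obtain ⟨G, S0, J0, τ, τ', hGc, hGS, hdis, hcard, hτ', hJ⟩ := hGRP Ω k p v r hr hp hvp N g (d + 1)
    (2 * g ^ 2) σ (by
      calc 2 ^ (g + 1) * (2 * g ^ 2) = 2 ^ (g + 2) * g ^ 2 := by ring
        _ < N := hN) a t n' ha U hU S
  have hsum : ∀ j ∈ G, ∀ i ∈ J0, ∑ i' ∈ S0ᶜ, τ' i i' * h j i' = 0 := by
    intro j hj i hi
    obtain ⟨h1, h2, h3, h4, h5⟩ := hJ i hi
    have h6 := hR p (v.comp (σ j).injective) (R j) (hCx j) (S j) (μ j) (hμ j) (hRμ j) (hE j) (τ i) h1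
      (by rw [hGS j hj]; exact h4) (fun i' => (h5 j hj i').1)
    have h7 := hrelk j (fun i' => (τ i i' : Ω)) (fun i' => (h5 j hj i').1) h6
    rw [hGS j hj] at h7
    rw [← h7]
    exact Finset.sum_congr rfl fun i' _ => by rw [(h5 j hj i').2]
  have hone : ∀ i ∈ J0, τ' i i = 1 := by
    intro i hi
    obtain ⟨-, h2, -, -, h5⟩ := hJ i hi
    have hGne : G.Nonempty := by rw [← Finset.card_pos, hGc]; omega
    obtain ⟨j, hj⟩ := hGne
    rw [← (h5 j hj i).2, h2]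
    simp [hr.one]
  have hzero : ∀ i ∈ J0, ∀ i' ∈ J0, i' ≠ i → τ' i i' = 0 := by
    intro i hi i' hi' hne
    obtain ⟨-, -, h3, -, h5⟩ := hJ i hi
    have hGne : G.Nonempty := by rw [← Finset.card_pos, hGc]; omega
    obtain ⟨j, hj⟩ := hGne
    rw [← (h5 j hj i').2, h3 i' hi' hne]
    simp [hr.zero]
  by_cases hSc : d + 1 ≤ S0.card
  · obtain ⟨S1, hS1, hS1c⟩ := Finset.exists_subset_card_eq hSc
    refine ⟨G, S1, ∅, ∅, τ', hGc, Finset.disjoint_empty_right _, Finset.empty_subset _, by simp [hS1c],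
      hτ', fun j hj => ⟨ty j, x' j, s' j, h j, hbase j, hal j, ?_, by simp, by simp⟩⟩
    intro i hi
    exact hS j i (by rw [hGS j hj]; exact hS1 hi)
  · push Not at hSc
    obtain ⟨J1, hJ1, hJ1c⟩ := Finset.exists_subset_card_eq (show d + 1 - S0.card ≤ J0.card by omega)
    have hJ1W : J1 ⊆ S0ᶜ := by
      intro i hi
      rw [Finset.mem_compl]
      exact fun h' => (Finset.disjoint_left.1 hdis) (hJ1 hi) h'
    refine ⟨G, S0, J1, S0ᶜ, fun i i' => - τ' i i', hGc, disjoint_compl_right, hJ1W, by omega, ?_,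
      fun j hj => ⟨ty j, x' j, s' j, h j, hbase j, hal j, ?_, ?_, ?_⟩⟩
    · intro i i'
      have hodd : Odd (p ^ 2) := (hp.odd_of_ne_two (by omega)).pow
      rw [hodd.neg_pow, hτ']
    · intro i hi
      exact hS j i (by rw [hGS j hj]; exact hi)
    · intro i hi
      exact hW j i (by rw [hGS j hj]; exact Finset.mem_compl.1 hi)
    · intro i hi
      have h1 := hsum j hj i (hJ1 hi)
      rw [← Finset.sum_sdiff hJ1W] at h1
      have h2 : ∑ i' ∈ J1, τ' i i' * h j i' = h j i := by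
        rw [Finset.sum_eq_single_of_mem i hi]
        · rw [hone i (hJ1 hi), one_mul]
        · intro i' hi' hne
          rw [hzero i (hJ1 hi) i' (hJ1 hi') hne, zero_mul]
      rw [h2] at h1
      simp only [neg_mul, Finset.sum_neg_distrib]
      linear_combination h1

end COR_

end PKD
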